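import Pool.Agent.MT.Stmts
import Pool.Agent.TB.Val

/-!
CLC: the closure of a tangle, and the value of the closure of the top projection.
-/

open Polynomial
open scoped BigOperators Matrix

namespace Pool.Agent.MT

open Pool.Agent.LibH11.Sliced Pool.Agent.TB Pool.Agent.TB.VAL

namespace CLC

variable {A : Type} [CommRing A] (Q : QP A) (r : ℕ)

theorem Omf_del : Omf Q r (del r) = Om Q r := by
  funext t
  unfold Omf del Om
  split_ifs
  · rw [one_mul]
  · rw [zero_mul]

theorem sum_cap_cup (hc : CUP_Stmt) (hr : Even r) (a : Lb r) :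
    ∑ b, capv Q r a b * cupv Q r b (Lb.zero r) = if a = Lb.zero r then 1 else 0 := by
  obtain ⟨c1, -, -, c4, c5⟩ := hc A Q r hr
  cases ha : a.par
  · rw [c4 a (Lb.zero r) ha]
    by_cases h : a = Lb.zero r
    · rw [if_pos h, if_pos h.symm]
    · rw [if_neg h, if_neg (Ne.symm h)]
  · rw [if_neg]
    · refine Finset.sum_eq_zero fun b _ => ?_
      by_cases h1 : b = a.compl
      · have h2 : Lb.zero r ≠ b.compl := by
          intro h3
          have h4 := c5 b
          rw [← h3, Lb.par_zero, h1, c5 a, ha] at h4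
          exact Bool.noConfusion h4
        rw [(c1 b _ h2).1, mul_zero]
      · rw [(c1 a b h1).2, zero_mul]
    · intro h
      rw [h, Lb.par_zero] at ha
      exact Bool.noConfusion ha

theorem cval_eq [IsDomain A] (hb : BRK_Stmt) (he : EMB_Stmt) (hr : REL_Stmt) (hs : SPEC_Stmt)
    (ht : TOP_Stmt) (hc : CUP_Stmt) (hu : UNV_Stmt) (hre : Even r) (hG : Q.Gen r) (hR : Q.Reg r)
    (X : A[X]) : cval Q r X = Om' Q r (aeval (emb23 (Im Q r)) (Q.basis r r) *ᵥ
      (aeval (emb12 (Im Q r)) X *ᵥ Om Q r)) := by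
  have h1 := rel_End Q r hr
  have h := hu A Q.two (Q.lam r) (Q.lam (r - 1)) (Lb r × Lb r × Lb r → A) (Iop Q r false)
    (Iop Q r true) (Om Q r) (Om' Q r) (I1_Om Q r ht)
    (I1_I2_Om Q r he hb hr hs ht hG hR)
    (by
      intro k
      have h2 := LinearMap.congr_fun h1.1 ((Iop Q r true ^ k) (Om Q r))
      simp only [LinearMap.add_apply, LinearMap.sub_apply, LinearMap.smul_apply,
        LinearMap.neg_apply, Module.End.mul_apply] at h2
      rw [pow_succ', pow_succ', Module.End.mul_apply, Module.End.mul_apply]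
      rw [eq_sub_iff_add_eq, eq_sub_iff_add_eq, ← sub_eq_zero]
      rw [← sub_eq_zero] at h2
      rw [← h2]
      abel)
    (Om'_I2 Q r ht) (Om'_Om Q r hc hre) (Wg Q r (Om Q r)) (fun b => by cases b <;> rfl)
    (fun p l => rfl) (fun p l => rfl) [Q.basis r r, X]
  rw [cval, ← h]
  congr 1
  show aeval (Iop Q r false) (Q.basis r r) (aeval (Iop Q r true) X (Om Q r)) = _
  rw [aeval_Iop, aeval_Iop]
  rfl

theorem first [IsDomain A] (hb : BRK_Stmt) (he : EMB_Stmt) (hr : REL_Stmt) (hs : SPEC_Stmt)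
    (ht : TOP_Stmt) (hc : CUP_Stmt) (hu : UNV_Stmt) (hd : DLB_Stmt) (hre : Even r) (hG : Q.Gen r)
    (hR : Q.Reg r) (X : A[X]) : ∑ b, ∑ c, capv Q r b c *
      (aeval (emb12 (Im Q r)) X *ᵥ Omf Q r (del r)) (Lb.zero r, b, c) = dlt Q r * cval Q r X := by
  rw [cval_eq Q r hb he hr hs ht hc hu hre hG hR, Omf_del]
  generalize aeval (emb12 (Im Q r)) X *ᵥ Om Q r = v
  rw [((he A (Lb r)).2.2.2.2 (Im Q r) (Q.basis r r)).2, Om'_apply, Finset.mul_sum]
  have h1 := (hd A Q r hG hR).2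
  have h2 : ∀ a b : Lb r, dlt Q r * (emb23 (aeval (Im Q r) (Q.basis r r)) *ᵥ v)
      (a, b, Lb.zero r) = cupv Q r b (Lb.zero r) * ∑ b', ∑ c', capv Q r b' c' * v (a, b', c') := by
    intro a b
    rw [emb23_mulVec]
    simp only [Finset.mul_sum]
    refine Finset.sum_congr rfl fun b' _ => Finset.sum_congr rfl fun c' _ => ?_
    have h3 := h1 (b, Lb.zero r) (b', c')
    rw [← mul_assoc, h3]
    ring
  have h4 : ∀ a : Lb r, dlt Q r * ∑ b, capv Q r a b *
      (emb23 (aeval (Im Q r) (Q.basis r r)) *ᵥ v) (a, b, Lb.zero r) =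
      (if a = Lb.zero r then 1 else 0) * ∑ b', ∑ c', capv Q r b' c' * v (a, b', c') := by
    intro a
    rw [← sum_cap_cup Q r hc hre a, Finset.mul_sum, Finset.sum_mul]
    refine Finset.sum_congr rfl fun b _ => ?_
    rw [mul_left_comm, h2, mul_assoc]
  simp only [h4]
  symm
  rw [Finset.sum_eq_single (Lb.zero r)]
  · rw [if_pos rfl, one_mul]
  · intro a _ ha
    rw [if_neg ha, zero_mul]
  · intro h
    exact (h (Finset.mem_univ _)).elim

theorem second [IsDomain A] (hb : BRK_Stmt) (he : EMB_Stmt) (hr : REL_Stmt) (hs : SPEC_Stmt)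
    (ht : TOP_Stmt) (hc : CUP_Stmt) (hu : UNV_Stmt) (hd : DLB_Stmt) (hre : Even r) (hG : Q.Gen r)
    (hR : Q.Reg r) : dlt Q r ^ 2 * cval Q r (Q.basis r r) = 1 := by
  obtain ⟨-, -, c3, c4, -⟩ := hc A Q r hre
  have h0 := first Q r hb he hr hs ht hc hu hd hre hG hR (Q.basis r r)
  have h1 := (hd A Q r hG hR).2
  have h2 : ∀ b c : Lb r, dlt Q r * (aeval (emb12 (Im Q r)) (Q.basis r r) *ᵥ
      Omf Q r (del r)) (Lb.zero r, b, c) =
      if c = Lb.zero r then cupv Q r (Lb.zero r) b else 0 := by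
    intro b c
    rw [((he A (Lb r)).2.2.2.2 (Im Q r) (Q.basis r r)).1, emb12_mulVec, Finset.mul_sum]
    have h3 : ∀ a' : Lb r, dlt Q r * ∑ b', (aeval (Im Q r) (Q.basis r r)) (Lb.zero r, b) (a', b') *
        Omf Q r (del r) (a', b', c) = cupv Q r (Lb.zero r) b * (del r a' *
          ∑ b', capv Q r a' b' * cupv Q r b' c) := by
      intro a'
      simp only [Finset.mul_sum]
      refine Finset.sum_congr rfl fun b' _ => ?_
      have h4 := h1 (Lb.zero r, b) (a', b')
      rw [← mul_assoc, h4]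
      show cupv Q r (Lb.zero r) b * capv Q r a' b' * (del r a' * cupv Q r b' c) = _
      ring
    simp only [h3]
    rw [Finset.sum_eq_single (Lb.zero r)]
    · rw [c4 (Lb.zero r) c (Lb.par_zero r), del, if_pos rfl, one_mul]
      split_ifs
      · rw [mul_one]
      · rw [mul_zero]
    · intro a _ ha
      rw [del, if_neg ha, zero_mul, mul_zero]
    · intro h
      exact (h (Finset.mem_univ _)).elim
  rw [pow_two, mul_assoc, ← h0, Finset.mul_sum]
  have h5 : ∀ b : Lb r, dlt Q r * ∑ c, capv Q r b c * (aeval (emb12 (Im Q r)) (Q.basis r r) *ᵥ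
      Omf Q r (del r)) (Lb.zero r, b, c) = cupv Q r (Lb.zero r) b * capv Q r b (Lb.zero r) := by
    intro b
    rw [Finset.mul_sum, Finset.sum_eq_single (Lb.zero r)]
    · rw [mul_left_comm, h2, if_pos rfl, mul_comm]
    · intro c _ hc'
      rw [mul_left_comm, h2, if_neg hc', mul_zero]
    · intro h
      exact (h (Finset.mem_univ _)).elim
  simp only [h5]
  rw [c3 (Lb.zero r) (Lb.zero r) (Lb.par_zero r), if_pos rfl]

end CLC

theorem clc (hb : BRK_Stmt) (he : EMB_Stmt) (hr : REL_Stmt) (hs : SPEC_Stmt) (_hf : FC_Stmt)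
    (ht : TOP_Stmt) (hc : CUP_Stmt) (hu : UNV_Stmt) (hd : DLB_Stmt) (_hw : WOP_Stmt) :
    CLC_Stmt := by
  intro A _ _ Q r hre hG hR
  exact ⟨fun X => CLC.first Q r hb he hr hs ht hc hu hd hre hG hR X,
    CLC.second Q r hb he hr hs ht hc hu hd hre hG hR⟩

end Pool.Agent.MT
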