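import Pool.Agent.TB.Defs
import Pool.Agent.TB.Defs2

/-!
Finite type invariants of Montesinos knots: definitions (algebraic part).
See PAPER.md in this folder.
-/

open Polynomial
open scoped BigOperators

namespace Pool.Agent.MT

open Pool.Agent.LibH11.Sliced Pool.Agent.TB

/-! ### 1. The diagrams -/

/-- A rational tangle on two strands. `(false, x)`: minimum `cup 1`, twist regions at the positions
`0, 1, 0, 1, ...` (first letter of the word innermost), maximum `cap 2`. `(true, x)`: minimum
`cup 0`, twist regions at the positions `1, 0, 1, ...`, maximum `cap 2`. -/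
def tgd : Bool × List ℤ → Diag
  | (false, x) => (Kind.cup, 1) :: (twd 0 x ++ [(Kind.cap, 2)])
  | (true, x) => (Kind.cup, 0) :: (twd 1 x ++ [(Kind.cap, 2)])

/-- `|e|` crossings of the strands `0` and `1` -/
def htd (e : ℤ) : Diag := List.replicate e.natAbs (Kind.crs (decide (0 < e)), 0)

/-- The long diagram of the tangles `ts` and `e` half twists. -/
def mdiag (ts : List (Bool × List ℤ)) (e : ℤ) : Diag :=
  (Kind.cup, 1) :: ((ts.map tgd).flatten ++ (htd e ++ [(Kind.cap, 1)]))

/-- the number of tangles with the flag `true` -/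
def ntr (ts : List (Bool × List ℤ)) : ℕ := ts.countP fun t => t.1

/-- Parities: words of even length for the flag `false`, of odd length for the flag `true`; either
no flag `true` and `e` odd, or exactly one flag `true` and `e` even. -/
def PF (ts : List (Bool × List ℤ)) (e : ℤ) : Prop :=
  (∀ t ∈ ts, t.1 = false → Even t.2.length) ∧ (∀ t ∈ ts, t.1 = true → Odd t.2.length) ∧
    ((ntr ts = 0 ∧ Odd e) ∨ (ntr ts = 1 ∧ Even e))

/-- sum of the entries number 0, 2, 4, ... -/
def evs : List ℤ → ℤ
  | [] => 0
  | [a] => a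
  | a :: _ :: l => a + evs l

/-- sum of the entries number 1, 3, 5, ... -/
def ods (l : List ℤ) : ℤ := evs l.tail

/-- signed number of the crossings of parallel strands -/
def par (ts : List (Bool × List ℤ)) (e : ℤ) : ℤ :=
  if ntr ts = 0 then e + 2 * (ts.map fun t => evs t.2).sum else 0

/-! ### 2. Universal values -/

section Universal

variable {A : Type} [CommRing A] (Q : QP A) (r : ℕ)

/-- the value of a circle (all labels): `∏ (1 + q^(2j)) / (i^r s^(r(r-1)))` -/
def dlt : A := (∏ j ∈ Finset.range r, (1 + Q.qp (2 * j))) *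
  (((Q.i ^ (r : ℤ) * Q.s ^ ((r : ℤ) * (r - 1)))⁻¹ : Aˣ) : A)

/-- the factor of a crossing of parallel strands: `f_r^2 / s^r` -/
def tht : Aˣ := Q.fu r ^ 2 * (Q.s ^ r)⁻¹

/-- `f_m / f_r`, the eigenvalue of a half twist -/
def Fu (m : ℤ) : Aˣ := Q.fu m * (Q.fu r)⁻¹

/-- the polynomial of a twist region -/
noncomputable def GP (a : ℤ) : A[X] := Q.interp r fun m => ((Q.Gu r m ^ a : Aˣ) : A)

/-- the polynomial of `e` half twists -/
noncomputable def FP (e : ℤ) : A[X] := Q.interp r fun m => ((Fu Q r m ^ e : Aˣ) : A)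

/-- the polynomial of a tangle -/
noncomputable def tpoly (t : Bool × List ℤ) : A[X] :=
  wop Q.two (Q.lam r) (Q.lam (r - 1)) false
    (t.2.reverse.map (GP Q r) ++ if t.1 then [Q.basis r r] else [])

/-- the value of the closure of the tangle with the polynomial `X`, divided by `dlt` -/
noncomputable def cval (X : A[X]) : A := Uval Q.two (Q.lam r) (Q.lam (r - 1)) [Q.basis r r, X]

/-- the normalised value of `mdiag ts e` -/
noncomputable def Mval (ts : List (Bool × List ℤ)) (e : ℤ) : A :=
  cval Q r (FP Q r e * (ts.map (tpoly Q r)).prod)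

/-- the value of `mdiag ts e` -/
noncomputable def Ew (ts : List (Bool × List ℤ)) (e : ℤ) : A :=
  ((tht Q r ^ par ts e : Aˣ) : A) * dlt Q r ^ (1 + ntr ts) * Mval Q r ts e

/-- words of polynomials acting on vectors: `false`: the first letter acts on the strands 2, 3 -/
noncomputable def Wv (v : Lb r × Lb r × Lb r → A) : Bool → List A[X] → (Lb r × Lb r × Lb r → A)
  | _, [] => v
  | false, P :: l => (aeval (emb23 (Im Q r)) P).mulVec (Wv v true l)
  | true, P :: l => (aeval (emb12 (Im Q r)) P).mulVec (Wv v false l)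

/-- the vector `φ ⊗ cup` -/
def Omf (φ : Lb r → A) : Lb r × Lb r × Lb r → A := fun t => φ t.1 * cupv Q r t.2.1 t.2.2

/-- `φ = δ_0` -/
def del : Lb r → A := fun a => if a = Lb.zero r then 1 else 0

/-- `ψ` lives on three strands, with coefficients `g(orientations) v(labels)`. -/
def RelM (ψ : List (SL r) → A) (g : Bool → Bool → Bool → A) (v : Lb r × Lb r × Lb r → A) : Prop :=
  (∀ l, l.length ≠ 3 → ψ l = 0) ∧
    ∀ a b c : SL r, ψ [a, b, c] = g a.2 b.2 c.2 * v (a.1.1, b.1.1, c.1.1)

end Universal

/-! ### 3. The model at a root of unity -/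

section Torus

variable (n : ℕ) [NeZero n] (ι : ℤ)

/-- the recursion `vec` with a general base vector (value, coefficient of `η`); the list is
ordered outermost first -/
noncomputable def vecg (B : Fn n × Fn n) : Bool → List ℤ → Fn n × Fn n
  | _, [] => B
  | false, a :: l =>
      (Dc n ι a (vecg B true l).1,
        Dc n ι a ((vecg B true l).2 + Th n ι (vecg B true l).1) +
          (a : ℂ) • cono n ι (bq n) (Dc n ι a (vecg B true l).1) -
          Th n ι (Dc n ι a (vecg B true l).1))
  | true, a :: l =>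
      (Cc n ι a (vecg B false l).1,
        Cc n ι a (vecg B false l).2 + (a : ℂ) • mulo n (bq n) (Cc n ι a (vecg B false l).1))

/-- the base vectors: `(1, -Θ1)` and `(δ_0, 0)` -/
noncomputable def bs : Bool → Fn n × Fn n
  | false => (1, -(Th n ι 1))
  | true => (fun u => if u = 0 then 1 else 0, 0)

/-- the vector of a tangle -/
noncomputable def vt (t : Bool × List ℤ) : Fn n × Fn n := vecg n ι (bs n ι t.1) false t.2.reverse

/-- a pair as a function with values in the dual numbers -/
noncomputable def du (f : Fn n × Fn n) (u : ZMod (2 * n)) : DualNumber ℂ :=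
  TrivSqZeroExt.inl (f.1 u) + TrivSqZeroExt.inr (f.2 u)

/-- the value in the model: the sum over the even `u = 2w` -/
noncomputable def Mt (ts : List (Bool × List ℤ)) (e : ℤ) : DualNumber ℂ :=
  ∑ w ∈ Finset.range n,
    TrivSqZeroExt.inl (zt n ι ((2 * e * (w : ℤ) ^ 2 : ℤ) : ZMod (2 * n))) *
      (1 + TrivSqZeroExt.inr ((e : ℂ) / 2 * bq n ((2 * w : ℕ) : ZMod (2 * n)))) *
      (1 + TrivSqZeroExt.inr (((ts.length : ℂ) - 2) * Th n ι 1 ((2 * w : ℕ) : ZMod (2 * n)))) *
      (ts.map fun t => du n (vt n ι t) ((2 * w : ℕ) : ZMod (2 * n))).prod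

end Torus

end Pool.Agent.MT
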