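import Pool.Agent.MT.Stmts
import Pool.Agent.TB.Fc
import Pool.Agent.TB.Spec
import Pool.Agent.TB.Top

/-!
DLB: the projection to the top eigenvector of `I`.
-/

open Polynomial
open scoped BigOperators Matrix

namespace Pool.Agent.MT

open Pool.Agent.LibH11.Sliced Pool.Agent.TB

namespace DLB

variable {A : Type} [CommRing A] (Q : QP A)

/-- `capu . cupv` -/
theorem capu_cupv : ∀ r : ℕ, ∑ a, ∑ b, capu Q r a b * cupv Q r a b =
    ∏ j ∈ Finset.range r, (1 + Q.qp (2 * (j : ℤ)))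
  | 0 => by
    have h : ∀ f : Lb 0 → A, ∑ a, f a = f () := fun f => Fintype.sum_unique (ι := Unit) f
    rw [h, h]
    simp [capu, cupv]
  | r + 1 => by
    rw [TOP.sum_Lb]
    have h1 : ∀ a' : Lb r, ∑ u : Bool, ∑ b : Lb (r + 1),
        capu Q (r + 1) (a', u) b * cupv Q (r + 1) (a', u) b =
        ∑ b' : Lb r, (1 + Q.qp (2 * (r : ℤ))) * (capu Q r a' b' * cupv Q r a' b') := by
      intro a'
      rw [Fintype.sum_bool, TOP.sum_Lb, TOP.sum_Lb, ← Finset.sum_add_distrib]
      refine Finset.sum_congr rfl fun b' _ => ?_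
      rw [Fintype.sum_bool, Fintype.sum_bool]
      have e1 : capu Q (r + 1) ((a', true) : Lb (r + 1)) ((b', true) : Lb (r + 1)) = 0 := rfl
      have e2 : capu Q (r + 1) ((a', true) : Lb (r + 1)) ((b', false) : Lb (r + 1)) =
        capu Q r a' b' := rfl
      have e3 : cupv Q (r + 1) ((a', true) : Lb (r + 1)) ((b', false) : Lb (r + 1)) =
        cupv Q r a' b' := rfl
      have e4 : capu Q (r + 1) ((a', false) : Lb (r + 1)) ((b', true) : Lb (r + 1)) =
        (Q.i : A) * Q.qp r * capu Q r a' b' := rfl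
      have e5 : cupv Q (r + 1) ((a', false) : Lb (r + 1)) ((b', true) : Lb (r + 1)) =
        -(Q.i : A) * Q.qp r * cupv Q r a' b' := rfl
      have e6 : capu Q (r + 1) ((a', false) : Lb (r + 1)) ((b', false) : Lb (r + 1)) = 0 := rfl
      rw [e1, e2, e3, e4, e5, e6]
      have h2 : Q.qp (2 * (r : ℤ)) = Q.qp r * Q.qp r := by
        rw [two_mul, SPEC.qp_add]
      rw [h2]
      linear_combination -(Q.qp r * Q.qp r * capu Q r a' b' * cupv Q r a' b') * Q.hi
    rw [Finset.sum_congr rfl fun a' _ => h1 a']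
    simp_rw [← Finset.mul_sum]
    rw [capu_cupv r, Finset.prod_range_succ, mul_comm]

variable {r : ℕ}

/-- the top eigenvalue -/
theorem mem_top : (r : ℤ) ∈ Finset.Icc (-(r : ℤ)) r := by
  rw [Finset.mem_Icc]; omega

theorem basis_Im (hs : SPEC_Stmt) (hf : FC_Stmt) (hG : Q.Gen r) :
    aeval (Im Q r) (Q.basis r r) * Im Q r = Q.lam r • aeval (Im Q r) (Q.basis r r) := by
  have h := (hf A Q r hG).2 _ (Im Q r) (hs A Q r hG).1 (Q.basis r r * X)
    (C (Q.lam r) * Q.basis r r) (fun m hm => by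
      rw [eval_mul, eval_mul, eval_X, eval_C]
      by_cases h : m = r
      · subst h; ring
      · rw [FC.eval_basis_ne Q hm h]; ring)
  rwa [map_mul, aeval_X, map_mul, aeval_C, Algebra.algebraMap_eq_smul_one, smul_mul_assoc,
    one_mul] at h

theorem basis_cup (ht : TOP_Stmt) (hG : Q.Gen r) (p : Lb r × Lb r) :
    ∑ a, ∑ b, aeval (Im Q r) (Q.basis r r) p (a, b) * cupv Q r a b = cupv Q r p.1 p.2 := by
  have h1 : (Im Q r) *ᵥ (fun c : Lb r × Lb r => cupv Q r c.1 c.2) =
      Q.lam r • (fun c : Lb r × Lb r => cupv Q r c.1 c.2) := by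
    funext c
    rw [Matrix.mulVec, dotProduct, Fintype.sum_prod_type]
    exact (ht A Q r).1 c.1 c.2
  have h2 := congrFun (SPEC.aeval_mulVec (Im Q r) _ _ h1 (Q.basis r r)) p
  rw [FC.eval_basis_self Q hG mem_top, one_smul, Matrix.mulVec, dotProduct,
    Fintype.sum_prod_type] at h2
  exact h2

end DLB

theorem dlb (_hb : BRK_Stmt) (hs : SPEC_Stmt) (hf : FC_Stmt) (ht : TOP_Stmt) : DLB_Stmt := by
  intro A _ _ Q r hG hR
  have hS : ∑ a, ∑ b, capv Q r a b * cupv Q r a b = dlt Q r := by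
    rw [dlt, ← DLB.capu_cupv, mul_comm, Finset.mul_sum]
    refine Finset.sum_congr rfl fun a _ => ?_
    rw [Finset.mul_sum]
    refine Finset.sum_congr rfl fun b _ => ?_
    rw [capv]; ring
  refine ⟨hS, fun p c => ?_⟩
  have hv : ∀ a b, ∑ x, ∑ y, aeval (Im Q r) (Q.basis r r) p (x, y) * Im Q r (x, y) (a, b) =
      Q.lam r * aeval (Im Q r) (Q.basis r r) p (a, b) := by
    intro a b
    have h := congrFun (congrFun (DLB.basis_Im Q hs hf hG) p) (a, b)
    rw [Matrix.mul_apply, Fintype.sum_prod_type] at h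
    exact h
  obtain ⟨k, hk⟩ := (ht A Q r).2.2 inferInstance hG hR
    (fun x y => aeval (Im Q r) (Q.basis r r) p (x, y)) hv
  have hk' : ∀ c : Lb r × Lb r, aeval (Im Q r) (Q.basis r r) p c = k * capu Q r c.1 c.2 :=
    fun c => hk c.1 c.2
  have h1 := DLB.basis_cup Q ht hG p
  rw [Finset.sum_congr rfl fun a _ => Finset.sum_congr rfl fun b _ => by rw [hk' (a, b)]] at h1
  have h2 : k * ∑ a, ∑ b, capu Q r a b * cupv Q r a b = cupv Q r p.1 p.2 := by
    rw [← h1, Finset.mul_sum]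
    refine Finset.sum_congr rfl fun a _ => ?_
    rw [Finset.mul_sum]
    refine Finset.sum_congr rfl fun b _ => ?_
    ring
  rw [hk' c, dlt, ← DLB.capu_cupv, capv, ← h2]
  ring

end Pool.Agent.MT
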