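import Pool.Agent.MT.Stmts
import Pool.Agent.TB.Val

/-!
HT: half twists.
-/

open Polynomial
open scoped BigOperators Matrix

namespace Pool.Agent.MT

open Pool.Agent.LibH11.Sliced Pool.Agent.TB

namespace HT

open Pool.Agent.TB.VAL (Rx cf ES emb12_mulVec)

variable {A : Type} [CommRing A] (Q : QP A) (r : ℕ)

/-- the factor of a crossing of parallel strands -/
def sg : Bool → Aˣ
  | true => tht Q r
  | false => (tht Q r)⁻¹

theorem coef (e : Bool) (x y a b : SL r) : (tdata Q r).R e x y a b =
    if x.2 = b.2 ∧ y.2 = a.2 then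
      (if a.2 = b.2 then ((sg Q r e : Aˣ) : A) else 1) *
        ((cf Q r e : A) * Rx Q r e (x.1.1, y.1.1) (a.1.1, b.1.1)) else 0 := by
  have h1 : Q.fu r * (Q.s ^ r)⁻¹ = tht Q r * (Q.fu r)⁻¹ := by
    unfold tht
    rw [mul_right_comm, pow_two, mul_inv_cancel_right]
  have h2 : (Q.fu r)⁻¹ * Q.s ^ r = (tht Q r)⁻¹ * Q.fu r := by
    unfold tht
    rw [mul_inv, inv_inv, mul_right_comm, pow_two, mul_inv, inv_mul_cancel_right]
  by_cases h : x.2 = b.2 ∧ y.2 = a.2
  · by_cases h3 : a.2 = b.2
    · cases e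
      · simp only [tdata, if_pos h, if_pos h3, sg, cf, Rx, h2]
        push_cast
        ring
      · simp only [tdata, if_pos h, if_pos h3, sg, cf, Rx, h1]
        push_cast
        ring
    · cases e
      · simp only [tdata, if_pos h, if_neg h3, cf, Rx, one_mul]
      · simp only [tdata, if_pos h, if_neg h3, cf, Rx, one_mul]
  · cases e
    · simp only [tdata, if_neg h]
    · simp only [tdata, if_neg h]

theorem relM_step (hp : RPR_Stmt) (e : Bool) {ψ : List (SL r) → A} {g : Bool → Bool → Bool → A}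
    {v : Lb r × Lb r × Lb r → A} (h : RelM r ψ g v) :
    RelM r ((tdata Q r).ap (.crs e) 0 ψ)
      (fun a b c => (if a = b then ((sg Q r e : Aˣ) : A) else 1) * g b a c)
      (((cf Q r e : A) • emb12 (Rx Q r e)) *ᵥ v) := by
  obtain ⟨h0, h1⟩ := h
  refine ⟨?_, ?_⟩
  · intro l hl
    match l, hl with
    | [], _ => rfl
    | [_], _ => rfl
    | x :: y :: l, hl =>
      show ∑ a, ∑ b, (tdata Q r).R e x y a b * ψ (a :: b :: l) = 0
      refine Finset.sum_eq_zero fun a _ => Finset.sum_eq_zero fun b _ => ?_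
      rw [h0 (a :: b :: l) (by simpa using hl), mul_zero]
  · rintro ⟨x, x2⟩ ⟨y, y2⟩ ⟨z, z2⟩
    show ∑ a, ∑ b, (tdata Q r).R e (x, x2) (y, y2) a b * ψ [a, b, (z, z2)] = _
    rw [Matrix.smul_mulVec, Pi.smul_apply, emb12_mulVec, smul_eq_mul,
      ← ES Q r hp e x.1 y.1 x.2 y.2 (fun a b => v (a, b, z.1))]
    rw [Fintype.sum_prod_type]
    simp only [Fintype.sum_prod_type, Finset.mul_sum]
    refine Finset.sum_congr rfl fun a _ => ?_
    rw [Finset.sum_comm]
    refine Finset.sum_congr rfl fun b _ => ?_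
    rw [Finset.sum_eq_single y2]
    · rw [Finset.sum_eq_single x2]
      · rw [coef, if_pos ⟨rfl, rfl⟩, h1]
        simp only
        by_cases hxy : x2 = y2
        · rw [if_pos hxy, if_pos hxy.symm]
          ring
        · rw [if_neg hxy, if_neg (Ne.symm hxy)]
          ring
      · intro o _ ho
        rw [coef, if_neg (fun hh => ho hh.1.symm), zero_mul]
      · intro hh
        exact (hh (Finset.mem_univ _)).elim
    · intro o _ ho
      refine Finset.sum_eq_zero fun o' _ => ?_
      rw [coef, if_neg (fun hh => ho hh.2.symm), zero_mul]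
    · intro hh
      exact (hh (Finset.mem_univ _)).elim

theorem relM_pow (hp : RPR_Stmt) (e : Bool) (n : ℕ) {ψ : List (SL r) → A}
    {g : Bool → Bool → Bool → A} {v : Lb r × Lb r × Lb r → A} (h : RelM r ψ g v) :
    RelM r ((tdata Q r).st (List.replicate n (Kind.crs e, 0)) ψ)
      (fun a b c => (if a = b then ((sg Q r e ^ n : Aˣ) : A) else 1) *
        if Even n then g a b c else g b a c)
      (((cf Q r e : A) • emb12 (Rx Q r e)) ^ n *ᵥ v) := by
  induction n generalizing ψ g v with
  | zero =>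
    have e1 : (((cf Q r e : A) • emb12 (Rx Q r e)) ^ 0 *ᵥ v) = v := by
      rw [pow_zero, Matrix.one_mulVec]
    rw [e1]
    have : (fun a b c : Bool => (if a = b then ((sg Q r e ^ 0 : Aˣ) : A) else 1) *
        if Even 0 then g a b c else g b a c) = g := by
      funext a b c
      simp
    rw [this]
    exact h
  | succ n ih =>
    have h1 := ih (relM_step Q r hp e h)
    have e1 : ((cf Q r e : A) • emb12 (Rx Q r e)) ^ (n + 1) *ᵥ v =
        ((cf Q r e : A) • emb12 (Rx Q r e)) ^ n *ᵥ (((cf Q r e : A) • emb12 (Rx Q r e)) *ᵥ v) := by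
      rw [pow_succ, ← Matrix.mulVec_mulVec]
    rw [e1, List.replicate_succ]
    have h2 : (fun a b c : Bool => (if a = b then ((sg Q r e ^ (n + 1) : Aˣ) : A) else 1) *
        if Even (n + 1) then g a b c else g b a c) =
        fun a b c : Bool => (if a = b then ((sg Q r e ^ n : Aˣ) : A) else 1) *
        if Even n then (if a = b then ((sg Q r e : Aˣ) : A) else 1) * g b a c
          else (if b = a then ((sg Q r e : Aˣ) : A) else 1) * g a b c := by
      funext a b c
      by_cases hn : Even n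
      · rw [if_neg (c := Even (n + 1)) (by rw [Nat.even_add_one]; exact not_not.2 hn), if_pos hn]
        by_cases hab : a = b
        · rw [if_pos hab, if_pos hab, if_pos hab, pow_succ]
          push_cast
          ring
        · rw [if_neg hab, if_neg hab, if_neg hab, one_mul, one_mul]
      · rw [if_pos (c := Even (n + 1)) (by rw [Nat.even_add_one]; exact hn), if_neg hn]
        by_cases hab : a = b
        · rw [if_pos hab, if_pos hab, if_pos hab.symm, pow_succ]
          push_cast
          ring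
        · rw [if_neg hab, if_neg hab, if_neg (Ne.symm hab), one_mul, one_mul]
    rw [h2]
    exact h1

theorem fp_eq (he : EMB_Stmt) (hs : SPEC_Stmt) (hf : FC_Stmt) (hG : Q.Gen r) (e : ℤ) :
    aeval (emb12 (Im Q r)) (FP Q r e) =
      ((cf Q r (decide (0 < e)) : A) • emb12 (Rx Q r (decide (0 < e)))) ^ e.natAbs := by
  obtain ⟨h1, h2⟩ := hf A Q r hG
  have h3 := hs A Q r hG
  have hpol : aeval (emb12 (Im Q r)) (Q.pol r) = 0 := VAL.pol_emb Q r he hs hG true
  have hemb : ∀ p : A[X], aeval (emb12 (Im Q r)) p = emb12 (aeval (Im Q r) p) :=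
    fun p => ((he A (Lb r)).2.2.2.2 (Im Q r) p).1
  by_cases hx : 0 < e
  · rw [decide_eq_true hx]
    have h4 : aeval (emb12 (Im Q r)) ((C ((cf Q r true : A)) *
        (Q.interp r fun m => (Q.fu m : A))) ^ e.natAbs) =
        ((cf Q r true : A) • emb12 (Rx Q r true)) ^ e.natAbs := by
      generalize hc : (cf Q r true : A) = c
      rw [map_pow, map_mul, aeval_C, hemb, h3.2.1, ← Algebra.smul_def]
      rfl
    rw [← h4]
    refine h2 _ _ hpol _ _ ?_
    intro m hm
    rw [FP, h1 _ m hm, eval_pow, eval_mul, eval_C, h1 _ m hm]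
    have h5 : Fu Q r m ^ e = (cf Q r true * Q.fu m) ^ e.natAbs := by
      have h6 : Fu Q r m ^ e = Fu Q r m ^ e.natAbs := by
        rw [← zpow_natCast, Int.natAbs_of_nonneg hx.le]
      rw [h6]
      congr 1
      rw [Fu, cf, mul_comm]
    rw [h5]
    push_cast
    rfl
  · rw [decide_eq_false hx]
    have h4 : aeval (emb12 (Im Q r)) ((C ((cf Q r false : A)) *
        (Q.interp r fun m => (((Q.fu m)⁻¹ : Aˣ) : A))) ^ e.natAbs) =
        ((cf Q r false : A) • emb12 (Rx Q r false)) ^ e.natAbs := by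
      generalize hc : (cf Q r false : A) = c
      rw [map_pow, map_mul, aeval_C, hemb, h3.2.2, ← Algebra.smul_def]
      rfl
    rw [← h4]
    refine h2 _ _ hpol _ _ ?_
    intro m hm
    rw [FP, h1 _ m hm, eval_pow, eval_mul, eval_C, h1 _ m hm]
    have h5 : Fu Q r m ^ e = (cf Q r false * (Q.fu m)⁻¹) ^ e.natAbs := by
      have h6 : Fu Q r m ^ e = (Fu Q r m)⁻¹ ^ e.natAbs := by
        have h7 : e = -((e.natAbs : ℕ) : ℤ) := by omega
        conv_lhs => rw [h7]
        rw [zpow_neg, zpow_natCast, inv_pow]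
      have h8 : (Fu Q r m)⁻¹ = cf Q r false * (Q.fu m)⁻¹ := by
        rw [Fu, cf, mul_inv, inv_inv, mul_comm]
      rw [h6, h8]
    rw [h5]
    push_cast
    rfl

theorem sg_eq (e : ℤ) : sg Q r (decide (0 < e)) ^ e.natAbs = tht Q r ^ e := by
  by_cases hx : 0 < e
  · rw [decide_eq_true hx, sg, ← zpow_natCast, Int.natAbs_of_nonneg hx.le]
  · rw [decide_eq_false hx, sg]
    have h7 : e = -((e.natAbs : ℕ) : ℤ) := by omega
    conv_rhs => rw [h7]
    rw [zpow_neg, zpow_natCast, inv_pow]

end HT

/-- HT: half twists. -/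
theorem ht_thm (hb : BRK_Stmt) (he : EMB_Stmt) (hs : SPEC_Stmt) (hf : FC_Stmt) (hp : RPR_Stmt) :
    HT_Stmt := by
  intro A _ Q r _ hG e ψ g v h
  have h1 := HT.relM_pow Q r hp (decide (0 < e)) e.natAbs h
  rw [HT.sg_eq] at h1
  rw [HT.fp_eq Q r he hs hf hG]
  have h2 : (fun a b c : Bool => (if a = b then ((tht Q r ^ e : Aˣ) : A) else 1) *
      if Even e then g a b c else g b a c) =
      fun a b c : Bool => (if a = b then ((tht Q r ^ e : Aˣ) : A) else 1) *
        if Even e.natAbs then g a b c else g b a c := by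
    funext a b c
    simp only [Int.natAbs_even]
  rw [h2]
  exact h1

end Pool.Agent.MT
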