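import Pool.Agent.MT.Stmts
import Pool.Agent.TB.Nat

/-!
Module NATM: base change of the universal values of the Montesinos diagrams.
-/

open Polynomial
open scoped BigOperators

namespace Pool.Agent.MT

open Pool.Agent.LibH11.Sliced Pool.Agent.TB

namespace NATM

variable {A B : Type} [CommRing A] [CommRing B] (φ : A →+* B)

theorem tht_map (Q : QP A) (r : ℕ) : tht (Q.map φ) r = Units.map (φ : A →* B) (tht Q r) := by
  unfold tht
  rw [NAT.fu_map, map_mul, map_pow, map_inv, map_pow]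
  rfl

theorem Fu_map (Q : QP A) (r : ℕ) (m : ℤ) :
    Fu (Q.map φ) r m = Units.map (φ : A →* B) (Fu Q r m) := by
  unfold Fu
  rw [NAT.fu_map, NAT.fu_map, map_mul, map_inv]

theorem dlt_map (Q : QP A) (r : ℕ) : dlt (Q.map φ) r = φ (dlt Q r) := by
  unfold dlt
  rw [map_mul, map_prod]
  congr 1
  · refine Finset.prod_congr rfl fun j _ => ?_
    rw [NAT.qp_map, map_add, map_one]
  · have h1 : ((Q.map φ).i ^ (r : ℤ) * (Q.map φ).s ^ ((r : ℤ) * (r - 1)))⁻¹ =
        Units.map (φ : A →* B) (Q.i ^ (r : ℤ) * Q.s ^ ((r : ℤ) * (r - 1)))⁻¹ := by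
      rw [map_inv, map_mul, map_zpow, map_zpow]
      rfl
    rw [h1]
    rfl

theorem GP_map (Q : QP A) (r : ℕ) (h : Q.Gen r) (a : ℤ) :
    GP (Q.map φ) r a = (GP Q r a).map φ := by
  unfold GP
  refine NAT.interp_map φ Q r h _ _ fun m => ?_
  rw [NAT.Gu_map, ← map_zpow]
  rfl

theorem FP_map (Q : QP A) (r : ℕ) (h : Q.Gen r) (e : ℤ) :
    FP (Q.map φ) r e = (FP Q r e).map φ := by
  unfold FP
  refine NAT.interp_map φ Q r h _ _ fun m => ?_
  rw [Fu_map, ← map_zpow]
  rfl

theorem basis_map (Q : QP A) (r : ℕ) (h : Q.Gen r) :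
    (Q.map φ).basis r r = (Q.basis r r).map φ :=
  NAT.basis_map φ Q r h r (Finset.mem_Icc.2 ⟨by omega, le_rfl⟩)

theorem tpoly_map (Q : QP A) (r : ℕ) (h : Q.Gen r) (t : Bool × List ℤ) :
    tpoly (Q.map φ) r t = (tpoly Q r t).map φ := by
  unfold tpoly
  rw [← NAT.wop_map, NAT.two_map, NAT.lam_map, NAT.lam_map]
  congr 1
  rw [List.map_append, List.map_map]
  congr 1
  · exact List.map_congr_left fun a _ => GP_map φ Q r h a
  · split_ifs
    · rw [basis_map φ Q r h]
      rfl
    · rfl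

theorem cval_map (Q : QP A) (r : ℕ) (h : Q.Gen r) (X : A[X]) :
    cval (Q.map φ) r (X.map φ) = φ (cval Q r X) := by
  unfold cval
  rw [← NAT.Uval_map, NAT.two_map, NAT.lam_map, NAT.lam_map, basis_map φ Q r h]
  rfl

theorem prod_map (Q : QP A) (r : ℕ) (h : Q.Gen r) (ts : List (Bool × List ℤ)) :
    (ts.map (tpoly (Q.map φ) r)).prod = ((ts.map (tpoly Q r)).prod).map φ := by
  induction ts with
  | nil => simp
  | cons t ts ih =>
    rw [List.map_cons, List.map_cons, List.prod_cons, List.prod_cons, Polynomial.map_mul, ih,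
      tpoly_map φ Q r h]

end NATM

open NATM in
/-- **Module NATM.** -/
theorem natm : NATM_Stmt := by
  intro A B _ _ φ Q r h
  constructor
  · intro ts e
    unfold Ew Mval
    rw [map_mul, map_mul, map_pow, dlt_map, tht_map, ← cval_map φ Q r h, Polynomial.map_mul,
      FP_map φ Q r h, prod_map φ Q r h, ← map_zpow]
    rfl
  · rw [map_mul, map_pow, dlt_map, basis_map φ Q r h, cval_map φ Q r h]

end Pool.Agent.MT
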