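import Pool.Agent.MT.Stmts
import Pool.Agent.TB.Ot

/-!
Finite type invariants of Montesinos knots: OTG, the ring of rational functions regular at `s = 1`
and at `s = s0` (module MT_OTG, by helper18; a repackaging of `Pool.Agent.TB.Ot`).
-/

open Polynomial
open scoped BigOperators Real

namespace Pool.Agent.MT

open Pool.Agent.TB

namespace OTG

theorem mm_le (s0 : ℂˣ) : OT.MM s0 ≤ nonZeroDivisors ℂ[X] := by
  intro p hp
  apply mem_nonZeroDivisors_of_ne_zero
  rintro rfl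
  exact hp.1 (by simp)

theorem isDomain (s0 : ℂˣ) : IsDomain (OT.OO s0) :=
  IsLocalization.isDomain_localization (mm_le s0)

theorem map_ps (s0 : ℂˣ) : (OT.QO s0).map (OT.lft s0 OT.g1 (OT.g1_unit s0)) = QPS := by
  refine OT.map_eq s0 _ _ _ ?_ ?_
  · show eval₂ _ _ X = _
    rw [eval₂_X]
    rfl
  · show eval₂ _ _ (C Complex.I) = _
    rw [eval₂_C]
    rfl

theorem map_dual (s0 : ℂˣ) : (OT.QO s0).map (OT.lft s0 (OT.g2 s0) (OT.g2_unit s0)) = QD s0 := by
  refine OT.map_eq s0 _ _ _ ?_ ?_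
  · show eval₂ _ _ X = _
    rw [eval₂_X]
  · show eval₂ _ _ (C Complex.I) = _
    rw [eval₂_C]
    rfl

theorem injective (s0 : ℂˣ) : Function.Injective (OT.lft s0 OT.g1 (OT.g1_unit s0)) := by
  rw [injective_iff_map_eq_zero]
  intro u hu
  obtain ⟨⟨a, b⟩, hab⟩ := IsLocalization.surj (OT.MM s0) u
  have h := congrArg (OT.lft s0 OT.g1 (OT.g1_unit s0)) hab
  rw [map_mul, hu, zero_mul, OT.lft_alg] at h
  have ha : a = 0 := OT.g1_inj (by rw [← h, map_zero])
  simp only at hab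
  rw [ha, map_zero] at hab
  exact (IsUnit.mul_left_eq_zero (IsLocalization.map_units (OT.OO s0) b)).1 hab

end OTG

/-- OTG. -/
theorem otg (hb : BRK_Stmt) : OTG_Stmt := by
  intro r s0 hG
  exact ⟨OT.OO s0, inferInstance, OTG.isDomain s0, OT.QO s0,
    OT.lft s0 OT.g1 (OT.g1_unit s0), OT.lft s0 (OT.g2 s0) (OT.g2_unit s0),
    OT.gen s0 hb r hG, OTG.injective s0, OTG.map_ps s0, OTG.map_dual s0⟩

end Pool.Agent.MT
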