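import Pool.Agent.MT.Stmts
import Pool.Agent.TB.Rpr

/-!
Finite type invariants of Montesinos knots: module PRT (parities of the labels). See PAPER.md in
this folder, section A1.
-/

open Polynomial
open scoped BigOperators Matrix

namespace Pool.Agent.MT

open Pool.Agent.LibH11.Sliced Pool.Agent.TB

namespace PRT

/-! ### The reflection of polynomials -/

section Poly

variable {A : Type} [CommRing A]

/-- `P(X) ↦ P(-X)` -/
noncomputable def sg (A : Type) [CommRing A] : A[X] →ₐ[A] A[X] := aeval (-X)

theorem sg_X : sg A X = -X := by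
  unfold sg
  exact aeval_X _

theorem sg_C (a : A) : sg A (C a) = C a := by
  unfold sg
  exact aeval_C _ a

theorem sg_Lz (t μ μ' : A) (k : ℕ) : sg A (Lz t μ μ' k) = (-1) ^ k * Lz t μ μ' k := by
  induction k using Nat.twoStepInduction with
  | zero => rw [Lz, sg_C, pow_zero, one_mul]
  | one =>
    rw [Lz, map_mul, sg_C, sg_X]
    ring
  | more k ih0 ih1 =>
    rw [Lz, map_sub, map_sub, map_mul, map_mul, map_mul, map_pow, sg_C, sg_X, ih0, ih1]
    ring

theorem sg_Lop (t μ μ' : A) (P : A[X]) : sg A (Lop t μ μ' P) = Lop t μ μ' (sg A P) := by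
  have h : (sg A).toLinearMap ∘ₗ Lop t μ μ' = Lop t μ μ' ∘ₗ (sg A).toLinearMap := by
    refine (Polynomial.basisMonomials A).ext fun k => ?_
    rw [LinearMap.comp_apply, LinearMap.comp_apply]
    have h1 : ∀ k, Lop t μ μ' ((Polynomial.basisMonomials A) k) = Lz t μ μ' k := fun k =>
      (Polynomial.basisMonomials A).constr_basis A (Lz t μ μ') k
    have h2 : (Polynomial.basisMonomials A) k = X ^ k := by
      rw [Polynomial.coe_basisMonomials, X_pow_eq_monomial]
    have h3 : (sg A).toLinearMap ((Polynomial.basisMonomials A) k) =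
        ((-1 : A) ^ k) • (Polynomial.basisMonomials A) k := by
      rw [h2, AlgHom.toLinearMap_apply, map_pow, sg_X, neg_pow, smul_eq_C_mul]
      simp
    rw [h1, h3, map_smul, h1, AlgHom.toLinearMap_apply, sg_Lz, smul_eq_C_mul]
    simp
  exact LinearMap.congr_fun h P

theorem sg_aeval_Lop (t μ μ' : A) (P W : A[X]) (h : sg A W = W) :
    sg A (aeval (Lop t μ μ') P W) = aeval (Lop t μ μ') P W := by
  induction P using Polynomial.induction_on' with
  | add p q hp hq => rw [map_add, LinearMap.add_apply, map_add, hp, hq]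
  | monomial n a =>
    rw [aeval_monomial, ← Algebra.smul_def, LinearMap.smul_apply, map_smul]
    congr 1
    induction n with
    | zero => exact h
    | succ n ih => rw [pow_succ', Module.End.mul_apply, sg_Lop, ih]

theorem sg_wop (t μ μ' : A) (l : List A[X]) (hl : ∀ P ∈ l, sg A P = P) (b : Bool) :
    sg A (wop t μ μ' b l) = wop t μ μ' b l := by
  induction l generalizing b with
  | nil =>
    cases b <;> rw [wop, map_one]
  | cons P l ih =>
    have h1 := ih (fun P' h' => hl P' (List.mem_cons_of_mem _ h'))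
    cases b
    · rw [wop]
      exact sg_aeval_Lop _ _ _ _ _ (h1 true)
    · rw [wop, map_mul, h1 false, hl P List.mem_cons_self]

theorem inverse_neg (u : A) : Ring.inverse (-u) = -Ring.inverse u := by
  by_cases hu : IsUnit u
  · obtain ⟨v, rfl⟩ := hu
    rw [← Units.val_neg, Ring.inverse_unit, Ring.inverse_unit, ← Units.val_neg, inv_neg]
  · rw [Ring.inverse_non_unit _ hu, Ring.inverse_non_unit _ (fun h => hu (by simpa using h.neg)),
      neg_zero]

variable (Q : QP A) (r : ℕ)

theorem sg_basis (hl : ∀ m, Q.lam (-m) = -Q.lam m) (m : ℤ) :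
    sg A (Q.basis r m) = Q.basis r (-m) := by
  unfold QP.basis
  rw [map_prod]
  refine Finset.prod_equiv (Equiv.neg ℤ) (fun k => ?_) (fun k _ => ?_)
  · simp only [Finset.mem_erase, Finset.mem_Icc, Equiv.neg_apply, ne_eq, neg_inj]
    constructor
    · rintro ⟨h1, h2, h3⟩
      exact ⟨h1, by omega, by omega⟩
    · rintro ⟨h1, h2, h3⟩
      exact ⟨h1, by omega, by omega⟩
  · rw [Equiv.neg_apply, map_mul, map_sub, sg_C, sg_C, sg_X, hl, hl,
      show -Q.lam m - -Q.lam k = -(Q.lam m - Q.lam k) from by ring, inverse_neg, map_neg, map_neg]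
    ring

theorem sg_interp (hl : ∀ m, Q.lam (-m) = -Q.lam m) (g : ℤ → A) (hg : ∀ m, g (-m) = g m) :
    sg A (Q.interp r g) = Q.interp r g := by
  unfold QP.interp
  rw [map_sum]
  refine Finset.sum_equiv (Equiv.neg ℤ) (fun k => ?_) (fun k _ => ?_)
  · simp only [Finset.mem_Icc, Equiv.neg_apply]
    omega
  · rw [Equiv.neg_apply, map_mul, sg_C, sg_basis Q r hl, hg]

theorem fu_neg (m : ℤ) : Q.fu (-m) ^ 2 = Q.fu m ^ 2 := by
  have h1 : Q.i ^ (2 : ℤ) = -1 := by
    ext
    rw [zpow_two]
    exact Q.hi
  have h2 : (Q.i ^ (-m)) ^ 2 = (Q.i ^ m) ^ 2 := by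
    rw [← zpow_natCast, ← zpow_natCast, ← zpow_mul, ← zpow_mul, mul_comm (-m), mul_comm m,
      Nat.cast_ofNat, zpow_mul, zpow_mul, h1, zpow_neg, ← inv_zpow, inv_neg_one]
  unfold QP.fu
  rw [neg_sq, mul_pow, mul_pow, h2]

theorem sg_GP (hl : ∀ m, Q.lam (-m) = -Q.lam m) (a : ℤ) : sg A (GP Q r a) = GP Q r a := by
  refine sg_interp Q r hl _ fun m => ?_
  unfold QP.Gu
  rw [fu_neg]

theorem sg_FP (hl : ∀ m, Q.lam (-m) = -Q.lam m) (e : ℤ) (he : Even e) :
    sg A (FP Q r e) = FP Q r e := by
  refine sg_interp Q r hl _ fun m => ?_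
  obtain ⟨k, rfl⟩ := he
  have h1 : Fu Q r (-m) ^ 2 = Fu Q r m ^ 2 := by
    unfold Fu
    rw [mul_pow, mul_pow, fu_neg]
  have h2 : ∀ u : Aˣ, u ^ (k + k) = (u ^ 2) ^ k := fun u => by
    rw [← two_mul, zpow_mul]
    rfl
  rw [h2, h2, h1]

theorem sg_tpoly (hl : ∀ m, Q.lam (-m) = -Q.lam m) (x : List ℤ) :
    sg A (tpoly Q r (false, x)) = tpoly Q r (false, x) := by
  unfold tpoly
  refine sg_wop _ _ _ _ (fun P hP => ?_) _
  simp only [Bool.false_eq_true, if_false, List.append_nil, List.mem_map] at hP
  obtain ⟨a, _, rfl⟩ := hP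
  exact sg_GP Q r hl a

end Poly

/-! ### Matrices and parities -/

section Mat

variable {A : Type} [CommRing A] {ι T : Type} [Fintype ι] [DecidableEq ι]

theorem pres (M : Matrix ι ι A) (τ : ι → T) (hM : ∀ p c, τ p ≠ τ c → M p c = 0) (P : A[X]) :
    ∀ p c, τ p ≠ τ c → aeval M P p c = 0 := by
  induction P using Polynomial.induction_on' with
  | add p q hp hq =>
    intro a c h
    rw [map_add, Matrix.add_apply, hp a c h, hq a c h, add_zero]
  | monomial n a =>
    intro p c h
    rw [aeval_monomial, ← Algebra.smul_def, Matrix.smul_apply]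
    have h1 : ∀ n : ℕ, ∀ p c, τ p ≠ τ c → (M ^ n) p c = 0 := by
      intro n
      induction n with
      | zero =>
        intro p c h
        rw [pow_zero, Matrix.one_apply_ne]
        rintro rfl
        exact h rfl
      | succ n ih =>
        intro p c h
        rw [pow_succ, Matrix.mul_apply]
        refine Finset.sum_eq_zero fun k _ => ?_
        by_cases h2 : τ p = τ k
        · rw [hM k c (by rw [← h2]; exact h), mul_zero]
        · rw [ih p k h2, zero_mul]
    rw [h1 n p c h, smul_zero]

/-- sign of a boolean -/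
def sb (A : Type) [CommRing A] (b : Bool) : A := if b then -1 else 1

theorem sb_sq (b : Bool) : sb A b * sb A b = 1 := by
  cases b <;> simp [sb]

theorem aeval_neg (M : Matrix ι ι A) (τ : ι → Bool) (hM : ∀ p c, τ p = τ c → M p c = 0)
    (P : A[X]) : ∀ p c, aeval (-M) P p c = sb A (τ p) * sb A (τ c) * aeval M P p c := by
  induction P using Polynomial.induction_on' with
  | add p q hp hq =>
    intro a c
    rw [map_add, map_add, Matrix.add_apply, Matrix.add_apply, hp, hq, mul_add]
  | monomial n a =>
    intro p c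
    rw [aeval_monomial, aeval_monomial, ← Algebra.smul_def, ← Algebra.smul_def,
      Matrix.smul_apply, Matrix.smul_apply]
    have h1 : ∀ n : ℕ, ∀ p c, ((-M) ^ n) p c = sb A (τ p) * sb A (τ c) * (M ^ n) p c := by
      intro n
      induction n with
      | zero =>
        intro p c
        rw [pow_zero, pow_zero]
        by_cases h : p = c
        · rw [h, Matrix.one_apply_eq, sb_sq, one_mul]
        · rw [Matrix.one_apply_ne h, mul_zero]
      | succ n ih =>
        intro p c
        rw [pow_succ, pow_succ, Matrix.mul_apply, Matrix.mul_apply, Finset.mul_sum]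
        refine Finset.sum_congr rfl fun k _ => ?_
        rw [ih, Matrix.neg_apply]
        by_cases h2 : τ k = τ c
        · rw [hM k c h2, neg_zero, mul_zero, mul_zero, mul_zero]
        · have h3 : sb A (τ k) = -sb A (τ c) := by
            revert h2
            generalize τ k = b1
            generalize τ c = b2
            cases b1 <;> cases b2 <;> simp [sb]
          rw [h3]
          ring
    rw [h1, smul_eq_mul, smul_eq_mul]
    ring

theorem even_zero [IsDomain A] [CharZero A] (M : Matrix ι ι A) (τ : ι → Bool)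
    (hM : ∀ p c, τ p = τ c → M p c = 0) (P : A[X]) (hP : sg A P = P) (p c : ι) (h : τ p ≠ τ c) :
    aeval M P p c = 0 := by
  have h1 : aeval M P = aeval (-M) P := by
    conv_lhs => rw [← hP]
    unfold sg
    rw [← Polynomial.aeval_algHom_apply, map_neg, aeval_X]
  have h2 := aeval_neg M τ hM P p c
  rw [← h1] at h2
  have h3 : sb A (τ p) * sb A (τ c) = -1 := by
    revert h
    generalize τ p = b1
    generalize τ c = b2
    cases b1 <;> cases b2 <;> simp [sb]
  rw [h3, neg_one_mul] at h2
  exact self_eq_neg.1 h2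

end Mat

/-! ### The vectors -/

section Vec

variable {A : Type} [CommRing A] (Q : QP A) (r : ℕ)

theorem cup_unit : ∀ (r : ℕ) (x : Lb r), IsUnit (cupv Q r x x.compl)
  | 0, x => by
    rw [cupv]
    exact isUnit_one
  | r + 1, (x, true) => by
    have h := cup_unit r x
    exact h
  | r + 1, (x, false) => by
    have h := cup_unit r x
    have h1 : IsUnit (-(Q.i : A) * Q.qp r) := by
      unfold QP.qp
      exact (Units.isUnit _).neg.mul (Units.isUnit _)
    exact h1.mul h

theorem compl_compl : ∀ {r : ℕ} (x : Lb r), x.compl.compl = x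
  | 0, _ => rfl
  | r + 1, (x, u) => by
    show ((Lb.compl (Lb.compl (r := r) x)), !!u) = (x, u)
    rw [compl_compl, Bool.not_not]

theorem compl_inj {r : ℕ} {x y : Lb r} (h : x.compl = y.compl) : x = y := by
  rw [← compl_compl x, h, compl_compl]

/-- words of even polynomials preserve the parity of the third strand -/
theorem Wv_par (v : Lb r × Lb r × Lb r → A)
    (hv : ∀ a b c : Lb r, c.par = true → v (a, b, c) = 0) (he : EMB_Stmt)
    (l : List A[X]) (hl : ∀ P ∈ l, ∀ p c : Lb r × Lb r, p.2.par ≠ c.2.par →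
      aeval (Im Q r) P p c = 0) (b : Bool) :
    ∀ x y z : Lb r, z.par = true → Wv Q r v b l (x, y, z) = 0 := by
  obtain ⟨-, -, -, -, e5⟩ := he A (Lb r)
  induction l generalizing b with
  | nil =>
    intro x y z hz
    cases b <;> exact hv x y z hz
  | cons P l ih =>
    have ih' := fun b => ih (fun P' h' => hl P' (List.mem_cons_of_mem _ h')) b
    have hP := hl P List.mem_cons_self
    intro x y z hz
    cases b
    · rw [Wv, (e5 (Im Q r) P).2]
      show ∑ t, _ = _
      refine Finset.sum_eq_zero fun t _ => ?_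
      obtain ⟨t1, t2, t3⟩ := t
      by_cases h3 : t3.par = true
      · exact mul_eq_zero_of_right _ (ih' true t1 t2 t3 h3)
      · have h4 : emb23 (aeval (Im Q r) P) (x, y, z) (t1, t2, t3) = 0 := by
          unfold emb23
          split_ifs
          · exact hP (y, z) (t2, t3) (by
              show z.par ≠ t3.par
              rw [hz]
              exact Ne.symm h3)
          · rfl
        exact mul_eq_zero_of_left h4 _
    · rw [Wv, (e5 (Im Q r) P).1]
      show ∑ t, _ = _
      refine Finset.sum_eq_zero fun t _ => ?_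
      obtain ⟨t1, t2, t3⟩ := t
      by_cases h3 : z = t3
      · subst h3
        exact mul_eq_zero_of_right _ (ih' false t1 t2 z hz)
      · have h4 : emb12 (aeval (Im Q r) P) (x, y, z) (t1, t2, t3) = 0 := by
          unfold emb12
          exact if_neg h3
        exact mul_eq_zero_of_left h4 _

theorem Wv_append (v : Lb r × Lb r × Lb r → A) (l l' : List A[X]) (b : Bool) :
    Wv Q r v b (l ++ l') = Wv Q r (Wv Q r v (if Even l.length then b else !b) l') b l := by
  induction l generalizing b with
  | nil => cases b <;> simp [Wv]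
  | cons P l ih =>
    cases b
    · rw [List.cons_append, Wv, Wv, ih]
      congr 2
      by_cases h : Even l.length <;> simp [h, Nat.even_add_one]
    · rw [List.cons_append, Wv, Wv, ih]
      congr 2
      by_cases h : Even l.length <;> simp [h, Nat.even_add_one]

end Vec

end PRT

open PRT in
theorem prt (hb : BRK_Stmt) (he : EMB_Stmt) (hs : SPEC_Stmt) (hf : FC_Stmt) (hp : RPR_Stmt)
    (hc : CUP_Stmt) (hd : DLB_Stmt) (hw : WOP_Stmt) (hl : CLC_Stmt) : PRT_Stmt := by
  intro A _ _ _ Q r hr hg hreg
  have hlam : ∀ m, Q.lam (-m) = -Q.lam m := fun m => by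
    unfold QP.lam
    rw [(hb A Q).2.2.1, mul_neg]
  have hI1 : ∀ p c : Lb r × Lb r, p.1.par = c.1.par → Im Q r p c = 0 := fun p c h =>
    RPR.par_Im Q r p.1 p.2 c.1 c.2 (Or.inl h)
  have hI2 : ∀ p c : Lb r × Lb r, p.2.par = c.2.par → Im Q r p c = 0 := fun p c h =>
    RPR.par_Im Q r p.1 p.2 c.1 c.2 (Or.inr h)
  have hev : ∀ P : A[X], sg A P = P → ∀ p c : Lb r × Lb r,
      (p.1.par ≠ c.1.par ∨ p.2.par ≠ c.2.par) → aeval (Im Q r) P p c = 0 := by
    intro P hP p c h
    rcases h with h | h
    · exact even_zero (Im Q r) (fun p => p.1.par) hI1 P hP p c h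
    · exact even_zero (Im Q r) (fun p => p.2.par) hI2 P hP p c h
  refine ⟨fun x _ => hev _ (sg_tpoly Q r hlam x), fun e he => hev _ (sg_FP Q r hlam e he),
    ?_, ?_, ?_⟩
  · intro e heo p c h
    obtain ⟨k, rfl⟩ := heo
    obtain ⟨s1, s2, -⟩ := hs A Q r hg
    obtain ⟨f1, f2⟩ := hf A Q r hg
    have h1 : aeval (Im Q r) (FP Q r (2 * k + 1)) = aeval (Im Q r)
        (FP Q r (2 * k) * (C (((Q.fu r)⁻¹ : Aˣ) : A) * Q.interp r fun m => (Q.fu m : A))) := by
      refine f2 _ _ s1 _ _ fun m hm => ?_
      rw [eval_mul, eval_mul, eval_C]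
      unfold FP
      rw [f1 _ m hm, f1 _ m hm, f1 _ m hm, zpow_add, zpow_one, Units.val_mul]
      congr 1
      unfold Fu
      rw [Units.val_mul, mul_comm]
    rw [h1, map_mul, map_mul, aeval_C, s2, ← Algebra.smul_def, Matrix.mul_apply]
    refine Finset.sum_eq_zero fun t _ => ?_
    by_cases h2 : p.1.par ≠ t.1.par ∨ p.2.par ≠ t.2.par
    · rw [hev _ (sg_FP Q r hlam (2 * k) (even_two_mul k)) p t h2, zero_mul]
    · push Not at h2
      have h3 : Rm Q r t c = 0 := (((hp A Q r).2.1 t.1 t.2 c.1 c.2) (by
        rw [← h2.1, ← h2.2]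
        exact h)).1
      rw [Matrix.smul_apply, h3, smul_zero, mul_zero]
  · intro P
    refine pres (Im Q r) (fun p => xor p.1.par p.2.par) (fun p c h => ?_) P
    by_cases h1 : p.1.par = c.1.par
    · exact hI1 p c h1
    · refine hI2 p c ?_
      revert h h1
      generalize p.1.par = b1
      generalize p.2.par = b2
      generalize c.1.par = b3
      generalize c.2.par = b4
      cases b1 <;> cases b2 <;> cases b3 <;> cases b4 <;> simp
  · intro x hx p c h1 h2
    obtain ⟨c1, c2, c3, c4, c5⟩ := hc A Q r hr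
    obtain ⟨d1, d2⟩ := hd A Q r hg hreg
    obtain ⟨l1, l2⟩ := hl A Q r hr hg hreg
    obtain ⟨-, -, -, -, e5⟩ := he A (Lb r)
    have hdlt : dlt Q r ≠ 0 := by
      intro h0
      rw [h0] at l2
      simp at l2
    obtain ⟨x0, x1⟩ := p
    obtain ⟨a, b⟩ := c
    have ha : a.par = false := h1
    have hbp : b.par = true := h2
    -- the vector
    set φ : Lb r → A := fun t => if t = a then 1 else 0 with hφ
    have hw1 := hw A Q r hg hreg φ (x.reverse.map (GP Q r) ++ [Q.basis r r])
    have hw2 : wop Q.two (Q.lam r) (Q.lam (r - 1)) false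
        (x.reverse.map (GP Q r) ++ [Q.basis r r]) = tpoly Q r (true, x) := by
      unfold tpoly
      rw [if_pos rfl]
    rw [hw2, Wv_append, List.length_map, List.length_reverse,
      if_neg (Nat.not_even_iff_odd.2 hx)] at hw1
    -- the start vector
    set v : Lb r × Lb r × Lb r → A := Wv Q r (Omf Q r φ) (!false) [Q.basis r r] with hv
    have hv2 : ∀ y0 y1 y2 : Lb r, dlt Q r * v (y0, y1, y2) = cupv Q r y0 y1 * φ y2 := by
      intro y0 y1 y2
      have h3 : v (y0, y1, y2) = ∑ s, ∑ t,
          aeval (Im Q r) (Q.basis r r) (y0, y1) (s, t) * (φ s * cupv Q r t y2) := by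
        rw [hv]
        show Wv Q r (Omf Q r φ) true [Q.basis r r] (y0, y1, y2) = _
        rw [Wv, (e5 (Im Q r) _).1, Wv]
        show ∑ t, _ = _
        rw [Fintype.sum_prod_type]
        refine Finset.sum_congr rfl fun s _ => ?_
        rw [Fintype.sum_prod_type]
        refine Finset.sum_congr rfl fun t _ => ?_
        rw [Finset.sum_eq_single y2]
        · unfold emb12 Omf
          simp
        · intro k _ hk
          unfold emb12
          simp [Ne.symm hk]
        · simp
      rw [h3, Finset.mul_sum, Finset.sum_eq_single a]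
      · rw [Finset.mul_sum]
        have h4 : ∀ t, dlt Q r * ((aeval (Im Q r) (Q.basis r r)) (y0, y1) (a, t) *
            (φ a * cupv Q r t y2)) = cupv Q r y0 y1 * (capv Q r a t * cupv Q r t y2) := by
          intro t
          rw [← mul_assoc, d2 (y0, y1) (a, t)]
          simp only [hφ, if_true, one_mul]
          ring
        simp only [h4]
        rw [← Finset.mul_sum, c4 a y2 ha]
      · intro s _ hs
        rw [Finset.sum_eq_zero, mul_zero]
        intro t _
        simp [hφ, hs]
      · simp
    have hv3 : ∀ y0 y1 y2 : Lb r, y2.par = true → v (y0, y1, y2) = 0 := by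
      intro y0 y1 y2 h3
      have h4 := hv2 y0 y1 y2
      have h5 : φ y2 = 0 := by
        rw [hφ]
        simp only
        rw [if_neg]
        rintro rfl
        rw [ha] at h3
        exact absurd h3 (by decide)
      rw [h5, mul_zero] at h4
      exact (mul_eq_zero.1 h4).resolve_left hdlt
    have h6 := Wv_par Q r v hv3 he (x.reverse.map (GP Q r)) (fun P hP p c h => by
      rw [List.mem_map] at hP
      obtain ⟨a', _, rfl⟩ := hP
      exact hev _ (sg_GP Q r hlam a') p c (Or.inr h)) false x0 x1 b.compl (by rw [c5, hbp])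
    rw [hw1, (e5 (Im Q r) _).1] at h6
    have h7 : (emb12 (aeval (Im Q r) (tpoly Q r (true, x))) *ᵥ Omf Q r φ) (x0, x1, b.compl) =
        aeval (Im Q r) (tpoly Q r (true, x)) (x0, x1) (a, b) * cupv Q r b b.compl := by
      show ∑ t, _ = _
      rw [Fintype.sum_prod_type, Finset.sum_eq_single a]
      · rw [Fintype.sum_prod_type, Finset.sum_eq_single b]
        · rw [Finset.sum_eq_single b.compl]
          · unfold emb12 Omf
            simp [hφ]
          · intro k _ hk
            unfold emb12
            simp [Ne.symm hk]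
          · simp
        · intro t _ ht
          refine Finset.sum_eq_zero fun k _ => ?_
          by_cases hk : k = b.compl
          · have h8 : cupv Q r t k = 0 := by
              refine (c1 t k ?_).1
              rw [hk]
              intro h9
              exact ht (compl_inj h9).symm
            unfold Omf
            simp [h8]
          · unfold emb12
            simp [Ne.symm hk]
        · simp
      · intro s _ hs
        refine Finset.sum_eq_zero fun t _ => ?_
        unfold Omf
        simp [hφ, hs]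
      · simp
    rw [h7] at h6
    exact ((cup_unit Q r b).mul_left_eq_zero).1 h6

end Pool.Agent.MT
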