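import Pool.Agent.MT.Stmts
import Pool.Agent.TB.Val

/-!
TF: the functor on a tangle with the flag `false`.
-/

open Polynomial
open scoped BigOperators Matrix

namespace Pool.Agent.MT

open Pool.Agent.LibH11.Sliced Pool.Agent.TB

namespace TF

/-! ### Lengths of lists -/

section Len

set_option linter.unusedSectionVars false

variable {A S : Type} [CommRing A] [Fintype S] [DecidableEq S] (T : TData A S)

theorem ap_cup_len (i : ℕ) : ∀ (ψ : List S → A) (P P' : ℕ → Prop), (∀ k, P' (k + 2) → P k) →
    (∀ l, P l.length → ψ l = 0) → ∀ l, P' l.length → T.ap .cup i ψ l = 0 := by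
  induction i with
  | zero =>
    intro ψ P P' h H l hl
    match l, hl with
    | [], _ => rfl
    | [_], _ => rfl
    | x :: y :: l, hl =>
      show T.cup x y * ψ l = 0
      rw [H l (h _ hl), mul_zero]
  | succ i ih =>
    intro ψ P P' h H l hl
    match l, hl with
    | [], _ => rfl
    | a :: l, hl =>
      exact ih (fun l' => ψ (a :: l')) (fun k => P (k + 1)) (fun k => P' (k + 1))
        (fun k hk => h (k + 1) hk) (fun l' hl' => H (a :: l') hl') l hl

theorem ap_crs_len (e : Bool) (i : ℕ) : ∀ (ψ : List S → A) (P : ℕ → Prop),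
    (∀ l, P l.length → ψ l = 0) → ∀ l, P l.length → T.ap (.crs e) i ψ l = 0 := by
  induction i with
  | zero =>
    intro ψ P H l hl
    match l, hl with
    | [], _ => rfl
    | [_], _ => rfl
    | x :: y :: l, hl =>
      show ∑ a, ∑ b, T.R e x y a b * ψ (a :: b :: l) = 0
      refine Finset.sum_eq_zero fun a _ => Finset.sum_eq_zero fun b _ => ?_
      rw [H (a :: b :: l) hl, mul_zero]
  | succ i ih =>
    intro ψ P H l hl
    match l, hl with
    | [], _ => rfl
    | a :: l, hl =>
      exact ih (fun l' => ψ (a :: l')) (fun k => P (k + 1))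
        (fun l' hl' => H (a :: l') hl') l hl

theorem ap_cap_len (i : ℕ) : ∀ (ψ : List S → A) (P P' : ℕ → Prop), (∀ k, P' k → P (k + 2)) →
    (∀ l, P l.length → ψ l = 0) → ∀ l, P' l.length → T.ap .cap i ψ l = 0 := by
  induction i with
  | zero =>
    intro ψ P P' h H l hl
    show ∑ a, ∑ b, T.cap a b * ψ (a :: b :: l) = 0
    refine Finset.sum_eq_zero fun a _ => Finset.sum_eq_zero fun b _ => ?_
    rw [H (a :: b :: l) (h _ hl), mul_zero]
  | succ i ih =>
    intro ψ P P' h H l hl
    match l, hl with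
    | [], _ => rfl
    | a :: l, hl =>
      exact ih (fun l' => ψ (a :: l')) (fun k => P (k + 1)) (fun k => P' (k + 1))
        (fun k hk => h (k + 1) hk) (fun l' hl' => H (a :: l') hl') l hl

theorem st_crs_len (w : Diag) (hw : ∀ c ∈ w, ∃ e, c.1 = Kind.crs e) :
    ∀ (ψ : List S → A) (P : ℕ → Prop), (∀ l, P l.length → ψ l = 0) →
      ∀ l, P l.length → T.st w ψ l = 0 := by
  induction w with
  | nil => intro ψ P H l hl; exact H l hl
  | cons c w ih =>
    intro ψ P H l hl
    obtain ⟨k, i⟩ := c
    obtain ⟨e, he⟩ := hw (k, i) List.mem_cons_self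
    have he' : k = Kind.crs e := he
    subst he'
    exact ih (fun c hc => hw c (List.mem_cons_of_mem _ hc)) _ P
      (ap_crs_len T e i ψ P H) l hl

end Len

theorem twd_crs : ∀ (x : List ℤ) (p : ℕ), ∀ c ∈ twd p x, ∃ e, c.1 = Kind.crs e
  | [], _, c, hc => by simp [twd] at hc
  | a :: l, p, c, hc => by
    rw [twd, List.mem_append] at hc
    rcases hc with hc | hc
    · rw [tw, List.mem_replicate] at hc
      exact ⟨_, by rw [hc.2]⟩
    · exact twd_crs l (1 - p) c hc

end TF

open TF in
theorem tf (he : EMB_Stmt) (hc : CUP_Stmt) (h1 : TWD_Stmt) (h2 : WOP_Stmt) (h3 : PRT_Stmt) :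
    TF_Stmt := by
  intro A _ _ _ Q r hr hG hR x hx ψ g v hψ
  obtain ⟨hc1, hc2, hc3, hc4, hc5⟩ := hc A Q r hr
  have hP : tpoly Q r (false, x) =
      wop Q.two (Q.lam r) (Q.lam (r - 1)) false (x.reverse.map (GP Q r)) := by
    simp [tpoly]
  generalize tpoly Q r (false, x) = P at hP
  have hpar := (h3 A Q r hr hG hR).1 x hx
  have hP' : tpoly Q r (false, x) =
      wop Q.two (Q.lam r) (Q.lam (r - 1)) false (x.reverse.map (GP Q r)) := by
    simp [tpoly]
  rw [hP', ← hP] at hpar
  have hemb : aeval (emb12 (Im Q r)) P = emb12 (aeval (Im Q r) P) :=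
    ((he A (Lb r)).2.2.2.2 (Im Q r) P).1
  have hst : (tdata Q r).st (tgd (false, x)) ψ =
      (tdata Q r).ap .cap 2 ((tdata Q r).st (twd 0 x) ((tdata Q r).ap .cup 1 ψ)) := by
    show (tdata Q r).st ((Kind.cup, 1) :: (twd 0 x ++ [(Kind.cap, 2)])) ψ = _
    rw [TData.st, VAL.st_append]
    rfl
  rw [hst]
  set ψ1 := (tdata Q r).ap .cup 1 ψ with hψ1
  set Φ := (tdata Q r).st (twd 0 x) ψ1 with hΦ
  have hval : ∀ a b c d e : SL r, Φ [a, b, c, d, e] =
      (if a.2 = b.2 then ((tht Q r ^ (2 * evs x) : Aˣ) : A) else 1) *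
      (if b.2 ≠ c.2 then g a.2 d.2 e.2 else 0) *
      ∑ a', ∑ b', (aeval (Im Q r) P) (a.1.1, b.1.1) (a', b') *
        (v (a', d.1.1, e.1.1) * cupv Q r b' c.1.1) := by
    intro a b c d e
    have h4 := h1 A Q r hr hG 0 x (Or.inl ⟨rfl, hx⟩) ψ1 [d, e]
      (fun o1 o2 o3 => if o2 ≠ o3 then g o1 d.2 e.2 else 0)
      (Omf Q r (fun a' => v (a', d.1.1, e.1.1))) (by
        intro a b c
        show (tdata Q r).cup b c * ψ [a, d, e] = _
        rw [hψ.2]
        by_cases hbc : b.2 = c.2
        · simp [tdata, hbc]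
        · simp only [tdata, ne_eq, hbc, not_false_eq_true, if_true, Omf]
          ring) a b c
    rw [hΦ, h4, h2 A Q r hG hR, ← hP, hemb, VAL.emb12_mulVec]
    by_cases hbc : b.2 = c.2
    · simp [hbc]
    · simp only [if_true, hbc, ne_eq, if_false, mul_one, not_false_eq_true, Omf]
  refine ⟨?_, ?_⟩
  · have e1 := ap_cup_len (tdata Q r) 1 ψ (fun k => k ≠ 3) (fun k => k ≠ 5)
      (fun k hk => by omega) hψ.1
    have e2 := st_crs_len (tdata Q r) (twd 0 x) (twd_crs x 0) ψ1 (fun k => k ≠ 5) e1
    exact ap_cap_len (tdata Q r) 2 Φ (fun k => k ≠ 5) (fun k => k ≠ 3)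
      (fun k hk => by omega) e2
  · intro a b e
    have h5 : (tdata Q r).ap .cap 2 Φ [a, b, e] =
        ∑ c, ∑ d, (tdata Q r).cap c d * Φ [a, b, c, d, e] := rfl
    rw [h5]
    simp only [hval]
    rw [hemb, VAL.emb12_mulVec]
    set th := (if a.2 = b.2 then ((tht Q r ^ (2 * evs x) : Aˣ) : A) else 1) with hth
    -- the sum over orientations
    have h6 : ∀ c : Ev r, ∑ o : Bool, ∑ d : SL r, (tdata Q r).cap (c, o) d *
        (th * (if b.2 ≠ (c, o).2 then g a.2 d.2 e.2 else 0) *
          ∑ a', ∑ b', (aeval (Im Q r) P) (a.1.1, b.1.1) (a', b') *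
            (v (a', d.1.1, e.1.1) * cupv Q r b' (c, o).1.1)) =
        th * g a.2 b.2 e.2 * ∑ d : Ev r, capv Q r c.1 d.1 *
          ∑ a', ∑ b', (aeval (Im Q r) P) (a.1.1, b.1.1) (a', b') *
            (v (a', d.1, e.1.1) * cupv Q r b' c.1) := by
      intro c
      rw [Fintype.sum_bool, Fintype.sum_prod_type, Fintype.sum_prod_type,
        ← Finset.sum_add_distrib, Finset.mul_sum]
      refine Finset.sum_congr rfl fun d _ => ?_
      rw [Fintype.sum_bool, Fintype.sum_bool]
      cases hb : b.2 <;> simp [tdata] <;> ring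
    rw [Fintype.sum_prod_type]
    simp only [h6]
    rw [← Finset.mul_sum]
    congr 1
    -- the labels
    rw [Finset.sum_comm]
    have h7 : ∀ d : Ev r, ∑ c : Ev r, capv Q r c.1 d.1 *
          ∑ a', ∑ b', (aeval (Im Q r) P) (a.1.1, b.1.1) (a', b') *
            (v (a', d.1, e.1.1) * cupv Q r b' c.1) =
        ∑ a', (aeval (Im Q r) P) (a.1.1, b.1.1) (a', d.1) * v (a', d.1, e.1.1) := by
      intro d
      simp only [Finset.mul_sum]
      rw [Finset.sum_comm]
      refine Finset.sum_congr rfl fun a' _ => ?_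
      rw [Finset.sum_comm]
      have h8 : ∀ b' : Lb r, ∑ c : Ev r, capv Q r c.1 d.1 *
          ((aeval (Im Q r) P) (a.1.1, b.1.1) (a', b') *
            (v (a', d.1, e.1.1) * cupv Q r b' c.1)) =
          if b' = d.1 then
            (aeval (Im Q r) P) (a.1.1, b.1.1) (a', b') * v (a', d.1, e.1.1) else 0 := by
        intro b'
        have h9 : ∀ c : Ev r, capv Q r c.1 d.1 *
          ((aeval (Im Q r) P) (a.1.1, b.1.1) (a', b') *
            (v (a', d.1, e.1.1) * cupv Q r b' c.1)) =
            (aeval (Im Q r) P) (a.1.1, b.1.1) (a', b') * v (a', d.1, e.1.1) *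
              (cupv Q r b' c.1 * capv Q r c.1 d.1) := by
          intro c; ring
        simp only [h9, ← Finset.mul_sum]
        cases hb' : b'.par
        · have h10 : ∑ c : Ev r, cupv Q r b' c.1 * capv Q r c.1 d.1 =
              ∑ c : Lb r, cupv Q r b' c * capv Q r c d.1 := by
            refine VAL.sum_Ev r (fun c => cupv Q r b' c * capv Q r c d.1) ?_
            intro c hc'
            have h11 : c ≠ b'.compl := by
              intro h
              rw [h, hc5, hb'] at hc'
              exact Bool.noConfusion hc'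
            rw [(hc1 b' c h11).1, zero_mul]
          rw [h10, hc3 b' d.1 hb']
          split_ifs <;> simp
        · have h10 : ∑ c : Ev r, cupv Q r b' c.1 * capv Q r c.1 d.1 = 0 := by
            refine Finset.sum_eq_zero fun c _ => ?_
            have h11 : c.1 ≠ b'.compl := by
              intro h
              have h12 := c.2
              rw [h, hc5, hb'] at h12
              exact Bool.noConfusion h12
            rw [(hc1 b' c.1 h11).1, zero_mul]
          rw [h10, mul_zero, if_neg]
          intro h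
          have h12 := d.2
          rw [← h, hb'] at h12
          exact Bool.noConfusion h12
      simp only [h8]
      rw [Finset.sum_ite_eq' Finset.univ d.1]
      simp
    simp only [h7]
    rw [Finset.sum_comm]
    refine Finset.sum_congr rfl fun a' _ => ?_
    refine VAL.sum_Ev r (fun d => (aeval (Im Q r) P) (a.1.1, b.1.1) (a', d) *
      v (a', d, e.1.1)) ?_
    intro d hd
    have h13 := hpar (a.1.1, b.1.1) (a', d) (Or.inr (by
      show b.1.1.par ≠ d.par
      rw [b.1.2, hd]
      simp))
    rw [h13, zero_mul]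

end Pool.Agent.MT
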