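import Pool.Agent.MT.Stmts
import Pool.Agent.TB.Fc

/-!
TMA: the universal values over the dual numbers.
-/

open Polynomial
open scoped BigOperators

namespace Pool.Agent.MT

open Pool.Agent.LibH11.Sliced Pool.Agent.TB

namespace TMA

theorem cc_le (n : ℕ) [NeZero n] (u : ZMod (2 * n)) : cc n u ≤ n := by
  have h := ZMod.natAbs_valMinAbs_le u
  unfold cc
  have : 2 * n / 2 = n := by omega
  rw [this] at h
  exact_mod_cast h

theorem cc_nonneg (n : ℕ) [NeZero n] (u : ZMod (2 * n)) : 0 ≤ cc n u := by
  unfold cc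
  exact Int.natCast_nonneg _

theorem mem_Icc {n r : ℕ} [NeZero n] (hn : n = 2 * r) (u : ZMod (2 * n)) :
    (r : ℤ) - cc n u ∈ Finset.Icc (-(r : ℤ)) r := by
  have h1 := cc_le n u
  have h2 := cc_nonneg n u
  rw [Finset.mem_Icc]
  have h3 : (n : ℤ) = 2 * r := by exact_mod_cast hn
  constructor <;> omega

/-- the sum over `ℤ/2n` as a sum over representatives -/
theorem sum_zmod {M : Type} [AddCommMonoid M] (N : ℕ) [NeZero N] (f : ZMod N → M) :
    ∑ u : ZMod N, f u = ∑ k ∈ Finset.range N, f (k : ZMod N) := by
  symm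
  refine Finset.sum_bij (fun k _ => ((k : ℕ) : ZMod N)) (fun _ _ => Finset.mem_univ _) ?_ ?_
    (fun _ _ => rfl)
  · intro a ha b hb hab
    rw [Finset.mem_range] at ha hb
    have h := congrArg ZMod.val hab
    simpa [ZMod.val_natCast, Nat.mod_eq_of_lt ha, Nat.mod_eq_of_lt hb] using h
  · intro u _
    exact ⟨u.val, Finset.mem_range.mpr (ZMod.val_lt u), ZMod.natCast_zmod_val u⟩

theorem sum_even_odd {M : Type} [AddCommMonoid M] (m : ℕ) (g : ℕ → M) :
    ∑ k ∈ Finset.range (2 * m), g k =
      ∑ w ∈ Finset.range m, g (2 * w) + ∑ w ∈ Finset.range m, g (2 * w + 1) := by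
  induction m with
  | zero => simp
  | succ m ih =>
    have h : 2 * (m + 1) = 2 * m + 1 + 1 := by ring
    rw [h, Finset.sum_range_succ, Finset.sum_range_succ, ih, Finset.sum_range_succ,
      Finset.sum_range_succ]
    abel

theorem sum_split {M : Type} [AddCommMonoid M] (n : ℕ) [NeZero n] (f : ZMod (2 * n) → M) :
    ∑ u : ZMod (2 * n), f u = ∑ w ∈ Finset.range n, f ((2 * w : ℕ) : ZMod (2 * n)) +
      ∑ w ∈ Finset.range n, f ((2 * w + 1 : ℕ) : ZMod (2 * n)) := by
  have : NeZero (2 * n) := ⟨by have := NeZero.ne n; omega⟩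
  rw [sum_zmod, sum_even_odd]

/-- an antiperiodic sum vanishes -/
theorem sum_anti {M : Type} [AddCommGroup M] (r : ℕ) (h : ℕ → M)
    (hh : ∀ w, h (r + w) = - h w) : ∑ w ∈ Finset.range (2 * r), h w = 0 := by
  rw [two_mul, Finset.sum_range_add]
  simp only [hh, Finset.sum_neg_distrib, add_neg_cancel]

theorem om_inv (x : ℂ) : (1 - TrivSqZeroExt.inr x : DualNumber ℂ) * (1 + TrivSqZeroExt.inr x) = 1 := by
  ext <;> simp

theorem om_pow (x : ℂ) (N : ℕ) : (1 + TrivSqZeroExt.inr x : DualNumber ℂ) ^ N =
    1 + TrivSqZeroExt.inr ((N : ℂ) * x) := by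
  induction N with
  | zero => simp
  | succ N ih =>
    rw [pow_succ, ih]
    ext
    · simp
    · simp
      ring

/-- `ω² ω^(-N)` -/
theorem om_final (x : ℂ) (N : ℕ) : (1 - TrivSqZeroExt.inr x : DualNumber ℂ) ^ 2 *
    (1 + TrivSqZeroExt.inr x) ^ N = 1 + TrivSqZeroExt.inr (((N : ℂ) - 2) * x) := by
  rw [om_pow]
  ext
  · simp
  · simp [pow_two]
    ring

end TMA

open TMA

theorem tma (hf : FC_Stmt) (hg : GRT_Stmt) (h1 : TMC_Stmt) (h2 : TMP_Stmt) (h3 : TMF_Stmt)
    (h4 : TMS_Stmt) : TMA_Stmt := by
  intro n r _ ι hn hr hι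
  have hn0 : n ≠ 0 := NeZero.ne n
  have hr0 : 0 < r := by omega
  have hcop : IsCoprime ι (4 * r : ℤ) := by
    have : (4 * r : ℤ) = 2 * n := by
      rw [hn]
      push_cast
      ring
    rw [this]
    exact hι
  have hGen : (QD (sz n ι)).Gen r := by
    have := (hg r ι hr0 hcop).2
    subst hn
    exact this
  set Q := QD (sz n ι) with hQ
  have hint : ∀ (g : ℤ → DualNumber ℂ) (u : ZMod (2 * n)),
      (Q.interp r g).eval (Q.lam (r - cc n u)) = g (r - cc n u) :=
    fun g u => (hf (DualNumber ℂ) Q r hGen).1 g _ (mem_Icc hn u)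
  obtain ⟨h3a, h3b⟩ := h3 n r ι hn hr hι
  have hne : Even n := ⟨r, by omega⟩
  obtain ⟨h4a, h4b, h4c⟩ := h4 n ι hne hι
  constructor
  · intro ts e hPF
    unfold Mval
    rw [h1 n r ι hn hr hι, ← hQ, mul_assoc]
    congr 1
    -- the value of the product of the polynomials of the tangles
    have hprod : ∀ (u : ZMod (2 * n)) (l : List (Bool × List ℤ)), (∀ t ∈ l, t ∈ ts) →
        ((l.map (tpoly Q r)).prod).eval (Q.lam (r - cc n u)) =
          (1 - TrivSqZeroExt.inr (Th n ι 1 0)) ^ ntr l * (1 + TrivSqZeroExt.inr (Th n ι 1 u)) ^ l.length *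
            (l.map fun t => du n (vt n ι t) u).prod := by
      intro u l
      induction l with
      | nil => intro _; simp [ntr]
      | cons t l ih =>
        intro hl
        have ht : t ∈ ts := hl t List.mem_cons_self
        have ih' := ih fun t' ht' => hl t' (List.mem_cons_of_mem _ ht')
        have hP := h2 n r ι hn hr hι t (hPF.1 t ht) (hPF.2.1 t ht) u
        rw [← hQ] at hP
        have hP' : (tpoly Q r t).eval (Q.lam (r - cc n u)) =
            (if t.1 then 1 - TrivSqZeroExt.inr (Th n ι 1 0) else 1) * du n (vt n ι t) u *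
              (1 + TrivSqZeroExt.inr (Th n ι 1 u)) := by
          rw [← hP, mul_assoc, om_inv, mul_one]
        rw [List.map_cons, List.prod_cons, eval_mul, ih', hP', List.map_cons, List.prod_cons,
          List.length_cons, pow_succ]
        have hn' : ntr (t :: l) = ntr l + if t.1 then 1 else 0 := by
          unfold ntr
          rw [List.countP_cons]
        rw [hn']
        by_cases hb : t.1 = true
        · rw [if_pos hb, if_pos hb, pow_succ]
          ring
        · rw [if_neg hb, if_neg hb, add_zero]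
          ring
    -- the summand
    have hsum : ∀ u : ZMod (2 * n),
        (FP Q r e * (ts.map (tpoly Q r)).prod).eval (Q.lam (r - cc n u)) *
          (1 - TrivSqZeroExt.inr (Th n ι 1 u)) ^ 2 =
        (1 - TrivSqZeroExt.inr (Th n ι 1 0)) ^ ntr ts *
          (((Fu Q r (r - cc n u) ^ e : (DualNumber ℂ)ˣ) : DualNumber ℂ) *
            (1 + TrivSqZeroExt.inr (((ts.length : ℂ) - 2) * Th n ι 1 u)) *
            (ts.map fun t => du n (vt n ι t) u).prod) := by
      intro u
      rw [eval_mul, hprod u ts fun _ h => h, ← om_final]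
      have : (FP Q r e).eval (Q.lam (r - cc n u)) =
          ((Fu Q r (r - cc n u) ^ e : (DualNumber ℂ)ˣ) : DualNumber ℂ) := by
        unfold FP
        exact hint _ u
      rw [this]
      ring
    simp only [hsum]
    rw [← Finset.mul_sum]
    congr 1
    rw [sum_split]
    have hodd : ∑ w ∈ Finset.range n,
        (((Fu Q r (r - cc n ((2 * w + 1 : ℕ) : ZMod (2 * n))) ^ e : (DualNumber ℂ)ˣ) :
            DualNumber ℂ) *
          (1 + TrivSqZeroExt.inr (((ts.length : ℂ) - 2) *
            Th n ι 1 ((2 * w + 1 : ℕ) : ZMod (2 * n)))) *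
          (ts.map fun t => du n (vt n ι t) ((2 * w + 1 : ℕ) : ZMod (2 * n))).prod) = 0 := by
      rcases hPF.2.2 with ⟨hz, he⟩ | ⟨hz, he⟩
      · -- no flag
        have hr2 : Finset.range n = Finset.range (2 * r) := by rw [hn]
        rw [hr2]
        refine sum_anti r _ fun w => ?_
        have hcast : ((2 * (r + w) + 1 : ℕ) : ZMod (2 * n)) =
            ((2 * w + 1 : ℕ) : ZMod (2 * n)) + (n : ℕ) := by
          rw [hn]
          push_cast
          ring
        rw [hcast, h3b w, h4a, Odd.neg_zpow he]
        have hl : (ts.map fun t => du n (vt n ι t) (((2 * w + 1 : ℕ) : ZMod (2 * n)) + (n : ℕ))) =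
            ts.map fun t => du n (vt n ι t) ((2 * w + 1 : ℕ) : ZMod (2 * n)) := by
          refine List.map_congr_left fun t ht => ?_
          have htf : t.1 = false := by
            unfold ntr at hz
            rw [List.countP_eq_zero] at hz
            have := hz t ht
            simpa using this
          rcases t with ⟨b, x⟩
          simp only at htf
          subst htf
          exact h4b x _
        rw [hl]
        push_cast
        ring
      · refine Finset.sum_eq_zero fun w _ => ?_
        have hex : ∃ t ∈ ts, t.1 = true := by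
          have : 0 < ts.countP fun t => t.1 := by
            unfold ntr at hz
            omega
          rw [List.countP_pos_iff] at this
          exact this
        obtain ⟨t, ht, htt⟩ := hex
        have h0 : du n (vt n ι t) ((2 * w + 1 : ℕ) : ZMod (2 * n)) = 0 := by
          rcases t with ⟨b, x⟩
          simp only at htt
          subst htt
          exact h4c x w
        have h00 : (ts.map fun t => du n (vt n ι t) ((2 * w + 1 : ℕ) : ZMod (2 * n))).prod = 0 :=
          List.prod_eq_zero (List.mem_map.mpr ⟨t, ht, h0⟩)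
        rw [h00, mul_zero]
    rw [hodd, add_zero]
    unfold Mt
    refine Finset.sum_congr rfl fun w _ => ?_
    rw [h3a w e]
  · rw [h1 n r ι hn hr hι, ← hQ]
    congr 1
    have hb : ∀ u : ZMod (2 * n), (Q.basis r r).eval (Q.lam (r - cc n u)) =
        if u = 0 then 1 else 0 := by
      intro u
      have hrm : (r : ℤ) ∈ Finset.Icc (-(r : ℤ)) r := by
        rw [Finset.mem_Icc]
        constructor <;> omega
      have hcc : (r : ℤ) - cc n u = r ↔ u = 0 := by
        constructor
        · intro h
          have h0 : cc n u = 0 := by omega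
          unfold cc at h0
          have h1 : u.valMinAbs = 0 := by
            have : u.valMinAbs.natAbs = 0 := by exact_mod_cast h0
            exact Int.natAbs_eq_zero.mp this
          exact (ZMod.valMinAbs_eq_zero u).mp h1
        · rintro rfl
          have : cc n 0 = 0 := by simp [cc]
          rw [this, sub_zero]
      by_cases hu : u = 0
      · rw [if_pos hu, hcc.mpr hu]
        exact FC.eval_basis_self Q hGen hrm
      · rw [if_neg hu]
        exact FC.eval_basis_ne Q (mem_Icc hn u) fun h => hu (hcc.mp h)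
    simp only [hb, ite_mul, one_mul, zero_mul]
    rw [Finset.sum_ite_eq' Finset.univ (0 : ZMod (2 * n))]
    simp

end Pool.Agent.MT
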