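import Pool.Agent.MT.Stmts
import Pool.Agent.TB.Tor
import Pool.Agent.TB.The

/-!
TMC: the closure in the model at a root of unity.
-/

open Polynomial
open scoped BigOperators Real

namespace Pool.Agent.MT

open Pool.Agent.TB

namespace TMC

/-- The first operator of the model: `(1 - η Θ) L (1 + η Θ)`. -/
noncomputable def I1o (n r : ℕ) [NeZero n] (ι : ℤ) :
    Module.End (DualNumber ℂ) (ZMod (2 * n) → DualNumber ℂ) :=
  lift2 n 1 (-(Th n ι)) *
    lift2 n (cono n ι fun u => ((QD (sz n ι)).lam (r - cc n u)).fst)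
      (cono n ι fun u => ((QD (sz n ι)).lam (r - cc n u)).snd) *
    lift2 n 1 (Th n ι)

/-- The second operator of the model: multiplication by `λ_(r - c(u))`. -/
noncomputable def I2o (n r : ℕ) [NeZero n] (ι : ℤ) :
    Module.End (DualNumber ℂ) (ZMod (2 * n) → DualNumber ℂ) :=
  lift2 n (mulo n fun u => ((QD (sz n ι)).lam (r - cc n u)).fst)
    (mulo n fun u => ((QD (sz n ι)).lam (r - cc n u)).snd)

/-- The cyclic vector `1 - η Θ 1`. -/
noncomputable def Omo (n : ℕ) [NeZero n] (ι : ℤ) : ZMod (2 * n) → DualNumber ℂ :=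
  TOR.mk n 1 (-(Th n ι 1))

open TOR in
/-- The hypotheses of UNV are satisfied in the model (see TB/Tor.lean). -/
theorem model (hb : BRK_Stmt) (hz : ZT_Stmt) (hg : GRT_Stmt)
    (hl : LFT_Stmt) (he : EIG_Stmt) (hn : NN_Stmt) (hm : MU_Stmt) (ht : THE_Stmt)
    (n r : ℕ) [NeZero n] (ι : ℤ) (hnr : n = 2 * r) (hr : Even r) (hι : IsCoprime ι (2 * n : ℤ)) :
    (QD (sz n ι)).Gen r ∧
    lift2 n 1 (Th n ι) * lift2 n 1 (-(Th n ι)) = 1 ∧
    lift2 n 1 (-(Th n ι)) * lift2 n 1 (Th n ι) = 1 ∧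
    (∀ F u, I2o n r ι F u = (QD (sz n ι)).lam (r - cc n u) * F u) ∧
    I1o n r ι (Omo n ι) = (QD (sz n ι)).lam r • Omo n ι ∧
    I1o n r ι (I2o n r ι (Omo n ι)) = (QD (sz n ι)).lam (r - 1) • I2o n r ι (Omo n ι) ∧
    (∀ k : ℕ, I1o n r ι ((I2o n r ι ^ (k + 2)) (Omo n ι)) =
      (QD (sz n ι)).two • I2o n r ι (I1o n r ι ((I2o n r ι ^ (k + 1)) (Omo n ι))) -
        I2o n r ι (I2o n r ι (I1o n r ι ((I2o n r ι ^ k) (Omo n ι)))) -
        I1o n r ι ((I2o n r ι ^ k) (Omo n ι))) ∧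
    (∀ v, (1 + TrivSqZeroExt.inr (Th n ι 1 0) : DualNumber ℂ) * (I2o n r ι v) 0 =
      (QD (sz n ι)).lam r * ((1 + TrivSqZeroExt.inr (Th n ι 1 0)) * v 0)) ∧
    (1 + TrivSqZeroExt.inr (Th n ι 1 0) : DualNumber ℂ) * Omo n ι 0 = 1 := by
  have hn0 : n ≠ 0 := NeZero.ne n
  have hr0 : 0 < r := by omega
  have hn1 : 1 < n := by omega
  have hG : (QD (sz n ι)).Gen r := by
    rw [hnr]
    refine (hg r ι hr0 ?_).2
    rw [hnr] at hι
    push_cast at hι
    have h1 : (4 * r : ℤ) = 2 * (2 * r) := by ring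
    rw [h1]
    exact hι
  obtain ⟨hl1, hl2, hl3, hl4, hl5, hl6⟩ := hl n ι hι
  obtain ⟨⟨κ, hκ⟩, hGu⟩ := he n r ι hnr hr hι
  obtain ⟨_, _, _, _, _, _, _, _, _, hrel⟩ := hb _ (QD (sz n ι))
  have hNN := hn n ι hn1 hι
  have hMU := hm n ι hn1 hι
  have hTHE := ht n ι
  -- the eigenvalues
  obtain ⟨lam, hlam⟩ : ∃ lam : ZMod (2 * n) → DualNumber ℂ,
      lam = fun u => (QD (sz n ι)).lam (r - cc n u) := ⟨_, rfl⟩
  have hlamv : ∀ u, lam u = (QD (sz n ι)).lam (r - cc n u) := fun u => by rw [hlam]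
  have hlam0 : lam 0 = (QD (sz n ι)).lam r := by rw [hlamv, cc_zero, sub_zero]
  have hlam1 : lam 1 = (QD (sz n ι)).lam (r - 1) := by rw [hlamv, cc_one hn1]
  have hlamneg : ∀ u, lam (-u) = lam u := fun u => by rw [hlamv, hlamv, cc_neg]
  have hrelv : ∀ u v : ZMod (2 * n), (cc n v = cc n u + 1 ∨ cc n v = cc n u - 1) →
      lam v ^ 2 - (QD (sz n ι)).two * lam v * lam u + lam u ^ 2 + 1 = 0 := by
    intro u v h
    rw [hlamv, hlamv, hrel]
    rcases h with h | h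
    · rw [show (r : ℤ) - cc n v = r - cc n u - 1 by omega, sub_self, mul_zero]
    · rw [show (r : ℤ) - cc n v = r - cc n u + 1 by omega, sub_self, zero_mul]
  obtain ⟨c1, hc1⟩ : ∃ c1 : Fn n, c1 = fun k => zt n ι k + zt n ι (-k) := ⟨_, rfl⟩
  obtain ⟨S', hS'⟩ : ∃ S' : Fn n, S' = fun k => saw n (k.val : ℤ) * (zt n ι k - zt n ι (-k)) :=
    ⟨_, rfl⟩
  obtain ⟨g0, hg0⟩ : ∃ g0 : Fn n, g0 = fun u => (lam u).fst := ⟨_, rfl⟩
  obtain ⟨g1, hg1⟩ : ∃ g1 : Fn n, g1 = fun u => (lam u).snd := ⟨_, rfl⟩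
  have hgl : ∀ u, TrivSqZeroExt.inl (g0 u) + TrivSqZeroExt.inr (g1 u) = lam u := by
    intro u
    rw [hg0, hg1]
    exact TrivSqZeroExt.inl_fst_add_inr_snd_eq _
  obtain ⟨k0, hk0⟩ : ∃ k0 : ℂ, k0 = (κ : DualNumber ℂ).fst := ⟨_, rfl⟩
  obtain ⟨k1, hk1⟩ : ∃ k1 : ℂ, k1 = (κ : DualNumber ℂ).snd := ⟨_, rfl⟩
  have hg0' : g0 = k0 • c1 := by
    funext u
    rw [hg0]
    show (lam u).fst = k0 * c1 u
    rw [hlamv, hκ, hc1, hk0, TrivSqZeroExt.fst_mul]
    simp only [TrivSqZeroExt.fst_add, TrivSqZeroExt.fst_inl, TrivSqZeroExt.fst_inr, add_zero]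
  have hg1' : g1 = k0 • ((n : ℂ) • S') + k1 • c1 := by
    funext u
    rw [hg1]
    show (lam u).snd = k0 * (n * S' u) + k1 * c1 u
    rw [hlamv, hκ, hc1, hk0, hk1, hS', DualNumber.snd_mul]
    simp only [TrivSqZeroExt.fst_add, TrivSqZeroExt.fst_inl, TrivSqZeroExt.fst_inr, add_zero,
      TrivSqZeroExt.snd_add, TrivSqZeroExt.snd_inl, TrivSqZeroExt.snd_inr, zero_add]
    ring
  -- the operators
  obtain ⟨Tp, hTp⟩ : ∃ Tp, Tp = lift2 n 1 (Th n ι) := ⟨_, rfl⟩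
  obtain ⟨Tm, hTm⟩ : ∃ Tm, Tm = lift2 n 1 (-(Th n ι)) := ⟨_, rfl⟩
  have hpm : Tp * Tm = 1 := by
    rw [hTp, hTm, hl1]
    simp [hl2]
  have hmp : Tm * Tp = 1 := by
    rw [hTp, hTm, hl1]
    simp [hl2]
  have hpmv : ∀ F, Tp (Tm F) = F := fun F => by
    have := congrArg (fun T => T F) hpm
    simpa using this
  have hmpv : ∀ F, Tm (Tp F) = F := fun F => by
    have := congrArg (fun T => T F) hmp
    simpa using this
  obtain ⟨L, hL⟩ : ∃ L, L = lift2 n (cono n ι g0) (cono n ι g1) := ⟨_, rfl⟩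
  obtain ⟨I1, hI1⟩ : ∃ I1, I1 = Tm * L * Tp := ⟨_, rfl⟩
  obtain ⟨I2, hI2⟩ : ∃ I2, I2 = lift2 n (mulo n g0) (mulo n g1) := ⟨_, rfl⟩
  have hI1v : ∀ F, I1 F = Tm (L (Tp F)) := fun F => by rw [hI1]; rfl
  have hI2v : ∀ F u, I2 F u = lam u * F u := by
    intro F u
    rw [← mk_eta F, hI2, lift2_mk, ← hgl]
    ext
    · simp [mk, mulo_apply]
    · simp [mk, mulo_apply, DualNumber.snd_mul]
  obtain ⟨Om, hOm⟩ : ∃ Om, Om = Tm (mk n 1 0) := ⟨_, rfl⟩
  have hOm' : Om = mk n 1 (-(Th n ι 1)) := by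
    rw [hOm, hTm, lift2_mk]
    simp
  obtain ⟨Om', hOmp⟩ : ∃ Om' : (ZMod (2 * n) → DualNumber ℂ) →ₗ[DualNumber ℂ] DualNumber ℂ,
      Om' = (1 + TrivSqZeroExt.inr (Th n ι 1 0) : DualNumber ℂ) • LinearMap.proj 0 := ⟨_, rfl⟩
  have hOmpv : ∀ F, Om' F = (1 + TrivSqZeroExt.inr (Th n ι 1 0) : DualNumber ℂ) * F 0 := by
    intro F
    rw [hOmp]
    rfl
  -- first eigenvector
  have e1 : I1 Om = (QD (sz n ι)).lam r • Om := by
    rw [hI1v, hOm, hpmv, hL, lift2_mk, hl6, hl6, map_zero, zero_add, ← map_smul]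
    congr 1
    rw [← hlam0, ← hgl 0, smul_mk]
    refine mk_congr ?_ ?_
    · funext u
      simp
    · funext u
      simp
  -- second eigenvector
  have hTIO : Tp (I2 Om) = mk n (k0 • c1) ((k0 * ((n / 2 : ℂ) * hh n ι 1) + k1) • c1) := by
    rw [hOm', hI2, lift2_mk, hTp, lift2_mk]
    have h1 : mulo n g0 1 = k0 • c1 := by
      rw [mulo_apply, mul_one, hg0']
    have h2 : mulo n g1 1 = k0 • ((n : ℂ) • S') + k1 • c1 := by
      rw [mulo_apply, mul_one, hg1']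
    rw [h1, h2, mulo_apply, hg0']
    refine mk_congr rfl ?_
    funext u
    have h3 := hMU u
    have h4 : Th n ι (fun v => zt n ι v + zt n ι (-v)) = Th n ι c1 := by rw [hc1]
    rw [h4] at h3
    have h5 : c1 u = zt n ι u + zt n ι (-u) := by rw [hc1]
    have h6 : S' u = saw n (u.val : ℤ) * (zt n ι u - zt n ι (-u)) := by rw [hS']
    rw [← h5] at h3
    show (1 : Module.End ℂ (Fn n)) ((k0 • c1) * (-(Th n ι 1)) + (k0 • ((n : ℂ) • S') + k1 • c1)) u +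
      Th n ι (k0 • c1) u = (k0 * ((n / 2 : ℂ) * hh n ι 1) + k1) * c1 u
    rw [map_smul]
    show (k0 * c1 u) * (-(Th n ι 1 u)) + (k0 * (n * S' u) + k1 * c1 u) + k0 * Th n ι c1 u = _
    rw [h6]
    linear_combination k0 * h3
  have hgm0 : g0 (-1) = g0 1 := by
    rw [hg0]
    show (lam (-1)).fst = (lam 1).fst
    rw [hlamneg]
  have hgm1 : g1 (-1) = g1 1 := by
    rw [hg1]
    show (lam (-1)).snd = (lam 1).snd
    rw [hlamneg]
  have e2 : I1 (I2 Om) = (QD (sz n ι)).lam (r - 1) • I2 Om := by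
    have h1 : L (Tp (I2 Om)) = lam 1 • Tp (I2 Om) := by
      rw [hTIO, hL, lift2_mk, smul_mk, ← hgl 1]
      have h2 : cono n ι g0 c1 = g0 1 • c1 := by rw [hc1]; exact cono_c1 ι hz hι g0 hgm0
      have h3 : cono n ι g1 c1 = g1 1 • c1 := by rw [hc1]; exact cono_c1 ι hz hι g1 hgm1
      rw [map_smul, map_smul, map_smul, h2, h3]
      refine mk_congr ?_ ?_
      · funext u
        simp
        ring
      · funext u
        simp
        ring
    rw [hI1v, h1, map_smul, hmpv, hlam1]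
  -- nearest neighbour form on even functions
  obtain ⟨al, hal⟩ : ∃ al : ZMod (2 * n) → DualNumber ℂ, al = fun u => (κ : DualNumber ℂ) *
      (1 - TrivSqZeroExt.inr ((n / 2 : ℂ) * (hh n ι u - hh n ι (u + 1)))) := ⟨_, rfl⟩
  obtain ⟨be, hbe⟩ : ∃ be : ZMod (2 * n) → DualNumber ℂ, be = fun u => (κ : DualNumber ℂ) *
      (1 - TrivSqZeroExt.inr ((n / 2 : ℂ) * (hh n ι (u - 1) - hh n ι u))) := ⟨_, rfl⟩
  have hC0 : cono n ι g0 = k0 • Yy n := by
    rw [hg0', cono_smul, hc1, Yy_eq ι hz hι]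
  have hC1 : cono n ι g1 = k0 • ((n : ℂ) • cono n ι S') + k1 • Yy n := by
    rw [hg1', cono_add, cono_smul, cono_smul, cono_smul, hc1, Yy_eq ι hz hι]
  have hnn : ∀ F : ZMod (2 * n) → DualNumber ℂ, (∀ u, F (-u) = F u) → ∀ u,
      I1 F u = al u * F (u + 1) + be u * F (u - 1) := by
    intro F hF u
    obtain ⟨f0, hf0⟩ : ∃ f0 : Fn n, f0 = fun v => (F v).fst := ⟨_, rfl⟩
    obtain ⟨f1, hf1⟩ : ∃ f1 : Fn n, f1 = fun v => (F v).snd := ⟨_, rfl⟩
    have hFm : F = mk n f0 f1 := by rw [hf0, hf1, mk_eta]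
    have hev : ∀ u, f0 (-u) = f0 u := fun u => by
      rw [hf0]
      show (F (-u)).fst = (F u).fst
      rw [hF]
    have h1 := hNN f0 hev u
    have h2 : (cono n ι fun k => saw n (k.val : ℤ) * (zt n ι k - zt n ι (-k))) = cono n ι S' := by
      rw [hS']
    rw [h2] at h1
    have h3 : (n : ℂ) * cono n ι S' f0 u -
        (Th n ι (Yy n f0) u - (Th n ι f0 (u + 1) + Th n ι f0 (u - 1))) =
        -(n / 2 : ℂ) * ((hh n ι u - hh n ι (u + 1)) * f0 (u + 1) +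
          (hh n ι (u - 1) - hh n ι u) * f0 (u - 1)) := h1
    rw [hFm, hI1v, hTp, lift2_mk, hL, lift2_mk, hTm, lift2_mk, hC0, hC1]
    ext
    · rw [hal, hbe, TrivSqZeroExt.fst_add, TrivSqZeroExt.fst_mul, TrivSqZeroExt.fst_mul]
      simp only [mk, TrivSqZeroExt.fst_add, TrivSqZeroExt.fst_inl, TrivSqZeroExt.fst_inr, add_zero,
        TrivSqZeroExt.fst_mul, TrivSqZeroExt.fst_sub, TrivSqZeroExt.fst_one, sub_zero, mul_one]
      rw [← hk0]
      show k0 * (f0 (u + 1) + f0 (u - 1)) = k0 * f0 (u + 1) + k0 * f0 (u - 1)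
      ring
    · rw [hal, hbe, TrivSqZeroExt.snd_add, DualNumber.snd_mul, DualNumber.snd_mul]
      simp only [mk, TrivSqZeroExt.fst_add, TrivSqZeroExt.fst_inl, TrivSqZeroExt.fst_inr, add_zero,
        TrivSqZeroExt.fst_mul, TrivSqZeroExt.fst_sub, TrivSqZeroExt.fst_one, sub_zero, mul_one,
        TrivSqZeroExt.snd_add, TrivSqZeroExt.snd_inl, TrivSqZeroExt.snd_inr, zero_add,
        DualNumber.snd_mul, TrivSqZeroExt.snd_sub, TrivSqZeroExt.snd_one, zero_sub]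
      rw [← hk0, ← hk1]
      have h4 : ((1 : Module.End ℂ (Fn n)) ((k0 • Yy n) ((1 : Module.End ℂ (Fn n)) f1 + Th n ι f0) +
          (k0 • (n : ℂ) • cono n ι S' + k1 • Yy n) ((1 : Module.End ℂ (Fn n)) f0)) +
          (-(Th n ι)) ((k0 • Yy n) ((1 : Module.End ℂ (Fn n)) f0))) u =
          (k0 * ((f1 (u + 1) + Th n ι f0 (u + 1)) + (f1 (u - 1) + Th n ι f0 (u - 1))) +
            (k0 * (n * cono n ι S' f0 u) + k1 * (f0 (u + 1) + f0 (u - 1)))) -
            k0 * Th n ι (Yy n f0) u := by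
        have h5 : (-(Th n ι)) ((k0 • Yy n) ((1 : Module.End ℂ (Fn n)) f0)) =
            -(k0 • Th n ι (Yy n f0)) := by
          show -(Th n ι (k0 • Yy n f0)) = -(k0 • Th n ι (Yy n f0))
          rw [map_smul]
        rw [h5]
        rfl
      rw [h4]
      linear_combination k0 * h3
  have hev : ∀ k : ℕ, ∀ u, ((I2 ^ k) Om) (-u) = ((I2 ^ k) Om) u := by
    intro k
    induction k with
    | zero =>
      intro u
      rw [pow_zero]
      show Om (-u) = Om u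
      rw [hOm']
      show TrivSqZeroExt.inl 1 + TrivSqZeroExt.inr (-(Th n ι 1 (-u))) =
        TrivSqZeroExt.inl 1 + TrivSqZeroExt.inr (-(Th n ι 1 u))
      rw [hTHE 1 (fun _ => rfl) u]
    | succ k ih =>
      intro u
      rw [pow_succ']
      show I2 ((I2 ^ k) Om) (-u) = I2 ((I2 ^ k) Om) u
      rw [hI2v, hI2v, hlamneg, ih]
  have e3 : ∀ k : ℕ, I1 ((I2 ^ (k + 2)) Om) =
      (QD (sz n ι)).two • I2 (I1 ((I2 ^ (k + 1)) Om)) - I2 (I2 (I1 ((I2 ^ k) Om))) -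
        I1 ((I2 ^ k) Om) := by
    intro k
    funext u
    have h1 : ∀ v, ((I2 ^ (k + 1)) Om) v = lam v * ((I2 ^ k) Om) v := fun v => by
      rw [pow_succ']
      exact hI2v _ v
    have h2 : ∀ v, ((I2 ^ (k + 2)) Om) v = lam v * (lam v * ((I2 ^ k) Om) v) := fun v => by
      rw [pow_succ']
      exact (hI2v _ v).trans (by rw [h1])
    have r1 := hrelv u (u + 1) (cc_add_one hn1 u)
    have r2 := hrelv u (u - 1) (cc_sub_one hn1 u)
    show I1 ((I2 ^ (k + 2)) Om) u =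
      (QD (sz n ι)).two * I2 (I1 ((I2 ^ (k + 1)) Om)) u - I2 (I2 (I1 ((I2 ^ k) Om))) u -
        I1 ((I2 ^ k) Om) u
    rw [hI2v, hI2v, hI2v, hnn _ (hev _), hnn _ (hev _), hnn _ (hev _), h1, h1, h2, h2]
    linear_combination (al u * ((I2 ^ k) Om) (u + 1)) * r1 + (be u * ((I2 ^ k) Om) (u - 1)) * r2
  have e4 : ∀ v, Om' (I2 v) = (QD (sz n ι)).lam r * Om' v := by
    intro v
    rw [hOmpv, hOmpv, hI2v, hlam0]
    ring
  have e5 : Om' Om = 1 := by
    rw [hOmpv, hOm']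
    ext
    · simp [mk]
    · simp [mk, DualNumber.snd_mul]
  have q1 : I1o n r ι = I1 := by
    rw [hI1, hTm, hL, hTp, hg0, hg1, hlam]
    rfl
  have q2 : I2o n r ι = I2 := by
    rw [hI2, hg0, hg1, hlam]
    rfl
  have q3 : Omo n ι = Om := hOm'.symm
  rw [q1, q2, q3]
  refine ⟨hG, ?_, ?_, ?_, e1, e2, e3, ?_, ?_⟩
  · rw [← hTp, ← hTm]
    exact hpm
  · rw [← hTp, ← hTm]
    exact hmp
  · intro F u
    rw [hI2v, hlamv]
  · intro v
    rw [← hOmpv, ← hOmpv]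
    exact e4 v
  · rw [← hOmpv]
    exact e5

/-- The functional `f ↦ (1 + η Θ1(0)) f(0)`. -/
noncomputable def Omd (n : ℕ) [NeZero n] (ι : ℤ) :
    (ZMod (2 * n) → DualNumber ℂ) →ₗ[DualNumber ℂ] DualNumber ℂ :=
  (1 + TrivSqZeroExt.inr (Th n ι 1 0) : DualNumber ℂ) • LinearMap.proj 0

theorem Omd_apply (n : ℕ) [NeZero n] (ι : ℤ) (F : ZMod (2 * n) → DualNumber ℂ) :
    Omd n ι F = (1 + TrivSqZeroExt.inr (Th n ι 1 0) : DualNumber ℂ) * F 0 := rfl

/-- The universal values are the values of the words in the model. -/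
theorem uval_model (hb : BRK_Stmt) (hu : UNV_Stmt) (hz : ZT_Stmt) (hg : GRT_Stmt)
    (hl : LFT_Stmt) (he : EIG_Stmt) (hn : NN_Stmt) (hm : MU_Stmt) (ht : THE_Stmt)
    (n r : ℕ) [NeZero n] (ι : ℤ) (hnr : n = 2 * r) (hr : Even r) (hι : IsCoprime ι (2 * n : ℤ))
    (l : List (DualNumber ℂ)[X]) :
    Uval (QD (sz n ι)).two ((QD (sz n ι)).lam r) ((QD (sz n ι)).lam (r - 1)) l =
      (1 + TrivSqZeroExt.inr (Th n ι 1 0) : DualNumber ℂ) *
        TOR.W (I1o n r ι) (I2o n r ι) (Omo n ι) false l 0 := by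
  obtain ⟨_, _, _, _, e1, e2, e3, e4, e5⟩ := model hb hz hg hl he hn hm ht n r ι hnr hr hι
  have hU := hu (DualNumber ℂ) (QD (sz n ι)).two ((QD (sz n ι)).lam r) ((QD (sz n ι)).lam (r - 1))
    (ZMod (2 * n) → DualNumber ℂ) (I1o n r ι) (I2o n r ι) (Omo n ι) (Omd n ι) e1 e2 e3 e4 e5
    (TOR.W (I1o n r ι) (I2o n r ι) (Omo n ι)) (fun b => by cases b <;> rfl) (fun P l => rfl)
    (fun P l => rfl) l
  rw [← hU, Omd_apply]

section

variable {n : ℕ} [NeZero n]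

/-- The sum of the values of `T_(a,b) f`. -/
theorem sum_Tt (ι a b : ℤ) (f : Fn n) :
    ∑ u, Tt n ι a b f u = ∑ u, f u * Tt n ι a (-b) 1 u := by
  rw [← Equiv.sum_comp (Equiv.addRight (2 * (b : ZMod (2 * n))))
    (fun u => f u * Tt n ι a (-b) 1 u)]
  refine Finset.sum_congr rfl fun u _ => ?_
  show zt n ι (2 * a * b + 2 * a * u) * f (u + 2 * b) =
    f (u + 2 * b) * (zt n ι (2 * a * ((-b : ℤ) : ZMod (2 * n)) + 2 * a * (u + 2 * b)) * 1)
  rw [mul_one, mul_comm]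
  congr 2
  push_cast
  ring

/-- The transpose of `Θ` on the constant function. -/
theorem sum_Th (ι : ℤ) (f : Fn n) : ∑ u, Th n ι f u = -∑ u, f u * Th n ι 1 u := by
  have h1 : ∀ g : Fn n, ∀ h : Fn n, ∑ u, g u * Th n ι h u =
      (n : ℂ) * ∑ a ∈ Finset.range n, saw n (a : ℤ) * ∑ b ∈ Finset.range n,
        saw n (b : ℤ) * ∑ u, g u * Tt n ι a b h u := by
    intro g h
    have h2 : ∀ u, g u * Th n ι h u = (n : ℂ) * ∑ a ∈ Finset.range n, saw n (a : ℤ) *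
        ∑ b ∈ Finset.range n, saw n (b : ℤ) * (g u * Tt n ι a b h u) := by
      intro u
      rw [THE.Th_apply, mul_left_comm, Finset.mul_sum]
      congr 1
      refine Finset.sum_congr rfl fun a _ => ?_
      rw [Finset.mul_sum, Finset.mul_sum]
      refine Finset.sum_congr rfl fun b _ => ?_
      ring
    rw [Finset.sum_congr rfl fun u _ => h2 u, ← Finset.mul_sum, Finset.sum_comm]
    congr 1
    refine Finset.sum_congr rfl fun a _ => ?_
    rw [← Finset.mul_sum, Finset.sum_comm]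
    congr 1
    refine Finset.sum_congr rfl fun b _ => ?_
    rw [← Finset.mul_sum]
  have h3 := h1 1 f
  simp only [Pi.one_apply, one_mul] at h3
  rw [h3, h1 f 1, ← mul_neg, ← Finset.sum_neg_distrib]
  congr 1
  refine Finset.sum_congr rfl fun a _ => ?_
  rw [← mul_neg]
  congr 1
  have h4 := THE.sum_neg n (fun b : ℤ => saw n b * ∑ u, f u * Tt n ι a b 1 u) (fun b => by
    show saw n (b + n) * ∑ u, f u * Tt n ι a (b + n) 1 u = saw n b * ∑ u, f u * Tt n ι a b 1 u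
    rw [THE.saw_add]
    congr 1
    exact Finset.sum_congr rfl fun u _ => by rw [THE.Tt_add_right])
  rw [← h4, ← Finset.sum_neg_distrib]
  refine Finset.sum_congr rfl fun b _ => ?_
  show saw n b * ∑ u, Tt n ι a b f u = -(saw n (-b) * ∑ u, f u * Tt n ι a (-b) 1 u)
  rw [THE.saw_neg, sum_Tt]
  ring

/-- The mean value. -/
theorem cono_delta (hz : ZT_Stmt) (ι : ℤ) (hι : IsCoprime ι (2 * n : ℤ)) (f : Fn n) :
    cono n ι (fun u => if u = 0 then 1 else 0) f = fun _ => (1 / (2 * n : ℂ)) * ∑ v, f v := by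
  obtain ⟨hz0, _⟩ := hz n ι hι
  funext u
  show (1 / (2 * n : ℂ)) * ∑ k, ∑ v, (if k = 0 then 1 else 0) * zt n ι (k * (u - v)) * f v = _
  rw [Finset.sum_eq_single (0 : ZMod (2 * n))]
  · congr 1
    refine Finset.sum_congr rfl fun v _ => ?_
    rw [if_pos rfl, zero_mul, hz0]
    ring
  · intro k _ hk
    refine Finset.sum_eq_zero fun v _ => ?_
    rw [if_neg hk]
    ring
  · intro h
    exact absurd (Finset.mem_univ _) h

theorem cono_zero (ι : ℤ) : cono n ι (fun _ => 0) = 0 := by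
  refine LinearMap.ext fun f => ?_
  funext u
  show (1 / (2 * n : ℂ)) * ∑ k : ZMod (2 * n), ∑ v, 0 * zt n ι (k * (u - v)) * f v = 0
  simp

end

/-- The Lagrange polynomial of the top eigenvalue. -/
theorem basis_eval (hf : FC_Stmt) {A : Type} [CommRing A] (Q : QP A) (r : ℕ) (hG : Q.Gen r)
    (m : ℤ) (hm : m ∈ Finset.Icc (-(r : ℤ)) r) :
    (Q.basis r r).eval (Q.lam m) = if m = r then 1 else 0 := by
  have h1 : Q.interp r (fun m => if m = r then 1 else 0) = Q.basis r r := by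
    show ∑ m ∈ Finset.Icc (-(r : ℤ)) r, C (if m = r then (1 : A) else 0) * Q.basis r m = _
    rw [Finset.sum_eq_single (r : ℤ)]
    · rw [if_pos rfl, C_1, one_mul]
    · intro k _ hk
      rw [if_neg hk, C_0, zero_mul]
    · intro h
      exact absurd (Finset.mem_Icc.2 ⟨by omega, le_refl _⟩) h
  rw [← h1]
  exact (hf A Q r hG).1 _ m hm

theorem cc_eq_zero {n : ℕ} [NeZero n] (u : ZMod (2 * n)) : cc n u = 0 ↔ u = 0 := by
  unfold cc
  rw [Int.natCast_eq_zero, Int.natAbs_eq_zero, ZMod.valMinAbs_eq_zero]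

end TMC

open TOR TMC in
theorem tmc (hb : BRK_Stmt) (hf : FC_Stmt) (hu : UNV_Stmt) (hz : ZT_Stmt) (hg : GRT_Stmt)
    (hl : LFT_Stmt) (he : EIG_Stmt) (hn : NN_Stmt) (hm : MU_Stmt) (ht : THE_Stmt) : TMC_Stmt := by
  intro n r _ ι hnr hr hι X
  obtain ⟨hG, hpm, hmp, _⟩ := model hb hz hg hl he hn hm ht n r ι hnr hr hι
  have hU := uval_model hb hu hz hg hl he hn hm ht n r ι hnr hr hι
    [(QD (sz n ι)).basis r r, X]
  obtain ⟨_, _, hl3, hl4, _, _⟩ := hl n ι hι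
  obtain ⟨lam, hlam⟩ : ∃ lam : ZMod (2 * n) → DualNumber ℂ,
      lam = fun u => (QD (sz n ι)).lam (r - cc n u) := ⟨_, rfl⟩
  obtain ⟨x0, hx0⟩ : ∃ x0 : Fn n, x0 = fun u => (X.eval (lam u)).fst := ⟨_, rfl⟩
  obtain ⟨x1, hx1⟩ : ∃ x1 : Fn n, x1 = fun u => (X.eval (lam u)).snd := ⟨_, rfl⟩
  have h1 : aeval (I2o n r ι) X = lift2 n (mulo n x0) (mulo n x1) := by
    rw [I2o, hl3]
    simp only [TrivSqZeroExt.inl_fst_add_inr_snd_eq]
    rw [hx0, hx1, hlam]
  have hB : ∀ u, ((QD (sz n ι)).basis r r).eval ((QD (sz n ι)).lam (r - cc n u)) =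
      if u = 0 then 1 else 0 := by
    intro u
    rw [basis_eval hf _ r hG]
    · by_cases h : u = 0
      · rw [if_pos h, if_pos (by rw [h, cc_zero, sub_zero])]
      · rw [if_neg h, if_neg]
        intro h'
        exact h ((cc_eq_zero u).1 (by omega))
    · have h1 := cc_le u
      have h2 := cc_nonneg u
      have h3 : (n : ℤ) = 2 * r := by exact_mod_cast hnr
      rw [Finset.mem_Icc]
      constructor <;> linarith
  have h2 : aeval (lift2 n (cono n ι fun u => ((QD (sz n ι)).lam (r - cc n u)).fst)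
      (cono n ι fun u => ((QD (sz n ι)).lam (r - cc n u)).snd)) ((QD (sz n ι)).basis r r) =
      lift2 n (cono n ι fun u => if u = 0 then 1 else 0) 0 := by
    rw [hl4]
    simp only [TrivSqZeroExt.inl_fst_add_inr_snd_eq, hB]
    rw [← cono_zero (n := n) ι]
    congr 2
    · funext u
      by_cases h : u = 0
      · rw [if_pos h, if_pos h, TrivSqZeroExt.fst_one]
      · rw [if_neg h, if_neg h, TrivSqZeroExt.fst_zero]
    · funext u
      by_cases h : u = 0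
      · rw [if_pos h, TrivSqZeroExt.snd_one]
      · rw [if_neg h, TrivSqZeroExt.snd_zero]
  have h3 : W (I1o n r ι) (I2o n r ι) (Omo n ι) false [(QD (sz n ι)).basis r r, X] =
      lift2 n 1 (-(Th n ι)) (lift2 n (cono n ι fun u => if u = 0 then 1 else 0) 0
        (lift2 n 1 (Th n ι) (lift2 n (mulo n x0) (mulo n x1) (mk n 1 (-(Th n ι 1)))))) := by
    show aeval (I1o n r ι) ((QD (sz n ι)).basis r r) (aeval (I2o n r ι) X (Omo n ι)) = _
    rw [h1, I1o, aeval_conj' _ _ _ hpm _ hmp, h2]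
    rfl
  show Uval (QD (sz n ι)).two ((QD (sz n ι)).lam r) ((QD (sz n ι)).lam (r - 1))
    [(QD (sz n ι)).basis r r, X] = _
  rw [hU, h3, lift2_mk, lift2_mk, lift2_mk, cono_delta hz ι hι, lift2_mk]
  have h4 : ∀ u, X.eval ((QD (sz n ι)).lam (r - cc n u)) *
      (1 - TrivSqZeroExt.inr (Th n ι 1 u)) ^ 2 =
      TrivSqZeroExt.inl (x0 u) + TrivSqZeroExt.inr (x1 u - 2 * (x0 u * Th n ι 1 u)) := by
    intro u
    have h5 : X.eval ((QD (sz n ι)).lam (r - cc n u)) =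
        TrivSqZeroExt.inl (x0 u) + TrivSqZeroExt.inr (x1 u) := by
      rw [hx0, hx1, hlam]
      exact (TrivSqZeroExt.inl_fst_add_inr_snd_eq _).symm
    rw [h5]
    ext
    · simp [pow_two]
    · simp [pow_two, DualNumber.snd_mul]
      ring
  rw [Finset.sum_congr rfl fun u _ => h4 u]
  have e1 : mulo n x0 1 = x0 := by rw [mulo_apply, mul_one]
  have e2 : mulo n x1 1 = x1 := by rw [mulo_apply, mul_one]
  rw [e1, e2]
  obtain ⟨c0, hc0⟩ : ∃ c0 : ℂ, c0 = (1 / (2 * n : ℂ)) * ∑ v, x0 v := ⟨_, rfl⟩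
  obtain ⟨c1, hc1⟩ : ∃ c1 : ℂ, c1 = (1 / (2 * n : ℂ)) *
      ∑ v, (x1 v - 2 * (x0 v * Th n ι 1 v)) := ⟨_, rfl⟩
  have f1 : (-(Th n ι)) (fun _ => c0) 0 = -(c0 * Th n ι 1 0) := by
    have h : (fun _ => c0 : Fn n) = c0 • (1 : Fn n) := by
      funext u
      simp
    rw [h, map_smul]
    show c0 * (-(Th n ι 1 0)) = _
    rw [mul_neg]
  have f2 : cono n ι (fun u => if u = 0 then 1 else 0)
      (mulo n x0 (-(Th n ι 1)) + x1 + Th n ι x0) = fun _ => c1 := by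
    rw [cono_delta hz ι hι, hc1]
    funext _
    congr 1
    have h : ∀ v, (mulo n x0 (-(Th n ι 1)) + x1 + Th n ι x0) v =
        x0 v * (-(Th n ι 1 v)) + x1 v + Th n ι x0 v := fun v => rfl
    rw [Finset.sum_congr rfl fun v _ => h v, Finset.sum_add_distrib, sum_Th,
      ← Finset.sum_neg_distrib, ← Finset.sum_add_distrib]
    refine Finset.sum_congr rfl fun v _ => ?_
    ring
  have f3 : (fun _ : ZMod (2 * n) => (1 / (2 * n : ℂ)) *
      ∑ v, (1 : Module.End ℂ (Fn n)) x0 v) = fun _ => c0 := by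
    rw [hc0]
    rfl
  rw [f3]
  show (1 + TrivSqZeroExt.inr (Th n ι 1 0)) * (TrivSqZeroExt.inl c0 + TrivSqZeroExt.inr
    (cono n ι (fun u => if u = 0 then 1 else 0) (mulo n x0 (-(Th n ι 1)) + x1 + Th n ι x0) 0 + 0 +
      (-(Th n ι)) (fun _ => c0) 0)) = _
  rw [f1, f2, Finset.sum_add_distrib, ← TrivSqZeroExt.inl_sum, ← TrivSqZeroExt.inr_sum]
  ext
  · simp [hc0]
  · simp [hc1, DualNumber.snd_mul]
    ring

end Pool.Agent.MT
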