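import Pool.Agent.MT.Stmts
import Pool.Agent.TB.Eig

/-!
TMF: the eigenvalues of the half twists over the dual numbers.
-/

open Polynomial
open scoped BigOperators Real

namespace Pool.Agent.MT

open Pool.Agent.TB Pool.Agent.TB.EIG

namespace TMF

theorem Fu_eq (s0 : ℂˣ) (r : ℕ) (c : ℤ) :
    Fu (QD s0) r (r - c) =
      PL (iC ^ (-c) * s0 ^ (c ^ 2 - 2 * r * c),
        Multiplicative.ofAdd (((c : ℂ) ^ 2 - 2 * r * c) * (1 / 2))) := by
  rw [Fu, fu_eq, fu_eq, ← map_inv, ← map_mul]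
  congr 1
  refine Prod.ext ?_ ?_
  · show (iC ^ ((r : ℤ) - c) * s0 ^ (((r : ℤ) - c) ^ 2)) *
      (iC ^ (r : ℤ) * s0 ^ ((r : ℤ) ^ 2))⁻¹ = iC ^ (-c) * s0 ^ (c ^ 2 - 2 * r * c)
    rw [mul_inv, ← zpow_neg, ← zpow_neg, mul_mul_mul_comm, ← zpow_add, ← zpow_add]
    congr 2
    · ring
    · ring
  · show (Multiplicative.ofAdd ((((r : ℤ) - c : ℤ) : ℂ) ^ 2 * (1 / 2))) *
      (Multiplicative.ofAdd ((((r : ℤ) : ℤ) : ℂ) ^ 2 * (1 / 2)))⁻¹ = _
    rw [← ofAdd_neg, ← ofAdd_add]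
    congr 1
    push_cast
    ring

theorem iC_sq : iC ^ (2 : ℤ) = -1 := by
  apply Units.ext
  rw [zpow_ofNat, Units.val_pow_eq_pow_val]
  show Complex.I ^ 2 = _
  rw [Complex.I_sq]
  simp

theorem PL_neg (z : ℂˣ) (c : ℂ) :
    PL (-z, Multiplicative.ofAdd c) = -PL (z, Multiplicative.ofAdd c) := by
  apply Units.ext
  rw [Units.val_neg, PL_coe, PL_coe, Units.val_neg]
  ext
  · simp
  · simp

section

variable (n : ℕ) [NeZero n]

/-- the signed representative -/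
theorem cc_spec (x : ℤ) : ∃ s t : ℤ, (s = 1 ∨ s = -1) ∧
    cc n ((x : ℤ) : ZMod (2 * n)) = s * x + 2 * n * t := by
  obtain ⟨v, hv, -, h⟩ := cc_cases n ((x : ℤ) : ZMod (2 * n))
  have h1 : ((2 * n : ℕ) : ℤ) ∣ v - x := by
    have := (ZMod.intCast_eq_intCast_iff_dvd_sub x v (2 * n)).mp hv.symm
    exact this
  obtain ⟨k, hk⟩ := h1
  push_cast at hk
  rcases h with ⟨-, -, h2⟩ | ⟨-, -, h2⟩
  · exact ⟨1, k, Or.inl rfl, by rw [h2]; linear_combination hk⟩
  · exact ⟨-1, 1 - k, Or.inr rfl, by rw [h2]; linear_combination -hk⟩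

theorem cc_bd (u : ZMod (2 * n)) : 0 ≤ cc n u ∧ cc n u ≤ n := by
  obtain ⟨v, -, -, h | h⟩ := cc_cases n u
  · omega
  · omega

theorem cc_add (x : ℤ) :
    cc n (((x : ℤ) : ZMod (2 * n)) + (n : ℕ)) = n - cc n ((x : ℤ) : ZMod (2 * n)) := by
  have e0 : ((x : ℤ) : ZMod (2 * n)) + (n : ℕ) = ((x + n : ℤ) : ZMod (2 * n)) := by
    push_cast; rfl
  rw [e0]
  obtain ⟨s, t, hs, h1⟩ := cc_spec n x
  obtain ⟨s', t', hs', h2⟩ := cc_spec n (x + n)
  have b1 := cc_bd n ((x : ℤ) : ZMod (2 * n))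
  have b2 := cc_bd n ((x + n : ℤ) : ZMod (2 * n))
  have hn : (0 : ℤ) < n := by
    have := Nat.pos_of_ne_zero (NeZero.ne n)
    omega
  generalize cc n ((x : ℤ) : ZMod (2 * n)) = a at h1 b1 ⊢
  generalize cc n ((x + n : ℤ) : ZMod (2 * n)) = b at h2 b2 ⊢
  have hN : ∀ k : ℤ, -(2 * (n : ℤ)) ≤ 2 * n * k → 2 * n * k ≤ 2 * n → k = -1 ∨ k = 0 ∨ k = 1 := by
    intro k h3 h4
    have h5 : -1 ≤ k := by
      by_contra h6
      have h7 : k ≤ -2 := by omega
      nlinarith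
    have h6 : k ≤ 1 := by
      by_contra h6
      have h7 : 2 ≤ k := by omega
      nlinarith
    omega
  rcases hs with rfl | rfl <;> rcases hs' with rfl | rfl
  · have h3 : b - a - n = 2 * n * (t' - t) := by rw [h1, h2]; ring
    rcases hN (t' - t) (by omega) (by omega) with h4 | h4 | h4 <;> rw [h4] at h3 <;> omega
  · have h3 : b + a - n = 2 * n * (t + t' - 1) := by rw [h1, h2]; ring
    rcases hN (t + t' - 1) (by omega) (by omega) with h4 | h4 | h4 <;> rw [h4] at h3 <;> omega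
  · have h3 : b + a - n = 2 * n * (t + t') := by rw [h1, h2]; ring
    rcases hN (t + t') (by omega) (by omega) with h4 | h4 | h4 <;> rw [h4] at h3 <;> omega
  · have h3 : b - a - n = 2 * n * (t' - t - 1) := by rw [h1, h2]; ring
    rcases hN (t' - t - 1) (by omega) (by omega) with h4 | h4 | h4 <;> rw [h4] at h3 <;> omega

end

end TMF

open TMF in
theorem tmf (hb : BRK_Stmt) (hz : ZT_Stmt) : TMF_Stmt := by
  intro n r _ ι hn hr hι
  obtain ⟨-, he⟩ := eig hb hz n r ι hn hr hι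
  obtain ⟨-, -, hz3, hz4, -, -, -, -⟩ := hz n ι hι
  have hs : iC ^ (2 : ℤ) * sz n ι ^ (4 * (r : ℤ)) = 1 := by
    rw [iC_sq]
    apply Units.ext
    have h1 : ((sz n ι ^ (4 * (r : ℤ)) : ℂˣ) : ℂ) = -1 := by
      have h2 : (4 * (r : ℤ)) = 2 * (n : ℤ) := by
        rw [hn]
        push_cast
        ring
      rw [h2, ← hz3]
      exact hz4
    rw [Units.val_mul, h1]
    simp
  have hbq : ∀ u : ZMod (2 * n), bq n u = (cc n u : ℂ) ^ 2 - 2 * r * (cc n u : ℂ) := by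
    intro u
    have h1 := he u 1
    rw [zpow_one, Gu_eq _ r _ hs, PL_coe] at h1
    have h2 := congrArg TrivSqZeroExt.fst h1
    have h3 := congrArg TrivSqZeroExt.snd h1
    simp at h2 h3
    have h4 : ((sz n ι : ℂˣ) : ℂ) ^ (2 * cc n u ^ 2) ≠ 0 := zpow_ne_zero _ (Units.ne_zero _)
    rw [← h2] at h3
    rw [← mul_left_cancel₀ h4 h3]
    ring
  constructor
  · intro w e
    obtain ⟨s, t, hst, hc⟩ := cc_spec n ((2 * w : ℕ) : ℤ)
    rw [Int.cast_natCast] at hc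
    set u : ZMod (2 * n) := ((2 * w : ℕ) : ZMod (2 * n)) with hu
    obtain ⟨c', hc'⟩ : ∃ c' : ℤ, c' = s * w + n * t := ⟨_, rfl⟩
    have hcc : cc n u = 2 * c' := by
      rw [hc, hc']
      push_cast
      ring
    have h1 : iC ^ (-(cc n u)) * sz n ι ^ (cc n u ^ 2 - 2 * r * cc n u) =
        sz n ι ^ (2 * (2 * c' ^ 2)) := by
      have h2 : sz n ι ^ (2 * (2 * c' ^ 2)) = sz n ι ^ (2 * (2 * c' ^ 2)) *
          (iC ^ (2 : ℤ) * sz n ι ^ (4 * (r : ℤ))) ^ (-c') := by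
        rw [hs, one_zpow, mul_one]
      rw [h2, mul_zpow, ← zpow_mul, ← zpow_mul, mul_left_comm, ← zpow_add, hcc]
      congr 2
      · ring
      · ring
    have h3 : ((2 * e * c' ^ 2 : ℤ) : ZMod (2 * n)) = ((2 * e * (w : ℤ) ^ 2 : ℤ) : ZMod (2 * n)) := by
      apply (ZMod.intCast_eq_intCast_iff_dvd_sub _ _ (2 * n)).mpr
      have h4 : s * s = 1 := by rcases hst with rfl | rfl <;> norm_num
      refine ⟨-(e * (2 * s * w * t + n * t ^ 2)), ?_⟩
      rw [hc']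
      push_cast
      linear_combination (-(2 * e * w ^ 2 : ℤ)) * h4
    rw [Fu_eq, h1, ← map_zpow, zpow_pair, PL_coe, hbq u, ← h3, hz3, ← zpow_mul]
    congr 2
    · congr 2
      ring
    · congr 1
      ring
  · intro w
    have hu : (((2 * w + 1 : ℕ) : ZMod (2 * n))) = (((2 * w + 1 : ℕ) : ℤ) : ZMod (2 * n)) := by
      rw [Int.cast_natCast]
    obtain ⟨s, t, hst, hc⟩ := cc_spec n ((2 * w + 1 : ℕ) : ℤ)
    rw [hu, cc_add, Fu_eq, Fu_eq]
    set c : ℤ := cc n (((2 * w + 1 : ℕ) : ℤ) : ZMod (2 * n)) with hcdef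
    rw [← PL_neg]
    congr 1
    refine Prod.ext ?_ ?_
    · show iC ^ (-((n : ℤ) - c)) * sz n ι ^ (((n : ℤ) - c) ^ 2 - 2 * r * (n - c)) =
        -(iC ^ (-c) * sz n ι ^ (c ^ 2 - 2 * r * c))
      have h1 : ((n : ℤ) - c) ^ 2 - 2 * r * (n - c) = c ^ 2 - 2 * r * c := by
        rw [hn]
        push_cast
        ring
      have h2 : Odd c := by
        rw [hc]
        rcases hst with rfl | rfl
        · exact ⟨w + n * t, by push_cast; ring⟩
        · exact ⟨-w - 1 + n * t, by push_cast; ring⟩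
      obtain ⟨k, hk⟩ := hr
      have h3 : iC ^ (-((n : ℤ) - c)) = -iC ^ (-c) := by
        have h4 : -((n : ℤ) - c) = -c + 2 * (c - 2 * k) := by
          rw [hn, hk]
          push_cast
          ring
        rw [h4, zpow_add, zpow_mul, iC_sq, Odd.neg_one_zpow, mul_neg, mul_one]
        exact h2.sub_even ⟨k, by ring⟩
      rw [h1, h3, neg_mul]
    · show Multiplicative.ofAdd _ = Multiplicative.ofAdd _
      congr 1
      rw [hn]
      push_cast
      ring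

end Pool.Agent.MT
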