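import Pool.Agent.MT.Stmts

/-!
Montesinos knots, algebraic part: module TMS (periodicity and supports).
-/

open Polynomial
open scoped BigOperators

set_option linter.unusedSectionVars false

namespace Pool.Agent.MT

open Pool.Agent.LibH11.Sliced Pool.Agent.TB

namespace TMS

section

variable {n : ℕ} [NeZero n] {ι : ℤ}

/-- `f` is invariant under the translation by `n` -/
def Per (f : Fn n) : Prop := ∀ u : ZMod (2 * n), f (u + (n : ℕ)) = f u

/-- `f` vanishes at the odd numbers -/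
def Od (f : Fn n) : Prop := ∀ w : ZMod (2 * n), f (2 * w + 1) = 0

theorem two_n : (2 : ZMod (2 * n)) * (n : ℕ) = 0 := by
  have : ((2 * n : ℕ) : ZMod (2 * n)) = 0 := ZMod.natCast_self _
  push_cast at this
  exact this

/-! ### Values of the character -/

variable (hι : IsCoprime ι (2 * n : ℤ)) (hz : ZT_Stmt)

include hι hz in
theorem zt_zero : zt n ι 0 = 1 := (hz n ι hι).1

include hι hz in
theorem zt_add (a b : ZMod (2 * n)) : zt n ι (a + b) = zt n ι a * zt n ι b := (hz n ι hι).2.1 a b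

include hι hz in
theorem zt_n : zt n ι ((n : ℕ) : ZMod (2 * n)) = -1 := by
  have h := (hz n ι hι).2.2.2.1
  push_cast at h
  exact h

/-! ### Periodicity -/

theorem Per.one : Per (1 : Fn n) := fun _ => rfl

theorem Per.add {f g : Fn n} (hf : Per f) (hg : Per g) : Per (f + g) := fun u => by
  simp only [Pi.add_apply, hf u, hg u]

theorem Per.sub {f g : Fn n} (hf : Per f) (hg : Per g) : Per (f - g) := fun u => by
  simp only [Pi.sub_apply, hf u, hg u]

theorem Per.neg {f : Fn n} (hf : Per f) : Per (-f) := fun u => by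
  simp only [Pi.neg_apply, hf u]

theorem Per.smul {f : Fn n} (c : ℂ) (hf : Per f) : Per (c • f) := fun u => by
  simp only [Pi.smul_apply, hf u]

theorem Per.mulo {f g : Fn n} (hg : Per g) (hf : Per f) : Per (mulo n g f) := fun u => by
  simp only [TB.mulo, LinearMap.coe_mk, AddHom.coe_mk, hf u, hg u]

theorem Per.bq : Per (bq n) := by
  intro u
  have h : (u + ((n : ℕ) : ZMod (2 * n))).val % n = u.val % n := by
    rw [ZMod.val_add, Nat.mod_mod_of_dvd _ (Dvd.intro_left 2 rfl), ZMod.val_natCast,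
      Nat.add_mod, Nat.mod_mod_of_dvd _ (Dvd.intro_left 2 rfl), Nat.mod_self, add_zero,
      Nat.mod_mod]
  unfold TB.bq
  rw [h]

theorem Per.cono {f : Fn n} (g : Fn n) (hf : Per f) : Per (cono n ι g f) := by
  intro u
  simp only [TB.cono, LinearMap.coe_mk, AddHom.coe_mk]
  congr 1
  refine Finset.sum_congr rfl fun k _ => ?_
  rw [← Equiv.sum_comp (Equiv.addRight ((n : ℕ) : ZMod (2 * n)))]
  refine Finset.sum_congr rfl fun v _ => ?_
  simp only [Equiv.coe_addRight]
  rw [hf v]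
  congr 3
  ring

include hι hz in
theorem Per.Tt {f : Fn n} (a b : ℤ) (hf : Per f) : Per (Tt n ι a b f) := by
  intro u
  simp only [TB.Tt, LinearMap.coe_mk, AddHom.coe_mk]
  have h1 : (2 * (a : ZMod (2 * n)) * b + 2 * a * (u + (n : ℕ)) : ZMod (2 * n)) =
      (2 * a * b + 2 * a * u) + a * (2 * (n : ℕ)) := by ring
  have h2 : u + ((n : ℕ) : ZMod (2 * n)) + 2 * (b : ZMod (2 * n)) = u + 2 * b + (n : ℕ) := by ring
  rw [h1, two_n, mul_zero, add_zero, h2, hf]

include hι hz in
theorem Per.Th {f : Fn n} (hf : Per f) : Per (Th n ι f) := by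
  intro u
  simp only [TB.Th, LinearMap.smul_apply, LinearMap.coe_sum, Finset.sum_apply, Pi.smul_apply]
  congr 1
  refine Finset.sum_congr rfl fun a _ => Finset.sum_congr rfl fun b _ => ?_
  rw [hf.Tt hι hz a b u]

include hι hz in
theorem per_chirp (hn : Even n) (a : ℤ) :
    Per (fun u : ZMod (2 * n) => zt n ι (a * u ^ 2)) := by
  intro u
  obtain ⟨m, hm⟩ := hn
  have h0 : ((n : ℕ) : ZMod (2 * n)) = 2 * (m : ℕ) := by
    have h00 : ((n : ℕ) : ZMod (2 * n)) = ((2 * m : ℕ) : ZMod (2 * n)) :=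
      congrArg (Nat.cast : ℕ → ZMod (2 * n)) (by omega)
    rw [h00]; push_cast; ring
  have h1 : (a : ZMod (2 * n)) * (u + (n : ℕ)) ^ 2 =
      a * u ^ 2 + (a * u * (2 * (n : ℕ)) + a * (n : ℕ) * (n : ℕ)) := by ring
  have h2 : (a : ZMod (2 * n)) * (n : ℕ) * (n : ℕ) = a * (m : ℕ) * (2 * (n : ℕ)) := by
    calc (a : ZMod (2 * n)) * (n : ℕ) * (n : ℕ) = a * (2 * (m : ℕ)) * (n : ℕ) := by rw [← h0]
      _ = a * (m : ℕ) * (2 * (n : ℕ)) := by ring
  change zt n ι (a * (u + (n : ℕ)) ^ 2) = zt n ι (a * u ^ 2)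
  rw [h1, h2, two_n, mul_zero, mul_zero, add_zero, add_zero]

include hι hz in
theorem Per.Cc (hn : Even n) {f : Fn n} (a : ℤ) (hf : Per f) : Per (Cc n ι a f) :=
  (per_chirp hι hz hn a).mulo hf

theorem Per.Dc {f : Fn n} (a : ℤ) (hf : Per f) : Per (Dc n ι a f) := hf.cono _

include hι hz in
theorem per_vecg (hn : Even n) {B : Fn n × Fn n} (h1 : Per B.1) (h2 : Per B.2) :
    ∀ (l : List ℤ) (b : Bool), Per (vecg n ι B b l).1 ∧ Per (vecg n ι B b l).2 := by
  intro l
  induction l with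
  | nil => intro b; cases b <;> exact ⟨h1, h2⟩
  | cons a l ih =>
    intro b
    cases b with
    | false =>
      obtain ⟨i1, i2⟩ := ih true
      refine ⟨i1.Dc a, ?_⟩
      exact (((i2.add (i1.Th hι hz)).Dc a).add (((i1.Dc a).cono _).smul _)).sub
        ((i1.Dc a).Th hι hz)
    | true =>
      obtain ⟨i1, i2⟩ := ih false
      refine ⟨i1.Cc hι hz hn a, ?_⟩
      exact (i2.Cc hι hz hn a).add ((Per.bq.mulo (i1.Cc hι hz hn a)).smul _)

/-! ### Supports -/

theorem Od.zero : Od (0 : Fn n) := fun _ => rfl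

theorem Od.add {f g : Fn n} (hf : Od f) (hg : Od g) : Od (f + g) := fun u => by
  simp only [Pi.add_apply, hf u, hg u, add_zero]

theorem Od.sub {f g : Fn n} (hf : Od f) (hg : Od g) : Od (f - g) := fun u => by
  simp only [Pi.sub_apply, hf u, hg u, sub_zero]

theorem Od.smul {f : Fn n} (c : ℂ) (hf : Od f) : Od (c • f) := fun u => by
  simp only [Pi.smul_apply, hf u, smul_zero]

theorem Od.mulo {f : Fn n} (g : Fn n) (hf : Od f) : Od (mulo n g f) := fun u => by
  simp only [TB.mulo, LinearMap.coe_mk, AddHom.coe_mk, hf u, mul_zero]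

theorem Od.Tt {f : Fn n} (a b : ℤ) (hf : Od f) : Od (Tt n ι a b f) := by
  intro u
  simp only [TB.Tt, LinearMap.coe_mk, AddHom.coe_mk]
  have h2 : 2 * u + 1 + 2 * (b : ZMod (2 * n)) = 2 * (u + b) + 1 := by ring
  rw [h2, hf, mul_zero]

theorem Od.Th {f : Fn n} (hf : Od f) : Od (Th n ι f) := by
  intro u
  simp only [TB.Th, LinearMap.smul_apply, LinearMap.coe_sum, Finset.sum_apply, Pi.smul_apply]
  rw [Finset.sum_eq_zero, smul_zero]
  intro a _
  refine Finset.sum_eq_zero fun b _ => ?_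
  rw [hf.Tt a b u, smul_zero]

theorem cases_two (v : ZMod (2 * n)) :
    (∃ w : ZMod (2 * n), v = 2 * w) ∨ ∃ w : ZMod (2 * n), v = 2 * w + 1 := by
  have hv : ((v.val : ℕ) : ZMod (2 * n)) = v := ZMod.natCast_zmod_val v
  rcases Nat.even_or_odd' v.val with ⟨m, h | h⟩
  · left
    refine ⟨(m : ℕ), ?_⟩
    rw [← hv, h]; push_cast; ring
  · right
    refine ⟨(m : ℕ), ?_⟩
    rw [← hv, h]; push_cast; ring

include hι hz in
theorem Od.cono {f g : Fn n} (hg : Per g) (hf : Od f) : Od (cono n ι g f) := by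
  intro w
  simp only [TB.cono, LinearMap.coe_mk, AddHom.coe_mk]
  set F : ZMod (2 * n) → ℂ := fun k =>
    ∑ v, g k * zt n ι (k * (2 * w + 1 - v)) * f v with hF
  have hneg : ∀ k, F (k + (n : ℕ)) = -F k := by
    intro k
    rw [hF]
    simp only
    rw [← Finset.sum_neg_distrib]
    refine Finset.sum_congr rfl fun v _ => ?_
    rcases cases_two v with ⟨m, rfl⟩ | ⟨m, rfl⟩
    · rw [hg k]
      have h1 : (k + ((n : ℕ) : ZMod (2 * n))) * (2 * w + 1 - 2 * m) =
          k * (2 * w + 1 - 2 * m) + ((n : ℕ) + (w - m) * (2 * (n : ℕ))) := by ring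
      rw [h1, two_n, mul_zero, add_zero, zt_add hι hz, zt_n hι hz]
      ring
    · rw [hf m]; ring
  have hsum : ∑ k, F k = 0 := by
    have h1 : ∑ k, F k = ∑ k, F (k + (n : ℕ)) :=
      (Equiv.sum_comp (Equiv.addRight ((n : ℕ) : ZMod (2 * n))) F).symm
    have h2 : ∑ k, F (k + (n : ℕ)) = -∑ k, F k := by
      rw [← Finset.sum_neg_distrib]
      exact Finset.sum_congr rfl fun k _ => hneg k
    have h3 : ∑ k, F k = -∑ k, F k := h1.trans h2
    exact self_eq_neg.mp h3
  have h4 : ∑ k, ∑ v, g k * zt n ι (k * (2 * w + 1 - v)) * f v = ∑ k, F k := rfl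
  rw [h4, hsum, mul_zero]

theorem Od.Cc {f : Fn n} (a : ℤ) (hf : Od f) : Od (Cc n ι a f) := hf.mulo _

include hι hz in
theorem Od.Dc (hn : Even n) {f : Fn n} (a : ℤ) (hf : Od f) : Od (Dc n ι a f) :=
  hf.cono hι hz (per_chirp hι hz hn a)

include hι hz in
theorem od_vecg (hn : Even n) {B : Fn n × Fn n} (h1 : Od B.1) (h2 : Od B.2) :
    ∀ (l : List ℤ) (b : Bool), Od (vecg n ι B b l).1 ∧ Od (vecg n ι B b l).2 := by
  intro l
  induction l with
  | nil => intro b; cases b <;> exact ⟨h1, h2⟩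
  | cons a l ih =>
    intro b
    cases b with
    | false =>
      obtain ⟨i1, i2⟩ := ih true
      refine ⟨i1.Dc hι hz hn a, ?_⟩
      exact (((i2.add i1.Th).Dc hι hz hn a).add
        (((i1.Dc hι hz hn a).cono hι hz Per.bq).smul _)).sub (i1.Dc hι hz hn a).Th
    | true =>
      obtain ⟨i1, i2⟩ := ih false
      refine ⟨i1.Cc a, ?_⟩
      exact (i2.Cc a).add (((i1.Cc a).mulo _).smul _)

theorem od_delta : Od (fun u : ZMod (2 * n) => if u = 0 then (1 : ℂ) else 0) := by
  intro w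
  change (if (2 * w + 1 : ZMod (2 * n)) = 0 then (1 : ℂ) else 0) = 0
  rw [if_neg]
  intro h
  have hdvd : (2 : ℕ) ∣ 2 * n := Dvd.intro n rfl
  have h1 := congrArg (ZMod.castHom hdvd (ZMod 2)) h
  simp only [map_add, map_mul, map_one, map_zero, map_ofNat] at h1
  have h2 : ∀ a : ZMod 2, (2 : ZMod 2) * a + 1 ≠ 0 := by decide
  exact h2 _ h1

end

end TMS

open TMS in
/-- **Module TMS.** -/
theorem tms (hz : ZT_Stmt) : TMS_Stmt := by
  intro n _ ι hn hι
  have hT : Per (Th n ι 1) := Per.one.Th hι hz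
  refine ⟨hT, ?_, ?_⟩
  · intro x u
    have h := per_vecg hι hz hn (B := bs n ι false) Per.one hT.neg x.reverse false
    unfold du vt
    rw [h.1 u, h.2 u]
  · intro x w
    have h := od_vecg hι hz hn (B := bs n ι true) od_delta Od.zero x.reverse false
    have hw : ((2 * w + 1 : ℕ) : ZMod (2 * n)) = 2 * (w : ZMod (2 * n)) + 1 := by push_cast; ring
    unfold du vt
    rw [hw, h.1, h.2]
    simp

end Pool.Agent.MT
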