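import Pool.Agent.MT.Stmts
import Pool.Agent.TB.Val

/-!
TT: the action of a tangle with the flag `true`.
-/

open Polynomial
open scoped BigOperators Matrix

namespace Pool.Agent.MT

open Pool.Agent.LibH11.Sliced Pool.Agent.TB

namespace TT

/-! ### Lengths -/

section Len

variable {A S : Type} [CommRing A] [Fintype S] [DecidableEq S] (T : TData A S)

theorem ap_crs_len (e : Bool) (i : ℕ) : ∀ (ψ : List S → A) (l : List S),
    (∀ l', l'.length = l.length → ψ l' = 0) → T.ap (.crs e) i ψ l = 0 := by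
  induction i with
  | zero =>
    intro ψ l h
    match l, h with
    | [], _ => rfl
    | [a], _ => rfl
    | x :: y :: l, h =>
      show ∑ a, ∑ b, T.R e x y a b * ψ (a :: b :: l) = 0
      refine Finset.sum_eq_zero fun a _ => Finset.sum_eq_zero fun b _ => ?_
      rw [h (a :: b :: l) rfl, mul_zero]
  | succ i ih =>
    intro ψ l h
    match l, h with
    | [], _ => rfl
    | a :: l, h => exact ih (fun l' => ψ (a :: l')) l fun l' hl' => h (a :: l') (by simp [hl'])

theorem ap_cup_len (i : ℕ) : ∀ (ψ : List S → A) (l : List S),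
    (∀ l', l'.length + 2 = l.length → ψ l' = 0) → T.ap .cup i ψ l = 0 := by
  induction i with
  | zero =>
    intro ψ l h
    match l, h with
    | [], _ => rfl
    | [a], _ => rfl
    | x :: y :: l, h =>
      show T.cup x y * ψ l = 0
      rw [h l rfl, mul_zero]
  | succ i ih =>
    intro ψ l h
    match l, h with
    | [], _ => rfl
    | a :: l, h =>
      exact ih (fun l' => ψ (a :: l')) l fun l' hl' => h (a :: l') (by simp [← hl'])

theorem ap_cap_len (i : ℕ) : ∀ (ψ : List S → A) (l : List S),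
    (∀ l', l'.length = l.length + 2 → ψ l' = 0) → T.ap .cap i ψ l = 0 := by
  induction i with
  | zero =>
    intro ψ l h
    show ∑ a, ∑ b, T.cap a b * ψ (a :: b :: l) = 0
    refine Finset.sum_eq_zero fun a _ => Finset.sum_eq_zero fun b _ => ?_
    rw [h (a :: b :: l) (by simp), mul_zero]
  | succ i ih =>
    intro ψ l h
    match l, h with
    | [], _ => rfl
    | a :: l, h =>
      exact ih (fun l' => ψ (a :: l')) l fun l' hl' => h (a :: l') (by simp [hl'])

theorem st_crs_len (w : Diag) (hw : ∀ c ∈ w, ∃ e, c.1 = Kind.crs e) :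
    ∀ (ψ : List S → A) (l : List S), (∀ l', l'.length = l.length → ψ l' = 0) →
      T.st w ψ l = 0 := by
  induction w with
  | nil =>
    intro ψ l h
    exact h l rfl
  | cons c w ih =>
    intro ψ l h
    obtain ⟨e, he⟩ := hw c (List.mem_cons_self ..)
    obtain ⟨k, i⟩ := c
    simp only at he
    subst he
    rw [TData.st]
    refine ih (fun c hc => hw c (List.mem_cons_of_mem _ hc)) _ l ?_
    intro l' hl'
    exact ap_crs_len T e i ψ l' fun l'' hl'' => h l'' (hl''.trans hl')

theorem twd_crs (p : ℕ) (x : List ℤ) : ∀ c ∈ twd p x, ∃ e, c.1 = Kind.crs e := by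
  induction x generalizing p with
  | nil =>
    intro c hc
    simp [twd] at hc
  | cons a l ih =>
    intro c hc
    rw [twd, List.mem_append] at hc
    rcases hc with hc | hc
    · rw [tw] at hc
      rw [List.eq_of_mem_replicate hc]
      exact ⟨_, rfl⟩
    · exact ih _ c hc

end Len

section Fun

variable {A : Type} [CommRing A] (Q : QP A) (r : ℕ)

/-! ### Words -/

theorem Wv_smul (k : A) (v : Lb r × Lb r × Lb r → A) (b : Bool) (l : List A[X]) :
    Wv Q r (k • v) b l = k • Wv Q r v b l := by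
  induction l generalizing b with
  | nil => cases b <;> rfl
  | cons P l ih =>
    cases b
    · rw [Wv, Wv, ih, Matrix.mulVec_smul]
    · rw [Wv, Wv, ih, Matrix.mulVec_smul]

theorem Wv_append (v : Lb r × Lb r × Lb r → A) (b : Bool) (l m : List A[X]) :
    Wv Q r v b (l ++ m) = Wv Q r (Wv Q r v (xor b l.length.bodd) m) b l := by
  induction l generalizing b with
  | nil =>
    cases b <;> simp [Wv]
  | cons P l ih =>
    have h1 : xor b (P :: l).length.bodd = xor (!b) l.length.bodd := by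
      rw [List.length_cons, Nat.bodd_succ]
      cases b <;> cases l.length.bodd <;> rfl
    rw [h1, List.cons_append]
    cases b
    · rw [Wv, Wv, ih]
      rfl
    · rw [Wv, Wv, ih]
      rfl

/-! ### Labels -/

theorem cupcap (hc : CUP_Stmt) (hr : Even r) (b q : Lb r) (hq : q.par = false) :
    ∑ p : Ev r, cupv Q r b p.1 * capv Q r p.1 q = if b = q then 1 else 0 := by
  obtain ⟨h1, -, h3, -, h5⟩ := hc A Q r hr
  have h6 : ∀ p : Lb r, p.par = true → capv Q r p q = 0 := by
    intro p hp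
    refine (h1 p q ?_).2
    intro h
    rw [h, h5, hp] at hq
    exact Bool.noConfusion hq
  rw [VAL.sum_Ev r (fun p => cupv Q r b p * capv Q r p q)
    (fun p hp => by simp only [h6 p hp, mul_zero])]
  cases hb : b.par
  · exact h3 b q hb
  · rw [if_neg (fun h => by rw [h, hq] at hb; exact Bool.noConfusion hb)]
    refine Finset.sum_eq_zero fun p _ => ?_
    cases hp : p.par
    · rw [(h1 b p (fun h => by rw [h, h5, hb] at hp; exact Bool.noConfusion hp)).1, zero_mul]
    · rw [h6 p hp, mul_zero]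

theorem labels (hc : CUP_Stmt) (hr : Even r) (K u : Lb r → Lb r → A)
    (hu : ∀ a b, a.par = true → u a b = 0)
    (hK : ∀ a b, a.par = false → b.par = true → K a b = 0) :
    ∑ p : Ev r, ∑ q : Ev r, capv Q r p.1 q.1 *
      ∑ a, ∑ b, K a b * (u a q.1 * cupv Q r b p.1) = ∑ a, ∑ b, K a b * u a b := by
  rw [Finset.sum_comm]
  have h1 : ∀ q : Ev r, ∑ p : Ev r, capv Q r p.1 q.1 *
      ∑ a, ∑ b, K a b * (u a q.1 * cupv Q r b p.1) = ∑ a, K a q.1 * u a q.1 := by
    intro q
    have h2 : ∑ p : Ev r, capv Q r p.1 q.1 *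
        ∑ a, ∑ b, K a b * (u a q.1 * cupv Q r b p.1) =
        ∑ a, ∑ b, K a b * u a q.1 * ∑ p : Ev r, cupv Q r b p.1 * capv Q r p.1 q.1 := by
      simp only [Finset.mul_sum]
      rw [Finset.sum_comm]
      refine Finset.sum_congr rfl fun a _ => ?_
      rw [Finset.sum_comm]
      refine Finset.sum_congr rfl fun b _ => Finset.sum_congr rfl fun p _ => ?_
      ring
    rw [h2]
    refine Finset.sum_congr rfl fun a _ => ?_
    simp only [cupcap Q r hc hr _ q.1 q.2, mul_ite, mul_one, mul_zero, Finset.sum_ite_eq',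
      Finset.mem_univ, if_true]
  simp only [h1]
  rw [Finset.sum_comm]
  refine Finset.sum_congr rfl fun a _ => ?_
  refine VAL.sum_Ev r (fun b => K a b * u a b) ?_
  intro b hb
  cases ha : a.par
  · simp only [hK a b ha hb, zero_mul]
  · simp only [hu a b ha, mul_zero]

theorem cup_phi (he : EMB_Stmt) (hc : CUP_Stmt) [IsDomain A] (hd : DLB_Stmt) (hr : Even r)
    (hG : Q.Gen r) (hR : Q.Reg r) (φ : Lb r → A) (hφ : ∀ a : Lb r, a.par = true → φ a = 0) :
    (fun t : Lb r × Lb r × Lb r => cupv Q r t.1 t.2.1 * φ t.2.2) =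
      dlt Q r • (aeval (emb12 (Im Q r)) (Q.basis r r) *ᵥ Omf Q r φ) := by
  funext t
  obtain ⟨a, b, c⟩ := t
  rw [Pi.smul_apply, ((he A (Lb r)).2.2.2.2 (Im Q r) (Q.basis r r)).1, VAL.emb12_mulVec]
  simp only [Omf, smul_eq_mul, Finset.mul_sum]
  have h1 : ∀ a' b' : Lb r, dlt Q r * ((aeval (Im Q r)) (Q.basis r r) (a, b) (a', b') *
      (φ a' * cupv Q r b' c)) = cupv Q r a b * (φ a' * (capv Q r a' b' * cupv Q r b' c)) := by
    intro a' b'
    have h2 := (hd A Q r hG hR).2 (a, b) (a', b')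
    simp only at h2
    rw [← mul_assoc, h2]
    ring
  simp only [h1]
  simp only [← Finset.mul_sum]
  congr 1
  rw [Finset.sum_eq_single c]
  · cases hcp : c.par
    · rw [(hc A Q r hr).2.2.2.1 c c hcp, if_pos rfl, mul_one]
    · rw [hφ c hcp, zero_mul]
  · intro a' _ ha'
    cases hap : a'.par
    · rw [(hc A Q r hr).2.2.2.1 a' c hap, if_neg (Ne.symm ha'), mul_zero]
    · rw [hφ a' hap, zero_mul]
  · intro h
    exact (h (Finset.mem_univ _)).elim

theorem word (he : EMB_Stmt) (hc : CUP_Stmt) [IsDomain A] (hd : DLB_Stmt) (hw : WOP_Stmt)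
    (hr : Even r) (hG : Q.Gen r) (hR : Q.Reg r) (x : List ℤ) (hx : Odd x.length)
    (φ : Lb r → A) (hφ : ∀ a : Lb r, a.par = true → φ a = 0) :
    Wv Q r (fun t : Lb r × Lb r × Lb r => cupv Q r t.1 t.2.1 * φ t.2.2) false
        (x.reverse.map (GP Q r)) =
      dlt Q r • (aeval (emb12 (Im Q r)) (tpoly Q r (true, x)) *ᵥ Omf Q r φ) := by
  rw [cup_phi Q r he hc hd hr hG hR φ hφ, Wv_smul]
  congr 1
  have h1 : tpoly Q r (true, x) = wop Q.two (Q.lam r) (Q.lam (r - 1)) false
      (x.reverse.map (GP Q r) ++ [Q.basis r r]) := rfl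
  rw [h1, ← hw A Q r hG hR, Wv_append]
  have h2 : xor false (x.reverse.map (GP Q r)).length.bodd = true := by
    rw [List.length_map, List.length_reverse]
    have h3 := Nat.mod_two_of_bodd x.length
    rw [Nat.odd_iff.1 hx] at h3
    cases hb : x.length.bodd
    · rw [hb] at h3
      simp at h3
    · rfl
  rw [h2]
  rfl

end Fun

end TT

open TT in
theorem tt (he : EMB_Stmt) (hc : CUP_Stmt) (h1 : TWD_Stmt) (h2 : WOP_Stmt) (h3 : PRT_Stmt)
    (h4 : DLB_Stmt) : TT_Stmt := by
  intro A _ _ _ Q r hr hG hR x hx ψ g v hv hψ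
  obtain ⟨hl, hval⟩ := hψ
  set θ : A := ((tht Q r ^ (2 * evs x) : Aˣ) : A) with hθ
  set Φ := (tdata Q r).st (twd 1 x) ((tdata Q r).ap .cup 0 ψ) with hΦ
  have hst : (tdata Q r).st (tgd (true, x)) ψ = (tdata Q r).ap .cap 2 Φ := by
    rw [tgd, TData.st, VAL.st_append]
    rfl
  rw [hst]
  constructor
  · intro l hl3
    refine ap_cap_len _ 2 Φ l fun l' hl' => ?_
    refine st_crs_len _ _ (twd_crs 1 x) _ l' fun l'' hl'' => ?_
    refine ap_cup_len _ 0 ψ l'' fun l''' hl''' => hl l''' ?_
    omega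
  · intro a b c
    have hap : (tdata Q r).ap .cap 2 Φ [a, b, c] =
        ∑ p, ∑ q, (tdata Q r).cap p q * Φ [a, b, p, q, c] := rfl
    rw [hap]
    have hΦv : ∀ p q : SL r, Φ [a, b, p, q, c] =
        (if a.2 = b.2 then ((tht Q r ^ (2 * ods x) : Aˣ) : A) else 1) *
        (if b.2 = p.2 then θ else 1) *
        ((if a.2 ≠ b.2 then 1 else 0) * g p.2 q.2 c.2) *
        Wv Q r (fun t : Lb r × Lb r × Lb r => cupv Q r t.1 t.2.1 * v (t.2.2, q.1.1, c.1.1)) false
          (x.reverse.map (GP Q r)) (a.1.1, b.1.1, p.1.1) := by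
      intro p q
      have h5 := h1 A Q r hr hG 1 x (Or.inr ⟨rfl, hx⟩) ((tdata Q r).ap .cup 0 ψ) [q, c]
        (fun a b p => (if a ≠ b then 1 else 0) * g p q.2 c.2)
        (fun t : Lb r × Lb r × Lb r => cupv Q r t.1 t.2.1 * v (t.2.2, q.1.1, c.1.1))
        (by
          intro a b p
          have h6 : (tdata Q r).ap .cup 0 ψ [a, b, p, q, c] = (tdata Q r).cup a b * ψ [p, q, c] :=
            rfl
          rw [h6, hval]
          by_cases hab : a.2 = b.2
          · simp [tdata, hab]
          · simp [tdata, hab]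
            ring) a b p
      exact h5
    have hW : ∀ p q : SL r,
        Wv Q r (fun t : Lb r × Lb r × Lb r => cupv Q r t.1 t.2.1 * v (t.2.2, q.1.1, c.1.1)) false
          (x.reverse.map (GP Q r)) (a.1.1, b.1.1, p.1.1) =
        dlt Q r * ∑ a' : Lb r, ∑ b' : Lb r,
          (aeval (Im Q r) (tpoly Q r (true, x))) (a.1.1, b.1.1) (a', b') *
            (v (a', q.1.1, c.1.1) * cupv Q r b' p.1.1) := by
      intro p q
      rw [word Q r he hc h4 h2 hr hG hR x hx (fun y => v (y, q.1.1, c.1.1))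
        (fun y hy => hv y _ _ hy), Pi.smul_apply,
        ((he A (Lb r)).2.2.2.2 (Im Q r) (tpoly Q r (true, x))).1, VAL.emb12_mulVec]
      rfl
    have hlab := labels Q r hc hr
      (fun a' b' => (aeval (Im Q r) (tpoly Q r (true, x))) (a.1.1, b.1.1) (a', b'))
      (fun a' b' => v (a', b', c.1.1)) (fun a' b' h => hv a' b' _ h)
      (fun a' b' ha hb => (h3 A Q r hr hG hR).2.2.2.2 x hx (a.1.1, b.1.1) (a', b') ha hb)
    rw [Pi.smul_apply, ((he A (Lb r)).2.2.2.2 (Im Q r) (tpoly Q r (true, x))).1,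
      VAL.emb12_mulVec, ← hlab]
    have hΦw : ∀ p q : SL r, Φ [a, b, p, q, c] =
        (if a.2 = b.2 then ((tht Q r ^ (2 * ods x) : Aˣ) : A) else 1) *
        (if b.2 = p.2 then θ else 1) *
        ((if a.2 ≠ b.2 then 1 else 0) * g p.2 q.2 c.2) *
        (dlt Q r * ∑ a' : Lb r, ∑ b' : Lb r,
          (aeval (Im Q r) (tpoly Q r (true, x))) (a.1.1, b.1.1) (a', b') *
            (v (a', q.1.1, c.1.1) * cupv Q r b' p.1.1)) := by
      intro p q
      rw [hΦv, hW]
    rw [Fintype.sum_prod_type]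
    simp only [Fintype.sum_prod_type, hΦw]
    by_cases hab : b.2 = a.2
    · simp [hab]
    · have hab' : a.2 ≠ b.2 := Ne.symm hab
      rw [if_neg hab]
      simp only [if_neg hab', if_pos hab', one_mul, smul_eq_mul]
      rw [Finset.mul_sum, Finset.mul_sum]
      refine Finset.sum_congr rfl fun p _ => ?_
      rw [Fintype.sum_bool, Finset.mul_sum, Finset.mul_sum, ← Finset.sum_add_distrib]
      refine Finset.sum_congr rfl fun q _ => ?_
      simp only [Fintype.sum_bool]
      generalize (∑ a' : Lb r, ∑ b' : Lb r,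
        (aeval (Im Q r) (tpoly Q r (true, x))) (a.1.1, b.1.1) (a', b') *
          (v (a', q.1, c.1.1) * cupv Q r b' p.1)) = Z
      simp only [tdata, ne_eq, not_true_eq_false, if_false, zero_mul, zero_add, add_zero,
        Bool.not_true, Bool.not_false]
      simp only [Bool.true_eq_false, Bool.false_eq_true, not_false_eq_true, if_true]
      ring

end Pool.Agent.MT
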