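import Pool.Agent.MT.Stmts
import Pool.Agent.TB.Val

/-!
TWD: twist regions acting on the first three strands.
-/

open Polynomial
open scoped BigOperators Matrix

namespace Pool.Agent.MT

open Pool.Agent.LibH11.Sliced Pool.Agent.TB

namespace TWD

section

variable {A : Type} [CommRing A] (Q : QP A) (r : ℕ)

/-- the exponent of the factor of a crossing -/
def sgn : Bool → ℤ
  | true => 1
  | false => -1

/-- the factor of a crossing of strands with the orientations `o`, `o'` -/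
def ofac (o o' : Bool) (k : ℤ) : Aˣ := if o = o' then tht Q r ^ k else 1

theorem ofac_symm (o o' : Bool) (k : ℤ) : ofac Q r o o' k = ofac Q r o' o k := by
  unfold ofac
  simp only [eq_comm]

theorem ofac_add (o o' : Bool) (k l : ℤ) :
    ofac Q r o o' (k + l) = ofac Q r o o' k * ofac Q r o o' l := by
  unfold ofac
  split_ifs
  · rw [zpow_add]
  · simp

theorem ofac_mul_nat (o o' : Bool) (k : ℤ) (n : ℕ) :
    ofac Q r o o' k ^ n = ofac Q r o o' (k * n) := by
  unfold ofac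
  split_ifs
  · rw [zpow_mul, zpow_natCast]
  · simp

theorem ofac_zero (o o' : Bool) : ofac Q r o o' 0 = 1 := by
  unfold ofac
  simp

/-- one crossing -/
theorem RS (e : Bool) (x y : SL r) (f : SL r → SL r → A) :
    ∑ a, ∑ b, (tdata Q r).R e x y a b * f a b =
      ((ofac Q r x.2 y.2 (sgn e) : Aˣ) : A) * (VAL.cf Q r e : A) *
        ∑ a : Ev r, ∑ b : Ev r, VAL.Rx Q r e (x.1.1, y.1.1) (a.1, b.1) *
        f (a, y.2) (b, x.2) := by
  obtain ⟨x, o⟩ := x
  obtain ⟨y, o'⟩ := y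
  have hθ : tht Q r = Q.fu r ^ 2 * (Q.s ^ r)⁻¹ := rfl
  rw [Fintype.sum_prod_type, Finset.mul_sum]
  refine Finset.sum_congr rfl fun a _ => ?_
  rw [Fintype.sum_bool, Fintype.sum_prod_type, Fintype.sum_prod_type, ← Finset.sum_add_distrib,
    Finset.mul_sum]
  refine Finset.sum_congr rfl fun b _ => ?_
  rw [Fintype.sum_bool, Fintype.sum_bool]
  have h1 : Q.fu r * (Q.s ^ r)⁻¹ = tht Q r * (Q.fu r)⁻¹ := by
    rw [eq_mul_inv_iff_mul_eq, hθ, pow_two, mul_right_comm]
  have h2 : (Q.fu r)⁻¹ * Q.s ^ r = (tht Q r)⁻¹ * Q.fu r := by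
    rw [eq_inv_mul_iff_mul_eq, ← mul_assoc, ← h1]
    simp
  have h1' : ((Q.fu r * (Q.s ^ r)⁻¹ : Aˣ) : A) = ((tht Q r : Aˣ) : A) * (((Q.fu r)⁻¹ : Aˣ) : A) := by
    rw [h1, Units.val_mul]
  have h2' : (((Q.fu r)⁻¹ * Q.s ^ r : Aˣ) : A) = (((tht Q r)⁻¹ : Aˣ) : A) * ((Q.fu r : Aˣ) : A) := by
    rw [h2, Units.val_mul]
  have e1 : ∀ c d : SL r, (c.2 = o' ∧ d.2 = o) → (tdata Q r).R e (x, o) (y, o') c d =
      ((ofac Q r o o' (sgn e) : Aˣ) : A) * (VAL.cf Q r e : A) *
        VAL.Rx Q r e (x.1, y.1) (c.1.1, d.1.1) := by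
    rintro ⟨c, oc⟩ ⟨d, od⟩ ⟨hc, hd⟩
    simp only at hc hd
    subst hc
    subst hd
    cases e
    · simp only [tdata, VAL.Rx, VAL.cf, ofac, sgn, and_self, if_true]
      by_cases h : oc = od
      · subst h
        simp only [if_true, h2', zpow_neg, zpow_one]
      · rw [if_neg h, if_neg (Ne.symm h)]
        simp
    · simp only [tdata, VAL.Rx, VAL.cf, ofac, sgn, and_self, if_true]
      by_cases h : oc = od
      · subst h
        simp only [if_true, h1', zpow_one]
      · rw [if_neg h, if_neg (Ne.symm h)]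
        simp
  have e0 : ∀ c d : SL r, ¬ (c.2 = o' ∧ d.2 = o) → (tdata Q r).R e (x, o) (y, o') c d = 0 := by
    intro c d h
    exact VAL.R_ne Q r e (x, o) (y, o') c d fun h' => h ⟨h'.2.symm, h'.1.symm⟩
  cases o <;> cases o'
  · rw [e0 (a, true) (b, true) (by simp), e0 (a, true) (b, false) (by simp),
      e0 (a, false) (b, true) (by simp), e1 (a, false) (b, false) (by simp)]
    ring
  · rw [e0 (a, true) (b, true) (by simp), e1 (a, true) (b, false) (by simp),
      e0 (a, false) (b, true) (by simp), e0 (a, false) (b, false) (by simp)]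
    ring
  · rw [e0 (a, true) (b, true) (by simp), e0 (a, true) (b, false) (by simp),
      e1 (a, false) (b, true) (by simp), e0 (a, false) (b, false) (by simp)]
    ring
  · rw [e1 (a, true) (b, true) (by simp), e0 (a, true) (b, false) (by simp),
      e0 (a, false) (b, true) (by simp), e0 (a, false) (b, false) (by simp)]
    ring

/-- the relation between vectors on lists and on triples -/
def Rl (l0 : List (SL r)) (ψ : List (SL r) → A) (g : Bool → Bool → Bool → A)
    (v : Lb r × Lb r × Lb r → A) : Prop :=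
  ∀ a b c : SL r, ψ (a :: b :: c :: l0) = g a.2 b.2 c.2 * v (a.1.1, b.1.1, c.1.1)

/-- the orientation factor at the position `pos b` -/
def fac (b : Bool) (k : ℤ) (o1 o2 o3 : Bool) : A :=
  match b with
  | true => ((ofac Q r o1 o2 k : Aˣ) : A)
  | false => ((ofac Q r o2 o3 k : Aˣ) : A)

theorem fac_pow (b : Bool) (k : ℤ) (n : ℕ) (o1 o2 o3 : Bool) :
    fac Q r b k o1 o2 o3 ^ n = fac Q r b (k * n) o1 o2 o3 := by
  cases b <;> simp only [fac, ← Units.val_pow_eq_pow_val, ofac_mul_nat]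

theorem fac_add (b : Bool) (k l : ℤ) (o1 o2 o3 : Bool) :
    fac Q r b (k + l) o1 o2 o3 = fac Q r b k o1 o2 o3 * fac Q r b l o1 o2 o3 := by
  cases b <;> simp only [fac, ofac_add, Units.val_mul]

theorem step (hp : RPR_Stmt) (e b : Bool) (l0 : List (SL r)) {ψ : List (SL r) → A}
    {g : Bool → Bool → Bool → A} {v : Lb r × Lb r × Lb r → A} (h : Rl r l0 ψ g v) :
    Rl r l0 (VAL.D Q r e (VAL.pos b) ψ)
      (fun o1 o2 o3 => fac Q r b (2 * sgn e) o1 o2 o3 * g o1 o2 o3) (VAL.T Q r e b *ᵥ v) := by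
  have h22 : ∀ o o' : Bool, ((ofac Q r o o' (2 * sgn e) : Aˣ) : A) =
      ((ofac Q r o o' (sgn e) : Aˣ) : A) * ((ofac Q r o' o (sgn e) : Aˣ) : A) := by
    intro o o'
    rw [two_mul, ofac_add, ofac_symm Q r o' o, Units.val_mul]
  intro a b' c
  cases b
  · rw [VAL.T, Matrix.smul_mulVec, Pi.smul_apply, ← Matrix.mulVec_mulVec]
    simp only [VAL.emb]
    rw [VAL.emb23_mulVec]
    simp only [VAL.emb23_mulVec]
    show (tdata Q r).ap (.crs e) 1 ((tdata Q r).ap (.crs e) 1 ψ) (a :: b' :: c :: l0) = _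
    have h1 := RS Q r e b' c (fun x y => (tdata Q r).ap (.crs e) 1 ψ (a :: x :: y :: l0))
    have h0 : (tdata Q r).ap (.crs e) 1 ((tdata Q r).ap (.crs e) 1 ψ) (a :: b' :: c :: l0) =
      ∑ x, ∑ y, (tdata Q r).R e b' c x y * (tdata Q r).ap (.crs e) 1 ψ (a :: x :: y :: l0) := rfl
    rw [h0, h1]
    have h2 : ∀ x y : Ev r, (tdata Q r).ap (.crs e) 1 ψ (a :: (x, c.2) :: (y, b'.2) :: l0) =
        ((ofac Q r c.2 b'.2 (sgn e) : Aˣ) : A) * (VAL.cf Q r e : A) * g a.2 b'.2 c.2 *
          ∑ x' : Lb r, ∑ y' : Lb r, VAL.Rx Q r e (x.1, y.1) (x', y') * v (a.1.1, x', y') := by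
      intro x y
      have h3 := RS Q r e (x, c.2) (y, b'.2) (fun x y => ψ (a :: x :: y :: l0))
      have h4 : (tdata Q r).ap (.crs e) 1 ψ (a :: (x, c.2) :: (y, b'.2) :: l0) =
        ∑ x', ∑ y', (tdata Q r).R e (x, c.2) (y, b'.2) x' y' * ψ (a :: x' :: y' :: l0) := rfl
      rw [h4, h3, ← VAL.ES Q r hp e x.1 y.1 x.2 y.2 (fun x' y' => v (a.1.1, x', y'))]
      simp only [h a _ _, Finset.mul_sum]
      refine Finset.sum_congr rfl fun x' _ => Finset.sum_congr rfl fun y' _ => ?_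
      ring
    simp only [h2]
    rw [← VAL.ES Q r hp e b'.1.1 c.1.1 b'.1.2 c.1.2]
    simp only [fac, h22, smul_eq_mul, pow_two, Finset.mul_sum]
    refine Finset.sum_congr rfl fun x _ => Finset.sum_congr rfl fun y _ =>
      Finset.sum_congr rfl fun x' _ => Finset.sum_congr rfl fun y' _ => ?_
    ring
  · rw [VAL.T, Matrix.smul_mulVec, Pi.smul_apply, ← Matrix.mulVec_mulVec]
    simp only [VAL.emb]
    rw [VAL.emb12_mulVec]
    simp only [VAL.emb12_mulVec]
    show (tdata Q r).ap (.crs e) 0 ((tdata Q r).ap (.crs e) 0 ψ) (a :: b' :: c :: l0) = _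
    have h1 := RS Q r e a b' (fun x y => (tdata Q r).ap (.crs e) 0 ψ (x :: y :: c :: l0))
    have h0 : (tdata Q r).ap (.crs e) 0 ((tdata Q r).ap (.crs e) 0 ψ) (a :: b' :: c :: l0) =
      ∑ x, ∑ y, (tdata Q r).R e a b' x y * (tdata Q r).ap (.crs e) 0 ψ (x :: y :: c :: l0) := rfl
    rw [h0, h1]
    have h2 : ∀ x y : Ev r, (tdata Q r).ap (.crs e) 0 ψ ((x, b'.2) :: (y, a.2) :: c :: l0) =
        ((ofac Q r b'.2 a.2 (sgn e) : Aˣ) : A) * (VAL.cf Q r e : A) * g a.2 b'.2 c.2 *
          ∑ x' : Lb r, ∑ y' : Lb r, VAL.Rx Q r e (x.1, y.1) (x', y') * v (x', y', c.1.1) := by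
      intro x y
      have h3 := RS Q r e (x, b'.2) (y, a.2) (fun x y => ψ (x :: y :: c :: l0))
      have h4 : (tdata Q r).ap (.crs e) 0 ψ ((x, b'.2) :: (y, a.2) :: c :: l0) =
        ∑ x', ∑ y', (tdata Q r).R e (x, b'.2) (y, a.2) x' y' * ψ (x' :: y' :: c :: l0) := rfl
      rw [h4, h3, ← VAL.ES Q r hp e x.1 y.1 x.2 y.2 (fun x' y' => v (x', y', c.1.1))]
      simp only [h _ _ c, Finset.mul_sum]
      refine Finset.sum_congr rfl fun x' _ => Finset.sum_congr rfl fun y' _ => ?_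
      ring
    simp only [h2]
    rw [← VAL.ES Q r hp e a.1.1 b'.1.1 a.1.2 b'.1.2]
    simp only [fac, h22, smul_eq_mul, pow_two, Finset.mul_sum]
    refine Finset.sum_congr rfl fun x _ => Finset.sum_congr rfl fun y _ =>
      Finset.sum_congr rfl fun x' _ => Finset.sum_congr rfl fun y' _ => ?_
    ring

theorem Rl_congr {l0 : List (SL r)} {ψ : List (SL r) → A} {g g' : Bool → Bool → Bool → A}
    {v : Lb r × Lb r × Lb r → A} (h : Rl r l0 ψ g v) (hg : ∀ o1 o2 o3, g o1 o2 o3 = g' o1 o2 o3) :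
    Rl r l0 ψ g' v := by
  intro a b c
  rw [h a b c, hg]

theorem steps (hp : RPR_Stmt) (e b : Bool) (n : ℕ) (l0 : List (SL r)) {ψ : List (SL r) → A}
    {g : Bool → Bool → Bool → A} {v : Lb r × Lb r × Lb r → A} (h : Rl r l0 ψ g v) :
    Rl r l0 ((tdata Q r).st (List.replicate (2 * n) (Kind.crs e, VAL.pos b)) ψ)
      (fun o1 o2 o3 => fac Q r b (2 * sgn e) o1 o2 o3 ^ n * g o1 o2 o3)
      ((VAL.T Q r e b) ^ n *ᵥ v) := by
  induction n generalizing ψ g v with
  | zero =>
    rw [pow_zero, Matrix.one_mulVec]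
    refine Rl_congr r h fun o1 o2 o3 => ?_
    rw [pow_zero, one_mul]
  | succ n ih =>
    have h1 := ih (step Q r hp e b l0 h)
    rw [pow_succ, ← Matrix.mulVec_mulVec]
    refine Rl_congr r h1 fun o1 o2 o3 => ?_
    rw [pow_succ, mul_assoc]

/-- the factor of a word -/
def wfac : Bool → List ℤ → Bool → Bool → Bool → A
  | _, [], _, _, _ => 1
  | b, a :: l, o1, o2, o3 => wfac (!b) l o1 o2 o3 * fac Q r b (2 * a) o1 o2 o3

theorem words (he : EMB_Stmt) (hs : SPEC_Stmt) (hf : FC_Stmt) (hp : RPR_Stmt) (hG : Q.Gen r)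
    (x : List ℤ) (b : Bool) (l0 : List (SL r)) {ψ : List (SL r) → A}
    {g : Bool → Bool → Bool → A} {v : Lb r × Lb r × Lb r → A} (h : Rl r l0 ψ g v) :
    Rl r l0 ((tdata Q r).st (twd (VAL.pos b) x) ψ)
      (fun o1 o2 o3 => wfac Q r b x o1 o2 o3 * g o1 o2 o3) (VAL.Fw Q r b x v) := by
  induction x generalizing b ψ g v with
  | nil =>
    refine Rl_congr r h fun o1 o2 o3 => ?_
    rw [wfac, one_mul]
  | cons a l ih =>
    rw [twd, VAL.st_append, VAL.pos_not, VAL.Fw]
    have h1 : Rl r l0 ((tdata Q r).st (tw (VAL.pos b) a) ψ)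
        (fun o1 o2 o3 => fac Q r b (2 * a) o1 o2 o3 * g o1 o2 o3)
        (aeval (VAL.Iop Q r b) (VAL.P Q r a) v) := by
      rw [VAL.aeval_Iop, VAL.region Q r he hs hf hG, tw]
      refine Rl_congr r (steps Q r hp _ b a.natAbs l0 h) fun o1 o2 o3 => ?_
      rw [fac_pow]
      congr 2
      by_cases ha : 0 < a
      · rw [decide_eq_true ha, sgn]
        omega
      · rw [decide_eq_false ha, sgn]
        omega
    refine Rl_congr r (ih (!b) h1) fun o1 o2 o3 => ?_
    rw [wfac, mul_assoc]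

theorem evs_cons (a : ℤ) (l : List ℤ) : evs (a :: l) = a + ods l := by
  cases l with
  | nil => simp [evs, ods]
  | cons b l => rfl

theorem ods_cons (a : ℤ) (l : List ℤ) : ods (a :: l) = evs l := rfl

theorem wfac_eq (x : List ℤ) (b o1 o2 o3 : Bool) :
    wfac Q r b x o1 o2 o3 =
      ((ofac Q r o1 o2 (2 * if b then evs x else ods x) : Aˣ) : A) *
        ((ofac Q r o2 o3 (2 * if b then ods x else evs x) : Aˣ) : A) := by
  induction x generalizing b with
  | nil => cases b <;> simp [wfac, evs, ods, ofac_zero]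
  | cons a l ih =>
    rw [wfac, ih]
    cases b
    · simp only [Bool.not_false, if_true, fac, evs_cons, ods_cons, Bool.false_eq_true, if_false,
        mul_add, ofac_add, Units.val_mul]
      ring
    · simp only [Bool.not_true, if_true, fac, evs_cons, ods_cons, Bool.false_eq_true, if_false,
        mul_add, ofac_add, Units.val_mul]
      ring

theorem Wv_eq (v : Lb r × Lb r × Lb r → A) (b : Bool) (l : List A[X]) :
    Wv Q r v b l = VAL.Wg Q r v b l := by
  induction l generalizing b with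
  | nil => cases b <;> rfl
  | cons p l ih =>
    cases b
    · rw [Wv, VAL.Wg, VAL.aeval_Iop, ih]
      rfl
    · rw [Wv, VAL.Wg, VAL.aeval_Iop, ih]
      rfl

end

end TWD

open TWD in
theorem twd (_hb : BRK_Stmt) (he : EMB_Stmt) (hs : SPEC_Stmt) (hf : FC_Stmt) (hp : RPR_Stmt) :
    TWD_Stmt := by
  intro A _ Q r _ hG p x hpx ψ l0 g v h
  have key : ∀ b : Bool, VAL.pos b = p → xor b (!x.length.bodd) = false →
      ∀ a b' c : SL r, (tdata Q r).st (TB.twd p x) ψ (a :: b' :: c :: l0) =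
        (if a.2 = b'.2 then ((tht Q r ^ (2 * if b then evs x else ods x) : Aˣ) : A) else 1) *
        (if b'.2 = c.2 then ((tht Q r ^ (2 * if b then ods x else evs x) : Aˣ) : A) else 1) *
        g a.2 b'.2 c.2 * Wv Q r v false (x.reverse.map (GP Q r)) (a.1.1, b'.1.1, c.1.1) := by
    intro b hbp hb a b' c
    have h1 := words Q r he hs hf hp hG x b l0 h a b' c
    beta_reduce at h1
    rw [hbp, wfac_eq, VAL.Fw_eq, hb] at h1
    rw [h1, Wv_eq]
    have h2 : ∀ (o o' : Bool) (k : ℤ), ((ofac Q r o o' k : Aˣ) : A) =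
        if o = o' then ((tht Q r ^ k : Aˣ) : A) else 1 := by
      intro o o' k
      unfold ofac
      split_ifs <;> rfl
    rw [h2, h2]
    rfl
  intro a b' c
  rcases hpx with ⟨hp0, hx⟩ | ⟨hp1, hx⟩
  · have h3 := key true hp0.symm (by
      have h2 := Nat.mod_two_of_bodd x.length
      rw [Nat.even_iff.1 hx] at h2
      cases hb : x.length.bodd
      · rfl
      · rw [hb] at h2
        simp at h2) a b' c
    rw [h3]
    simp only [if_pos hp0, if_true]
  · have h3 := key false hp1.symm (by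
      have h2 := Nat.mod_two_of_bodd x.length
      rw [Nat.odd_iff.1 hx] at h2
      cases hb : x.length.bodd
      · rw [hb] at h2
        simp at h2
      · rfl) a b' c
    have hp0 : ¬ p = 0 := by omega
    rw [h3]
    simp only [if_neg hp0, Bool.false_eq_true, if_false]

end Pool.Agent.MT
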