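import Pool.Agent.MT.Stmts
import Pool.Agent.TB.Val

/-!
VALM: the value of the functor on the Montesinos diagrams.
-/

open Polynomial
open scoped BigOperators Matrix

namespace Pool.Agent.MT

open Pool.Agent.LibH11.Sliced Pool.Agent.TB

namespace VALM

variable {A : Type} [CommRing A] (Q : QP A) (r : ℕ)

/-- orientations before the tangle with the flag `true` -/
def gA (m : ℤ) (a b c : Bool) : A :=
  if a = true ∧ c = !b then (if b = true then ((tht Q r ^ m : Aˣ) : A) else 1) else 0

/-- orientations after the tangle with the flag `true` -/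
def gB (m : ℤ) (a b c : Bool) : A :=
  if a ≠ b ∧ c = true then (if b = true then ((tht Q r ^ m : Aˣ) : A) else 1) else 0

theorem RelM.congr {ψ : List (SL r) → A} {g g' : Bool → Bool → Bool → A}
    {v : Lb r × Lb r × Lb r → A} (h : RelM r ψ g v) (hg : ∀ a b c, g a b c = g' a b c) :
    RelM r ψ g' v :=
  ⟨h.1, fun a b c => by rw [h.2, hg]⟩

/-- the state before the tangle with the flag `true` -/
structure PA (ψ : List (SL r) → A) (m : ℤ) (v : Lb r × Lb r × Lb r → A) : Prop where
  rel : RelM r ψ (gA Q r m) v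
  p1 : ∀ a b c : Lb r, a.par = true → v (a, b, c) = 0
  p2 : ∀ a b c : Lb r, b.par ≠ c.par → v (a, b, c) = 0

/-- the state after the tangle with the flag `true` -/
structure PB (ψ : List (SL r) → A) (m : ℤ) (v : Lb r × Lb r × Lb r → A) : Prop where
  rel : RelM r ψ (gB Q r m) v
  p3 : ∀ a b c : Lb r, c.par = true → v (a, b, c) = 0

theorem aev (he : EMB_Stmt) (P : A[X]) (v : Lb r × Lb r × Lb r → A) (a b c : Lb r) :
    (aeval (emb12 (Im Q r)) P *ᵥ v) (a, b, c) =
      ∑ a', ∑ b', (aeval (Im Q r) P) (a, b) (a', b') * v (a', b', c) := by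
  rw [((he A (Lb r)).2.2.2.2 (Im Q r) P).1]
  exact VAL.emb12_mulVec _ v a b c

theorem aev_mul (P R : A[X]) (v : Lb r × Lb r × Lb r → A) :
    aeval (emb12 (Im Q r)) P *ᵥ (aeval (emb12 (Im Q r)) R *ᵥ v) =
      aeval (emb12 (Im Q r)) (P * R) *ᵥ v := by
  rw [map_mul, Matrix.mulVec_mulVec]

theorem ext3 {v w : Lb r × Lb r × Lb r → A} (h : ∀ a b c : Lb r, v (a, b, c) = w (a, b, c)) :
    v = w := by
  funext t
  obtain ⟨a, b, c⟩ := t
  exact h a b c

/-- the start -/
theorem start (hr : Even r) (hc : CUP_Stmt) :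
    PA Q r ((tdata Q r).ap .cup 1 (fun l => if l = [s0 r] then 1 else 0)) 0 (Omf Q r (del r)) := by
  have hcc := hc A Q r hr
  refine ⟨⟨?_, ?_⟩, ?_, ?_⟩
  · intro l hl
    match l with
    | [] => rfl
    | [a] => rfl
    | [a, b] => rfl
    | [a, b, c] => simp at hl
    | a :: b :: c :: d :: l =>
      show (tdata Q r).cup b c * (if a :: d :: l = [s0 r] then (1 : A) else 0) = 0
      rw [if_neg (by simp), mul_zero]
  · intro a b c
    show (tdata Q r).cup b c * (if [a] = [s0 r] then (1 : A) else 0) = _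
    simp only [gA, zpow_zero, Units.val_one, ite_self, Omf, del]
    by_cases ha : a = s0 r
    · subst ha
      have e1 : ((s0 r).2 = true) := rfl
      have e2 : ((s0 r).1.1 = Lb.zero r) := rfl
      rw [if_pos rfl, mul_one, e1, e2, if_pos rfl, one_mul]
      simp only [tdata, true_and]
      obtain ⟨b1, b2⟩ := b
      obtain ⟨c1, c2⟩ := c
      cases b2 <;> cases c2 <;> simp
    · rw [if_neg (by simpa using ha), mul_zero]
      by_cases h1 : a.2 = true
      · have h2 : a.1.1 ≠ Lb.zero r := by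
          intro h2
          apply ha
          refine Prod.ext (Subtype.ext ?_) ?_
          · exact h2
          · exact h1
        rw [if_neg h2, zero_mul, mul_zero]
      · rw [if_neg (fun h => h1 h.1), zero_mul]
  · intro a b c ha
    simp only [Omf, del]
    rw [if_neg, zero_mul]
    intro h
    rw [h, Lb.par_zero] at ha
    exact Bool.noConfusion ha
  · intro a b c hbc
    simp only [Omf]
    have h1 : c ≠ b.compl := by
      intro h
      rw [h, hcc.2.2.2.2] at hbc
      exact hbc rfl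
    rw [(hcc.1 b c h1).1, mul_zero]

/-- one tangle with the flag `false` before the flag `true` -/
theorem stepA [IsDomain A] [CharZero A] (he : EMB_Stmt) (h1 : TF_Stmt) (h4 : PRT_Stmt)
    (hr : Even r) (hG : Q.Gen r) (hR : Q.Reg r) {x : List ℤ} (hx : Even x.length)
    {ψ : List (SL r) → A} {m : ℤ} {v : Lb r × Lb r × Lb r → A} (h : PA Q r ψ m v) :
    PA Q r ((tdata Q r).st (tgd (false, x)) ψ) (2 * evs x + m)
      (aeval (emb12 (Im Q r)) (tpoly Q r (false, x)) *ᵥ v) := by
  have hp := (h4 A Q r hr hG hR).1 x hx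
  refine ⟨RelM.congr r (h1 A Q r hr hG hR x hx ψ _ v h.rel) ?_, ?_, ?_⟩
  · intro a b c
    simp only [gA]
    rw [zpow_add]
    cases a <;> cases b <;> cases c <;> simp
  · intro a b c ha
    rw [aev Q r he]
    refine Finset.sum_eq_zero fun a' _ => Finset.sum_eq_zero fun b' _ => ?_
    by_cases h5 : a.par = a'.par
    · rw [h.p1 a' b' c (by rw [← h5]; exact ha), mul_zero]
    · rw [hp (a, b) (a', b') (Or.inl h5), zero_mul]
  · intro a b c hbc
    rw [aev Q r he]
    refine Finset.sum_eq_zero fun a' _ => Finset.sum_eq_zero fun b' _ => ?_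
    by_cases h5 : b.par = b'.par
    · rw [h.p2 a' b' c (by rw [← h5]; exact hbc), mul_zero]
    · rw [hp (a, b) (a', b') (Or.inr h5), zero_mul]

/-- one tangle with the flag `false` after the flag `true` -/
theorem stepB [IsDomain A] [CharZero A] (he : EMB_Stmt) (h1 : TF_Stmt)
    (hr : Even r) (hG : Q.Gen r) (hR : Q.Reg r) {x : List ℤ} (hx : Even x.length)
    {ψ : List (SL r) → A} {m : ℤ} {v : Lb r × Lb r × Lb r → A} (h : PB Q r ψ m v) :
    PB Q r ((tdata Q r).st (tgd (false, x)) ψ) m
      (aeval (emb12 (Im Q r)) (tpoly Q r (false, x)) *ᵥ v) := by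
  refine ⟨RelM.congr r (h1 A Q r hr hG hR x hx ψ _ v h.rel) ?_, ?_⟩
  · intro a b c
    simp only [gB]
    cases a <;> cases b <;> cases c <;> simp
  · intro a b c hcp
    rw [aev Q r he]
    refine Finset.sum_eq_zero fun a' _ => Finset.sum_eq_zero fun b' _ => ?_
    rw [h.p3 a' b' c hcp, mul_zero]

/-- the tangle with the flag `true` -/
theorem stepT [IsDomain A] [CharZero A] (he : EMB_Stmt) (h2 : TT_Stmt) (h4 : PRT_Stmt)
    (hr : Even r) (hG : Q.Gen r) (hR : Q.Reg r) {x : List ℤ} (hx : Odd x.length)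
    {ψ : List (SL r) → A} {m : ℤ} {v : Lb r × Lb r × Lb r → A} (h : PA Q r ψ m v) :
    PB Q r ((tdata Q r).st (tgd (true, x)) ψ) (2 * evs x)
      (dlt Q r • (aeval (emb12 (Im Q r)) (tpoly Q r (true, x)) *ᵥ v)) := by
  have hp := (h4 A Q r hr hG hR).2.2.2.2 x hx
  refine ⟨RelM.congr r (h2 A Q r hr hG hR x hx ψ _ v h.p1 h.rel) ?_, ?_⟩
  · intro a b c
    simp only [gA, gB, Fintype.sum_bool]
    cases a <;> cases b <;> cases c <;> simp
  · intro a b c hcp
    rw [Pi.smul_apply, aev Q r he, smul_eq_mul]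
    rw [Finset.sum_eq_zero, mul_zero]
    intro a' _
    refine Finset.sum_eq_zero fun b' _ => ?_
    by_cases h5 : a'.par = true
    · rw [h.p1 a' b' c h5, mul_zero]
    · by_cases h6 : b'.par = c.par
      · rw [hp (a, b) (a', b') (by simpa using h5) (by rw [← hcp]; exact h6), zero_mul]
      · rw [h.p2 a' b' c h6, mul_zero]

theorem listA [IsDomain A] [CharZero A] (he : EMB_Stmt) (h1 : TF_Stmt) (h4 : PRT_Stmt)
    (hr : Even r) (hG : Q.Gen r) (hR : Q.Reg r) : ∀ (ts : List (Bool × List ℤ)),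
    (∀ t ∈ ts, t.1 = false ∧ Even t.2.length) → ∀ (ψ : List (SL r) → A) (m : ℤ)
    (v : Lb r × Lb r × Lb r → A), PA Q r ψ m v →
    PA Q r ((tdata Q r).st ((ts.map tgd).flatten) ψ) (2 * (ts.map fun t => evs t.2).sum + m)
      (aeval (emb12 (Im Q r)) (ts.map (tpoly Q r)).prod *ᵥ v) := by
  intro ts
  induction ts with
  | nil =>
    intro _ ψ m v h
    simpa [TData.st] using h
  | cons t ts ih =>
    intro hts ψ m v h
    obtain ⟨f, x⟩ := t
    have ht := hts (f, x) List.mem_cons_self
    simp only at ht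
    obtain ⟨rfl, hx⟩ := ht
    rw [List.map_cons, List.flatten_cons, VAL.st_append, List.map_cons, List.sum_cons,
      List.map_cons, List.prod_cons]
    have h5 := stepA Q r he h1 h4 hr hG hR hx h
    have h6 := ih (fun s hs => hts s (List.mem_cons_of_mem _ hs)) _ _ _ h5
    rw [aev_mul, mul_comm (List.map (tpoly Q r) ts).prod] at h6
    have e : 2 * (List.map (fun t : Bool × List ℤ => evs t.2) ts).sum + (2 * evs x + m) =
        2 * (evs x + (List.map (fun t : Bool × List ℤ => evs t.2) ts).sum) + m := by ring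
    rw [e] at h6
    exact h6

theorem listB [IsDomain A] [CharZero A] (he : EMB_Stmt) (h1 : TF_Stmt)
    (hr : Even r) (hG : Q.Gen r) (hR : Q.Reg r) : ∀ (ts : List (Bool × List ℤ)),
    (∀ t ∈ ts, t.1 = false ∧ Even t.2.length) → ∀ (ψ : List (SL r) → A) (m : ℤ)
    (v : Lb r × Lb r × Lb r → A), PB Q r ψ m v →
    PB Q r ((tdata Q r).st ((ts.map tgd).flatten) ψ) m
      (aeval (emb12 (Im Q r)) (ts.map (tpoly Q r)).prod *ᵥ v) := by
  intro ts
  induction ts with
  | nil =>
    intro _ ψ m v h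
    simpa [TData.st] using h
  | cons t ts ih =>
    intro hts ψ m v h
    obtain ⟨f, x⟩ := t
    have ht := hts (f, x) List.mem_cons_self
    simp only at ht
    obtain ⟨rfl, hx⟩ := ht
    rw [List.map_cons, List.flatten_cons, VAL.st_append, List.map_cons, List.prod_cons]
    have h5 := stepB Q r he h1 hr hG hR hx h
    have h6 := ih (fun s hs => hts s (List.mem_cons_of_mem _ hs)) _ _ _ h5
    rw [aev_mul, mul_comm (List.map (tpoly Q r) ts).prod] at h6
    exact h6

/-- the closure -/
theorem closure (hc : CUP_Stmt) (h5 : CLC_Stmt) [IsDomain A] (hr : Even r) (hG : Q.Gen r)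
    (hR : Q.Reg r) (Ψ : List (SL r) → A) (g : Bool → Bool → Bool → A)
    (v : Lb r × Lb r × Lb r → A) (h : RelM r Ψ g v)
    (hz : ∀ b c : Lb r, b.par = true → c.par = true → v (Lb.zero r, b, c) = 0)
    (k : A) (X : A[X]) (hv : v = k • (aeval (emb12 (Im Q r)) X *ᵥ Omf Q r (del r))) :
    (tdata Q r).st [(Kind.cap, 1)] Ψ [s0 r] =
      (g true true false + g true false true) * (k * (dlt Q r * cval Q r X)) := by
  have hcc := hc A Q r hr
  have e1 : (tdata Q r).st [(Kind.cap, 1)] Ψ [s0 r] =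
      ∑ a, ∑ b, (tdata Q r).cap a b * Ψ [s0 r, a, b] := rfl
  rw [e1]
  have e2 : ∑ a, ∑ b, (tdata Q r).cap a b * Ψ [s0 r, a, b] =
      (g true true false + g true false true) *
        ∑ a : Ev r, ∑ b : Ev r, capv Q r a.1 b.1 * v (Lb.zero r, a.1, b.1) := by
    rw [Fintype.sum_prod_type, Finset.mul_sum]
    refine Finset.sum_congr rfl fun a _ => ?_
    rw [Fintype.sum_bool, Fintype.sum_prod_type, Fintype.sum_prod_type,
      ← Finset.sum_add_distrib, Finset.mul_sum]
    refine Finset.sum_congr rfl fun b _ => ?_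
    rw [Fintype.sum_bool, Fintype.sum_bool]
    simp only [h.2]
    simp only [tdata, s0]
    simp
    ring
  have e3 : ∑ a : Ev r, ∑ b : Ev r, capv Q r a.1 b.1 * v (Lb.zero r, a.1, b.1) =
      ∑ a : Lb r, ∑ b : Lb r, capv Q r a b * v (Lb.zero r, a, b) := by
    have h7 : ∀ a : Ev r, ∑ b : Ev r, capv Q r a.1 b.1 * v (Lb.zero r, a.1, b.1) =
        ∑ b : Lb r, capv Q r a.1 b * v (Lb.zero r, a.1, b) := by
      intro a
      refine VAL.sum_Ev r (fun b => capv Q r a.1 b * v (Lb.zero r, a.1, b)) ?_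
      intro b hb
      have h8 : b ≠ a.1.compl := by
        intro h9
        rw [h9, hcc.2.2.2.2, a.2] at hb
        exact Bool.noConfusion hb
      rw [(hcc.1 a.1 b h8).2, zero_mul]
    simp only [h7]
    refine VAL.sum_Ev r (fun a => ∑ b : Lb r, capv Q r a b * v (Lb.zero r, a, b)) ?_
    intro a ha
    refine Finset.sum_eq_zero fun b _ => ?_
    by_cases h8 : b = a.compl
    · rw [hz a b ha (by rw [h8, hcc.2.2.2.2]; exact ha), mul_zero]
    · rw [(hcc.1 a b h8).2, zero_mul]
  rw [e2, e3]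
  congr 1
  have h6 := (h5 A Q r hr hG hR).1 X
  rw [← h6, Finset.mul_sum]
  refine Finset.sum_congr rfl fun a _ => ?_
  rw [Finset.mul_sum]
  refine Finset.sum_congr rfl fun b _ => ?_
  rw [hv, Pi.smul_apply, smul_eq_mul]
  ring

end VALM

open VALM in
theorem valm (he : EMB_Stmt) (hc : CUP_Stmt) (h1 : TF_Stmt) (h2 : TT_Stmt) (h3 : HT_Stmt)
    (h4 : PRT_Stmt) (h5 : CLC_Stmt) : VALM_Stmt := by
  intro A _ _ _ Q r hr hG hR ts e hPF
  obtain ⟨hf, ht, hpar⟩ := hPF
  have hs := start Q r hr hc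
  set ψ1 := (tdata Q r).ap .cup 1 (fun l => if l = [s0 r] then (1 : A) else 0) with hψ1
  have hJ : (tdata Q r).J (s0 r) (mdiag ts e) = (tdata Q r).st [(Kind.cap, 1)]
      ((tdata Q r).st (htd e) ((tdata Q r).st ((ts.map tgd).flatten) ψ1)) [s0 r] := by
    unfold TData.J mdiag
    rw [TData.st, VAL.st_append, VAL.st_append]
  rw [hJ]
  rcases hpar with ⟨hn, hodd⟩ | ⟨hn, heven⟩
  · -- no flag `true`
    have hall : ∀ t ∈ ts, t.1 = false ∧ Even t.2.length := by
      intro t htt
      have h6 : t.1 = false := by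
        unfold ntr at hn
        rw [List.countP_eq_zero] at hn
        simpa using hn t htt
      exact ⟨h6, hf t htt h6⟩
    have hA := listA Q r he h1 h4 hr hG hR ts hall ψ1 0 _ hs
    have hne : ¬ Even e := Int.not_even_iff_odd.2 hodd
    have hH := h3 A Q r hr hG e _ _ _ hA.rel
    set v1 := aeval (emb12 (Im Q r)) (ts.map (tpoly Q r)).prod *ᵥ Omf Q r (del r) with hv1
    have hz : ∀ b c : Lb r, b.par = true → c.par = true →
        (aeval (emb12 (Im Q r)) (FP Q r e) *ᵥ v1) (Lb.zero r, b, c) = 0 := by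
      intro b c hb _
      rw [aev Q r he]
      refine Finset.sum_eq_zero fun a' _ => Finset.sum_eq_zero fun b' _ => ?_
      by_cases h6 : a'.par = true
      · rw [hA.p1 a' b' c h6, mul_zero]
      · rw [(h4 A Q r hr hG hR).2.2.1 e hodd (Lb.zero r, b) (a', b')
          (Or.inr (by
            show b.par ≠ a'.par
            rw [hb]
            exact fun h => h6 h.symm)), zero_mul]
    have hv : aeval (emb12 (Im Q r)) (FP Q r e) *ᵥ v1 = (1 : A) •
        (aeval (emb12 (Im Q r)) (FP Q r e * (ts.map (tpoly Q r)).prod) *ᵥ Omf Q r (del r)) := by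
      rw [one_smul, hv1, aev_mul]
    rw [closure Q r hc h5 hr hG hR _ _ _ hH hz 1 _ hv]
    have e1 : par ts e = e + 2 * (ts.map fun t => evs t.2).sum := by
      unfold par
      rw [if_pos hn]
    unfold Ew Mval
    rw [e1, hn, zpow_add]
    simp only [gA, if_neg hne]
    simp
    ring
  · -- one flag `true`
    have hsplit : ∃ (l1 l2 : List (Bool × List ℤ)) (x : List ℤ), ts = l1 ++ (true, x) :: l2 ∧
        (∀ t ∈ l1, t.1 = false) ∧ ∀ t ∈ l2, t.1 = false := by
      clear hψ1 hJ hf ht
      induction ts with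
      | nil => simp [ntr] at hn
      | cons t ts ih =>
        obtain ⟨f, x⟩ := t
        cases f
        · have hn' : ntr ts = 1 := by simpa [ntr] using hn
          obtain ⟨l1, l2, y, h6, h7, h8⟩ := ih hn'
          refine ⟨(false, x) :: l1, l2, y, by rw [h6]; rfl, ?_, h8⟩
          intro t ht
          rcases List.mem_cons.1 ht with rfl | ht
          · rfl
          · exact h7 t ht
        · have hn' : ntr ts = 0 := by simpa [ntr] using hn
          refine ⟨[], ts, x, rfl, by simp, ?_⟩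
          intro t ht
          unfold ntr at hn'
          rw [List.countP_eq_zero] at hn'
          simpa using hn' t ht
    obtain ⟨l1, l2, x, rfl, hl1, hl2⟩ := hsplit
    have hx : Odd x.length := ht (true, x) (by simp) rfl
    have hA := listA Q r he h1 h4 hr hG hR l1
      (fun t htt => ⟨hl1 t htt, hf t (by simp [htt]) (hl1 t htt)⟩) ψ1 0 _ hs
    have hT := stepT Q r he h2 h4 hr hG hR hx hA
    have hB := listB Q r he h1 hr hG hR l2
      (fun t htt => ⟨hl2 t htt, hf t (by simp [htt]) (hl2 t htt)⟩) _ _ _ hT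
    have est : (tdata Q r).st (((l1 ++ (true, x) :: l2).map tgd).flatten) ψ1 =
        (tdata Q r).st ((l2.map tgd).flatten) ((tdata Q r).st (tgd (true, x))
          ((tdata Q r).st ((l1.map tgd).flatten) ψ1)) := by
      rw [List.map_append, List.flatten_append, List.map_cons, List.flatten_cons,
        VAL.st_append, VAL.st_append]
    rw [est]
    have hH := h3 A Q r hr hG e _ _ _ hB.rel
    set v1 := aeval (emb12 (Im Q r)) (l2.map (tpoly Q r)).prod *ᵥ (dlt Q r •
      (aeval (emb12 (Im Q r)) (tpoly Q r (true, x)) *ᵥ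
        (aeval (emb12 (Im Q r)) (l1.map (tpoly Q r)).prod *ᵥ Omf Q r (del r)))) with hv1
    have hz : ∀ b c : Lb r, b.par = true → c.par = true →
        (aeval (emb12 (Im Q r)) (FP Q r e) *ᵥ v1) (Lb.zero r, b, c) = 0 := by
      intro b c _ hcp
      rw [aev Q r he]
      refine Finset.sum_eq_zero fun a' _ => Finset.sum_eq_zero fun b' _ => ?_
      rw [hB.p3 a' b' c hcp, mul_zero]
    have hv : aeval (emb12 (Im Q r)) (FP Q r e) *ᵥ v1 = dlt Q r •
        (aeval (emb12 (Im Q r)) (FP Q r e * ((l1 ++ (true, x) :: l2).map (tpoly Q r)).prod) *ᵥ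
          Omf Q r (del r)) := by
      rw [hv1, Matrix.mulVec_smul, Matrix.mulVec_smul, aev_mul, aev_mul, aev_mul]
      congr 3
      rw [List.map_append, List.prod_append, List.map_cons, List.prod_cons]
      ring
    rw [closure Q r hc h5 hr hG hR _ _ _ hH hz (dlt Q r) _ hv]
    have e1 : par (l1 ++ (true, x) :: l2) e = 0 := by
      unfold par
      rw [if_neg (by rw [hn]; simp)]
    unfold Ew Mval
    rw [e1, hn]
    simp only [gB, if_pos heven]
    simp
    ring

end Pool.Agent.MT
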