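import Pool.Agent.MT.Stmts
import Pool.Agent.TB.Unv
import Pool.Agent.TB.Val

/-!
WOP: words of polynomials acting on the vectors `φ ⊗ cup`.
-/

open Polynomial
open scoped BigOperators Matrix

namespace Pool.Agent.MT

open Pool.Agent.LibH11.Sliced Pool.Agent.TB

namespace WOP

section

variable {A : Type} [CommRing A] (Q : QP A) (r : ℕ)

theorem I1_Omf (ht : TOP_Stmt) (φ : Lb r → A) :
    VAL.Iop Q r false (Omf Q r φ) = Q.lam r • Omf Q r φ := by
  funext t
  obtain ⟨a, b, c⟩ := t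
  rw [VAL.Iop_apply, Pi.smul_apply]
  show (emb23 (Im Q r) *ᵥ Omf Q r φ) (a, b, c) = _
  rw [VAL.emb23_mulVec]
  have h := (ht A Q r).1 b c
  have h1 : ∑ b', ∑ c', Im Q r (b, c) (b', c') * Omf Q r φ (a, b', c') =
      φ a * ∑ b', ∑ c', Im Q r (b, c) (b', c') * cupv Q r b' c' := by
    rw [Finset.mul_sum]
    refine Finset.sum_congr rfl fun b' _ => ?_
    rw [Finset.mul_sum]
    refine Finset.sum_congr rfl fun c' _ => ?_
    simp only [Omf]
    ring
  rw [h1, h]
  simp only [Omf, smul_eq_mul]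
  ring

/-- if `Om` is a top eigenvector of `I1` then `I2 Om` is the next eigenvector -/
theorem I1_I2 [IsDomain A] (he : EMB_Stmt) (hbk : BRK_Stmt) (hr : REL_Stmt) (hs : SPEC_Stmt)
    (hG : Q.Gen r) (hR : Q.Reg r) (Om : Lb r × Lb r × Lb r → A)
    (h1 : VAL.Iop Q r false Om = Q.lam r • Om) :
    VAL.Iop Q r false (VAL.Iop Q r true Om) = Q.lam (r - 1) • VAL.Iop Q r true Om := by
  have h2 := LinearMap.congr_fun (VAL.rel_End Q r hr).2 Om
  set I1 := VAL.Iop Q r false with hI1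
  set I2 := VAL.Iop Q r true with hI2
  simp only [LinearMap.add_apply, LinearMap.sub_apply, LinearMap.smul_apply, LinearMap.neg_apply,
    Module.End.mul_apply, h1, map_smul] at h2
  set w := I2 Om with hw
  -- sum and product of the neighbouring eigenvalues
  obtain ⟨-, -, -, -, -, hb1, hb2, -, -, -⟩ := hbk A Q
  have hsum : Q.lam (r + 1) + Q.lam (r - 1) = Q.two * Q.lam r := by
    have h3 := hb1 r
    unfold QP.lam
    rw [← mul_add, h3]
    ring
  have hprod : Q.lam (r + 1) * Q.lam (r - 1) = Q.lam r ^ 2 + 1 := by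
    have h3 := hb2 r
    have h4 := Q.hi
    unfold QP.lam
    linear_combination (Q.br (r + 1) * Q.br (r - 1) - Q.br r ^ 2) * h4 + h3
  set u := I1 w - Q.lam (r - 1) • w with hu
  have h5 : I1 u = Q.lam (r + 1) • u := by
    have h6 : I1 (I1 w) = (Q.two * Q.lam r) • I1 w - (Q.lam r ^ 2 + 1) • w := by
      have h7 : I1 (I1 w) - Q.two • Q.lam r • I1 w + Q.lam r • Q.lam r • w = -w := h2
      rw [smul_smul, smul_smul] at h7
      have h8 : I1 (I1 w) = (Q.two * Q.lam r) • I1 w - (Q.lam r * Q.lam r) • w - w := by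
        rw [eq_sub_iff_add_eq, eq_sub_iff_add_eq]
        rw [add_comm (I1 (I1 w)) w, add_assoc, ← sub_eq_zero]
        rw [← sub_eq_zero] at h7
        rw [← h7]
        abel
      rw [h8, add_smul, one_smul, pow_two]
      abel
    rw [hu, map_sub, map_smul, h6, ← hsum, ← hprod, smul_sub, smul_smul, add_smul]
    abel
  have h9 := VAL.aeval_eig I1 u _ h5 (Q.pol r)
  have h10 : aeval I1 (Q.pol r) u = 0 := by
    rw [hI1, VAL.aeval_Iop, VAL.pol_emb Q r he hs hG false, Matrix.zero_mulVec]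
  rw [h10] at h9
  have h11 : (Q.pol r).eval (Q.lam (r + 1)) ≠ 0 := by
    rw [QP.pol, eval_prod, Finset.prod_ne_zero_iff]
    intro m hm
    rw [eval_sub, eval_X, eval_C]
    exact sub_ne_zero.2 (Ne.symm (hR m hm).1)
  have h12 : u = 0 := by
    funext t
    have h13 := congrFun h9 t
    rw [Pi.zero_apply, Pi.smul_apply, smul_eq_mul] at h13
    rcases mul_eq_zero.1 h13.symm with h14 | h14
    · exact (h11 h14).elim
    · exact h14
  rw [hu] at h12
  exact sub_eq_zero.1 h12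

theorem rec3 (hr : REL_Stmt) (Om : Lb r × Lb r × Lb r → A) (k : ℕ) :
    VAL.Iop Q r false ((VAL.Iop Q r true ^ (k + 2)) Om) =
      Q.two • VAL.Iop Q r true (VAL.Iop Q r false ((VAL.Iop Q r true ^ (k + 1)) Om)) -
        VAL.Iop Q r true (VAL.Iop Q r true (VAL.Iop Q r false ((VAL.Iop Q r true ^ k) Om))) -
        VAL.Iop Q r false ((VAL.Iop Q r true ^ k) Om) := by
  have h2 := LinearMap.congr_fun (VAL.rel_End Q r hr).1 ((VAL.Iop Q r true ^ k) Om)
  simp only [LinearMap.add_apply, LinearMap.sub_apply, LinearMap.smul_apply,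
    LinearMap.neg_apply, Module.End.mul_apply] at h2
  rw [pow_succ', pow_succ', Module.End.mul_apply, Module.End.mul_apply]
  rw [eq_sub_iff_add_eq, eq_sub_iff_add_eq, ← sub_eq_zero]
  rw [← sub_eq_zero] at h2
  rw [← h2]
  abel

/-- words acting on a top eigenvector `Om` of `I1` -/
theorem word [IsDomain A] (he : EMB_Stmt) (hbk : BRK_Stmt) (hr : REL_Stmt) (hs : SPEC_Stmt)
    (hG : Q.Gen r) (hR : Q.Reg r) (Om : Lb r × Lb r × Lb r → A)
    (h1 : VAL.Iop Q r false Om = Q.lam r • Om) (l : List A[X]) :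
    ∀ b : Bool, Wv Q r Om b l =
      aeval (emb12 (Im Q r)) (wop Q.two (Q.lam r) (Q.lam (r - 1)) b l) *ᵥ Om := by
  have hk := UNV.key Q.two (Q.lam r) (Q.lam (r - 1)) (VAL.Iop Q r false) (VAL.Iop Q r true) Om h1
    (I1_I2 Q r he hbk hr hs hG hR Om h1) (rec3 Q r hr Om)
  have hP : ∀ P : A[X], aeval (emb12 (Im Q r)) P *ᵥ Om = UNV.Phi (VAL.Iop Q r true) Om P :=
    fun P => (VAL.aeval_Iop Q r true P Om).symm
  induction l with
  | nil =>
    intro b
    rw [hP]
    cases b <;> rw [Wv, wop, UNV.Phi_one]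
  | cons P l ih =>
    intro b
    rw [hP]
    cases b
    · rw [Wv, wop, ih, hP]
      have h2 := UNV.comm_aeval Q.two (Q.lam r) (Q.lam (r - 1)) (VAL.Iop Q r false)
        (VAL.Iop Q r true) Om hk P (wop Q.two (Q.lam r) (Q.lam (r - 1)) true l)
      rw [← h2]
      exact (VAL.aeval_Iop Q r false P _).symm
    · rw [Wv, wop, ih, hP, UNV.Phi_mul]
      exact (VAL.aeval_Iop Q r true P _).symm

end

end WOP

/-- WOP: words of polynomials acting on `φ ⊗ cup`. -/
theorem wop_thm (hb : BRK_Stmt) (he : EMB_Stmt) (hr : REL_Stmt) (hs : SPEC_Stmt) (_hf : FC_Stmt)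
    (ht : TOP_Stmt) : WOP_Stmt := by
  intro A _ _ Q r hG hR φ l
  exact WOP.word Q r he hb hr hs hG hR (Omf Q r φ) (WOP.I1_Omf Q r ht φ) l false

end Pool.Agent.MT
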