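import Pool.Agent.TB.Inv
import Pool.Agent.TB.Fti
import Pool.Agent.TB.Ftm
import Pool.Agent.TB.Klk
import Pool.Agent.TB.Emb
import Pool.Agent.TB.Brk
import Pool.Agent.TB.Rel
import Pool.Agent.TB.Spec
import Pool.Agent.TB.Fc
import Pool.Agent.TB.Brd
import Pool.Agent.TB.Top
import Pool.Agent.TB.Rpr
import Pool.Agent.TB.Cup
import Pool.Agent.TB.Sld
import Pool.Agent.TB.Tdg
import Pool.Agent.TB.Unv
import Pool.Agent.TB.Hz
import Pool.Agent.TB.Gps
import Pool.Agent.TB.Grt
import Pool.Agent.TB.Zt
import Pool.Agent.TB.Lft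
import Pool.Agent.TB.Eig
import Pool.Agent.TB.Nn
import Pool.Agent.TB.Mu
import Pool.Agent.TB.The
import Pool.Agent.MT.Twd
import Pool.Agent.MT.Wop
import Pool.Agent.MT.Dlb
import Pool.Agent.MT.Clc
import Pool.Agent.MT.Prt
import Pool.Agent.MT.Tf
import Pool.Agent.MT.Tt
import Pool.Agent.MT.Ht
import Pool.Agent.MT.Valm
import Pool.Agent.MT.Otg
import Pool.Agent.MT.Natm
import Pool.Agent.MT.Tmc
import Pool.Agent.MT.Tmp
import Pool.Agent.MT.Tmf
import Pool.Agent.MT.Tms
import Pool.Agent.MT.Tma
import Pool.Agent.MT.Int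

namespace Pool.Agent.MT

open Pool.Agent.TB

/-- The algebraic part: if all finite type invariants of two long diagrams `mdiag` agree, then the
logarithmic derivatives in the model differ by a constant. -/
theorem int_all : INT_Stmt :=
  have hbrk := brk
  have hemb := emb
  have hrel := rel
  have hspec := spec brk
  have hfc := fc
  have hbrd := brd hbrk hfc
  have htop := top hbrk hspec hfc
  have hrpr := rpr hbrk
  have hcup := cup
  have hsld := sld hemb hrel hspec hfc hbrd htop hrpr hcup
  have htdg := tdg hemb hrel hspec hfc hbrd hrpr hcup hsld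
  have hzt := zt_basic
  have hgrt := grt hbrk
  have hlft := lft hzt
  have heig := eig hbrk hzt
  have htwd := MT.twd hbrk hemb hspec hfc hrpr
  have hwop := wop_thm hbrk hemb hrel hspec hfc htop
  have hdlb := dlb hbrk hspec hfc htop
  have hclc := clc hbrk hemb hrel hspec hfc htop hcup unv hdlb hwop
  have hprt := prt hbrk hemb hspec hfc hrpr hcup hdlb hwop hclc
  have htf := tf hemb hcup htwd hwop hprt
  have htt := tt hemb hcup htwd hwop hprt hdlb
  have hht := ht_thm hbrk hemb hspec hfc hrpr
  have hvalm := valm hemb hcup htf htt hht hprt hclc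
  have hotg := otg hbrk
  have htmc := tmc hbrk hfc unv hzt hgrt hlft heig (nn hzt) (mu hzt) the
  have htmp := tmp hbrk hfc unv hzt hgrt hlft heig (nn hzt) (mu hzt) the
  have htmf := tmf hbrk hzt
  have htms := tms hzt
  have htma := tma hfc hgrt htmc htmp htmf htms
  int_thm hvalm hotg natm htma hclc (ftm inv fti) htdg hz (gps hbrk) hgrt

end Pool.Agent.MT
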