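import Pool.Agent.MT.Stmts
import Pool.Agent.TB.Eig

/-!
Finite type invariants of Montesinos knots: module INT, the result of the algebraic part.
-/

open Polynomial
open scoped BigOperators Matrix

namespace Pool.Agent.MT

open Pool.Agent.LibH11.Sliced Pool.Agent.TB

namespace INT

/-- the values over the power series agree -/
theorem ew_qps (h1 : VALM_Stmt) (hftm : FTM_Stmt) (htdg : TDG_Stmt) (hhz : HZ_Stmt)
    (hgps : GPS_Stmt) {ts ts' : List (Bool × List ℤ)} {e e' : ℤ}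
    (h : IsLongKnot (mdiag ts e)) (h' : IsLongKnot (mdiag ts' e')) (hp : PF ts e)
    (hp' : PF ts' e')
    (hv : ∀ v : Knot → ℂ, IsFiniteType v →
      v (ofDiag (mdiag ts e) h) = v (ofDiag (mdiag ts' e') h'))
    (r : ℕ) (hr : Even r) : Ew QPS r ts e = Ew QPS r ts' e' := by
  have : CharZero (PowerSeries ℂ) := charZero_of_injective_ringHom
    (PowerSeries.C_injective (R := ℂ))
  have k := hftm (SL r) (tdata QPS r) (s0 r) (htdg _ QPS r hr (hgps r).1 (hgps r).2)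
    (hhz r hr) (mdiag ts e) (mdiag ts' e') h h' hv
  rwa [h1 _ QPS r hr (hgps r).1 (hgps r).2 ts e hp,
    h1 _ QPS r hr (hgps r).1 (hgps r).2 ts' e' hp'] at k

/-- transfer to the dual numbers -/
theorem transfer (h2 : OTG_Stmt) (h3 : NATM_Stmt) (h5 : CLC_Stmt) (hgps : GPS_Stmt) (r : ℕ)
    (hr : Even r) (s0 : ℂˣ) (hg : (QC s0).Gen r) {ts ts' : List (Bool × List ℤ)} {e e' : ℤ}
    (h : Ew QPS r ts e = Ew QPS r ts' e') :
    Ew (QD s0) r ts e = Ew (QD s0) r ts' e' ∧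
      dlt (QD s0) r ^ 2 * cval (QD s0) r ((QD s0).basis r r) = 1 := by
  obtain ⟨O, iO, iD, Q, φ, ψ, hG, hφ, hQφ, hQψ⟩ := h2 r s0 hg
  obtain ⟨a1, a2⟩ := h3 O _ φ Q r hG
  obtain ⟨b1, b2⟩ := h3 O _ ψ Q r hG
  constructor
  · have k : Ew Q r ts e = Ew Q r ts' e' := hφ (by rw [a1, a1, hQφ, h])
    rw [← hQψ, ← b1, ← b1, k]
  · have k : dlt Q r ^ 2 * cval Q r (Q.basis r r) = 1 := hφ (by
      rw [a2, hQφ, map_one]
      exact (h5 _ QPS r hr (hgps r).1 (hgps r).2).2)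
    rw [← hQψ, ← b2, k, map_one]

/-- the powers of `tht` over the dual numbers -/
theorem tht_zpow (s0 : ℂˣ) (r : ℕ) : ∃ z : ℂˣ, ∀ k : ℤ,
    ((tht (QD s0) r ^ k : (DualNumber ℂ)ˣ) : DualNumber ℂ) =
      TrivSqZeroExt.inl ((z ^ k : ℂˣ) : ℂ) *
        (1 + TrivSqZeroExt.inr ((k : ℂ) * ((r : ℂ) ^ 2 - (r : ℂ) / 2))) := by
  refine ⟨(iC ^ (r : ℤ) * s0 ^ ((r : ℤ) ^ 2)) ^ 2 * (s0 ^ (r : ℤ))⁻¹, fun k => ?_⟩
  have h1 : tht (QD s0) r = EIG.PL ((iC ^ (r : ℤ) * s0 ^ ((r : ℤ) ^ 2)) ^ 2 * (s0 ^ (r : ℤ))⁻¹,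
      Multiplicative.ofAdd ((r : ℂ) ^ 2 - (r : ℂ) / 2)) := by
    have h2 : (QD s0).s ^ r = EIG.PL (s0 ^ (r : ℤ), Multiplicative.ofAdd ((r : ℂ) * (1 / 2))) := by
      rw [← zpow_natCast, EIG.s_zpow]
      push_cast
      rfl
    rw [tht, EIG.fu_eq, h2, ← map_pow, ← map_inv, ← map_mul]
    congr 1
    refine Prod.ext rfl ?_
    show (Multiplicative.ofAdd ((((r : ℕ) : ℤ) : ℂ) ^ 2 * (1 / 2))) ^ 2 *
      (Multiplicative.ofAdd ((r : ℂ) * (1 / 2)))⁻¹ = _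
    rw [← ofAdd_nsmul, ← ofAdd_neg, ← ofAdd_add]
    congr 1
    simp only [nsmul_eq_mul]
    push_cast
    ring
  rw [h1, ← map_zpow, EIG.zpow_pair, EIG.PL_coe]

/-- the last step -/
theorem key {u v p p' M : ℂ} (hu : u ≠ 0) (hv : v ≠ 0) {a b : DualNumber ℂ}
    (h : TrivSqZeroExt.inl u * (1 + TrivSqZeroExt.inr (2 * p * M)) * a ^ 2 =
      TrivSqZeroExt.inl v * (1 + TrivSqZeroExt.inr (2 * p' * M)) * b ^ 2) :
    a.snd * b.fst - b.snd * a.fst = (p' - p) * M * a.fst * b.fst := by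
  have h0 := congrArg TrivSqZeroExt.fst h
  have h1 := congrArg TrivSqZeroExt.snd h
  simp only [pow_two, TrivSqZeroExt.fst_mul, TrivSqZeroExt.snd_mul, TrivSqZeroExt.fst_inl,
    TrivSqZeroExt.snd_inl, TrivSqZeroExt.fst_add, TrivSqZeroExt.snd_add, TrivSqZeroExt.fst_one,
    TrivSqZeroExt.snd_one, TrivSqZeroExt.fst_inr, TrivSqZeroExt.snd_inr, smul_eq_mul,
    op_smul_eq_smul, add_zero, zero_add, mul_one, smul_zero] at h0 h1
  by_cases ha : a.fst = 0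
  · have hb : b.fst = 0 := by
      rw [ha] at h0
      have : v * (b.fst * b.fst) = 0 := by rw [← h0]; ring
      rcases mul_eq_zero.1 this with h2 | h2
      · exact absurd h2 hv
      · exact mul_self_eq_zero.1 h2
    rw [ha, hb]
    ring
  · by_cases hb : b.fst = 0
    · exfalso
      rw [hb] at h0
      have : u * (a.fst * a.fst) = 0 := by rw [h0]; ring
      rcases mul_eq_zero.1 this with h2 | h2
      · exact hu h2
      · exact ha (mul_self_eq_zero.1 h2)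
    · have h2 : 2 * (u * (a.fst * a.fst)) *
          (a.snd * b.fst - b.snd * a.fst - (p' - p) * M * a.fst * b.fst) = 0 := by
        linear_combination (a.fst * b.fst) * h1 -
          (2 * b.snd * a.fst + 2 * p' * M * b.fst * a.fst) * h0
      have h3 : 2 * (u * (a.fst * a.fst)) ≠ 0 :=
        mul_ne_zero two_ne_zero (mul_ne_zero hu (mul_ne_zero ha ha))
      rcases mul_eq_zero.1 h2 with h4 | h4
      · exact absurd h4 h3
      · exact sub_eq_zero.1 h4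

end INT

theorem int_thm (h1 : VALM_Stmt) (h2 : OTG_Stmt) (h3 : NATM_Stmt) (h4 : TMA_Stmt)
    (h5 : CLC_Stmt) (hftm : FTM_Stmt) (htdg : TDG_Stmt) (hhz : HZ_Stmt) (hgps : GPS_Stmt)
    (hgrt : GRT_Stmt) : INT_Stmt := by
  intro ts ts' e e' h h' hp hp' hv s hs
  obtain ⟨m, rfl⟩ : ∃ m, s = m + 2 := ⟨s - 2, by omega⟩
  set r : ℕ := 2 ^ (m + 1) with hrdef
  have hr : Even r := ⟨2 ^ m, by rw [hrdef, pow_succ]; ring⟩
  have hrpos : 0 < r := by rw [hrdef]; positivity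
  have hn : 2 ^ (m + 2) = 2 * r := by rw [hrdef, pow_succ]; ring
  refine ⟨((par ts' e' : ℂ) - par ts e) * ((r : ℂ) ^ 2 - (r : ℂ) / 2), fun ι hι => ?_⟩
  have hc : IsCoprime ι (2 * (2 ^ (m + 2) : ℕ) : ℤ) := by
    have h6 : IsCoprime ι (2 : ℤ) := by
      obtain ⟨k, hk⟩ := hι
      exact ⟨1, -k, by rw [hk]; ring⟩
    push_cast
    exact h6.mul_right h6.pow_right
  have hc4 : IsCoprime ι (4 * r : ℤ) := by
    have h6 : (4 * r : ℤ) = (2 * (2 ^ (m + 2) : ℕ) : ℤ) := by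
      rw [hn]; push_cast; ring
    rw [h6]; exact hc
  have hg := (hgrt r ι hrpos hc4).1
  have hew := INT.ew_qps h1 hftm htdg hhz hgps h h' hp hp' hv r hr
  have hnz : NeZero (2 * r) := ⟨by omega⟩
  have hsz : sz (2 * r) ι = sz (2 ^ (m + 2)) ι := by
    apply Units.ext
    simp only [sz, Units.val_mk0]
    rw [← hn]
  rw [hsz] at hg
  obtain ⟨hE, hD⟩ := INT.transfer h2 h3 h5 hgps r hr _ hg hew
  obtain ⟨hM, hB⟩ := h4 (2 ^ (m + 2)) r ι hn hr hc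
  rw [hB] at hD
  obtain ⟨z, hz⟩ := INT.tht_zpow (sz (2 ^ (m + 2)) ι) r
  set d := dlt (QD (sz (2 ^ (m + 2)) ι)) r with hd
  set T := tht (QD (sz (2 ^ (m + 2)) ι)) r with hT
  set θ : DualNumber ℂ := 1 - TrivSqZeroExt.inr (Th (2 ^ (m + 2)) ι 1 0) with hθ
  set γ : ℂ := 1 / (2 * ((2 ^ (m + 2) : ℕ) : ℂ)) with hγ
  have hγ0 : γ ≠ 0 := by
    rw [hγ]
    have : ((2 ^ (m + 2) : ℕ) : ℂ) ≠ 0 := by exact_mod_cast (by positivity : 2 ^ (m + 2) ≠ 0)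
    exact one_div_ne_zero (mul_ne_zero two_ne_zero this)
  have hsq : ∀ (ts : List (Bool × List ℤ)) (e : ℤ), PF ts e →
      Ew (QD (sz (2 ^ (m + 2)) ι)) r ts e ^ 2 * θ ^ 2 * TrivSqZeroExt.inl γ ^ ntr ts =
        ((T ^ (2 * par ts e) : (DualNumber ℂ)ˣ) : DualNumber ℂ) * TrivSqZeroExt.inl γ *
          Mt (2 ^ (m + 2)) ι ts e ^ 2 := by
    intro ts e hp
    rw [Ew, hM ts e hp]
    have h7 : ((T ^ (2 * par ts e) : (DualNumber ℂ)ˣ) : DualNumber ℂ) =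
        ((T ^ par ts e : (DualNumber ℂ)ˣ) : DualNumber ℂ) ^ 2 := by
      rw [two_mul, zpow_add, Units.val_mul, pow_two]
    rw [h7]
    generalize ((T ^ par ts e : (DualNumber ℂ)ˣ) : DualNumber ℂ) = t
    generalize Mt (2 ^ (m + 2)) ι ts e = a
    generalize ntr ts = k
    have h8 : (d ^ 2 * (TrivSqZeroExt.inl γ * θ ^ 2)) ^ (k + 1) = 1 := by rw [hD, one_pow]
    have h9 : (t * d ^ (1 + k) * (TrivSqZeroExt.inl γ * θ ^ k * a)) ^ 2 * θ ^ 2 *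
        TrivSqZeroExt.inl γ ^ k = t ^ 2 * TrivSqZeroExt.inl γ * a ^ 2 *
          (d ^ 2 * (TrivSqZeroExt.inl γ * θ ^ 2)) ^ (k + 1) := by ring_nf
    rw [h9, h8, mul_one]
  have e1 := hsq ts e hp
  have e2 := hsq ts' e' hp'
  rw [hE] at e1
  have e3 : ((T ^ (2 * par ts e) : (DualNumber ℂ)ˣ) : DualNumber ℂ) * TrivSqZeroExt.inl γ *
      Mt (2 ^ (m + 2)) ι ts e ^ 2 * TrivSqZeroExt.inl γ ^ ntr ts' =
      ((T ^ (2 * par ts' e') : (DualNumber ℂ)ˣ) : DualNumber ℂ) * TrivSqZeroExt.inl γ *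
      Mt (2 ^ (m + 2)) ι ts' e' ^ 2 * TrivSqZeroExt.inl γ ^ ntr ts := by
    rw [← e1, ← e2]
    ring
  rw [hz, hz] at e3
  have hpow : ∀ k : ℕ, (TrivSqZeroExt.inl γ : DualNumber ℂ) ^ k = TrivSqZeroExt.inl (γ ^ k) := by
    intro k
    exact TrivSqZeroExt.inl_pow γ k
  have e4 : TrivSqZeroExt.inl (((z ^ (2 * par ts e) : ℂˣ) : ℂ) * γ ^ (ntr ts' + 1)) *
      (1 + TrivSqZeroExt.inr (2 * (par ts e : ℂ) * ((r : ℂ) ^ 2 - (r : ℂ) / 2))) *
        Mt (2 ^ (m + 2)) ι ts e ^ 2 =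
      TrivSqZeroExt.inl (((z ^ (2 * par ts' e') : ℂˣ) : ℂ) * γ ^ (ntr ts + 1)) *
      (1 + TrivSqZeroExt.inr (2 * (par ts' e' : ℂ) * ((r : ℂ) ^ 2 - (r : ℂ) / 2))) *
        Mt (2 ^ (m + 2)) ι ts' e' ^ 2 := by
    have e5 : ((2 * par ts e : ℤ) : ℂ) = 2 * (par ts e : ℂ) := by push_cast; ring
    have e6 : ((2 * par ts' e' : ℤ) : ℂ) = 2 * (par ts' e' : ℂ) := by push_cast; ring
    rw [e5, e6] at e3
    rw [TrivSqZeroExt.inl_mul, TrivSqZeroExt.inl_mul, ← hpow, ← hpow]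
    linear_combination e3
  have h10 := INT.key (mul_ne_zero (Units.ne_zero _) (pow_ne_zero _ hγ0))
    (mul_ne_zero (Units.ne_zero _) (pow_ne_zero _ hγ0)) e4
  rw [h10]

end Pool.Agent.MT
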