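import Pool.Agent.MT.Defs
import Pool.Agent.TB.Stmts2

/-!
Finite type invariants of Montesinos knots: statements of the modules of the algebraic part
(value of the functor, transfer to the dual numbers, model at a root of unity).
See PAPER.md, section A, in this folder.
-/

open Polynomial
open scoped BigOperators Matrix

namespace Pool.Agent.MT

open Pool.Agent.LibH11.Sliced Pool.Agent.TB

/-! ### A1. The value of the functor -/

/-- TWD: twist regions acting on the first three strands; the other strands `l0` are parameters. -/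
def TWD_Stmt : Prop :=
  ∀ (A : Type) [CommRing A] (Q : QP A) (r : ℕ), Even r → Q.Gen r →
    ∀ (p : ℕ) (x : List ℤ), (p = 0 ∧ Even x.length ∨ p = 1 ∧ Odd x.length) →
    ∀ (ψ : List (SL r) → A) (l0 : List (SL r)) (g : Bool → Bool → Bool → A)
      (v : Lb r × Lb r × Lb r → A),
      (∀ a b c : SL r, ψ (a :: b :: c :: l0) = g a.2 b.2 c.2 * v (a.1.1, b.1.1, c.1.1)) →
      ∀ a b c : SL r, (tdata Q r).st (twd p x) ψ (a :: b :: c :: l0) =
        (if a.2 = b.2 then ((tht Q r ^ (2 * if p = 0 then evs x else ods x) : Aˣ) : A) else 1) *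
        (if b.2 = c.2 then ((tht Q r ^ (2 * if p = 0 then ods x else evs x) : Aˣ) : A) else 1) *
        g a.2 b.2 c.2 * Wv Q r v false (x.reverse.map (GP Q r)) (a.1.1, b.1.1, c.1.1)

/-- WOP: words of polynomials acting on `φ ⊗ cup`. -/
def WOP_Stmt : Prop :=
  ∀ (A : Type) [CommRing A] [IsDomain A] (Q : QP A) (r : ℕ), Q.Gen r → Q.Reg r →
    ∀ (φ : Lb r → A) (l : List A[X]),
      Wv Q r (Omf Q r φ) false l =
        aeval (emb12 (Im Q r)) (wop Q.two (Q.lam r) (Q.lam (r - 1)) false l) *ᵥ Omf Q r φ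

/-- DLB: the projection to the top eigenvector. -/
def DLB_Stmt : Prop :=
  ∀ (A : Type) [CommRing A] [IsDomain A] (Q : QP A) (r : ℕ), Q.Gen r → Q.Reg r →
    (∑ a, ∑ b, capv Q r a b * cupv Q r a b = dlt Q r) ∧
    ∀ p c : Lb r × Lb r, dlt Q r * (aeval (Im Q r) (Q.basis r r)) p c =
      cupv Q r p.1 p.2 * capv Q r c.1 c.2

/-- CLC: the closure. -/
def CLC_Stmt : Prop :=
  ∀ (A : Type) [CommRing A] [IsDomain A] (Q : QP A) (r : ℕ), Even r → Q.Gen r → Q.Reg r →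
    (∀ X : A[X], ∑ b, ∑ c, capv Q r b c *
      (aeval (emb12 (Im Q r)) X *ᵥ Omf Q r (del r)) (Lb.zero r, b, c) = dlt Q r * cval Q r X) ∧
    dlt Q r ^ 2 * cval Q r (Q.basis r r) = 1

/-- PRT: parities. -/
def PRT_Stmt : Prop :=
  ∀ (A : Type) [CommRing A] [IsDomain A] [CharZero A] (Q : QP A) (r : ℕ), Even r → Q.Gen r →
    Q.Reg r →
    (∀ x : List ℤ, Even x.length → ∀ p c : Lb r × Lb r,
      (p.1.par ≠ c.1.par ∨ p.2.par ≠ c.2.par) →
        (aeval (Im Q r) (tpoly Q r (false, x))) p c = 0) ∧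
    (∀ e : ℤ, Even e → ∀ p c : Lb r × Lb r, (p.1.par ≠ c.1.par ∨ p.2.par ≠ c.2.par) →
        (aeval (Im Q r) (FP Q r e)) p c = 0) ∧
    (∀ e : ℤ, Odd e → ∀ p c : Lb r × Lb r, (p.1.par ≠ c.2.par ∨ p.2.par ≠ c.1.par) →
        (aeval (Im Q r) (FP Q r e)) p c = 0) ∧
    (∀ (P : A[X]) (p c : Lb r × Lb r), xor p.1.par p.2.par ≠ xor c.1.par c.2.par →
        (aeval (Im Q r) P) p c = 0) ∧
    (∀ x : List ℤ, Odd x.length → ∀ p c : Lb r × Lb r, c.1.par = false → c.2.par = true →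
        (aeval (Im Q r) (tpoly Q r (true, x))) p c = 0)

/-- TF: a tangle with the flag `false`. -/
def TF_Stmt : Prop :=
  ∀ (A : Type) [CommRing A] [IsDomain A] [CharZero A] (Q : QP A) (r : ℕ), Even r → Q.Gen r →
    Q.Reg r → ∀ x : List ℤ, Even x.length →
    ∀ (ψ : List (SL r) → A) (g : Bool → Bool → Bool → A) (v : Lb r × Lb r × Lb r → A),
      RelM r ψ g v →
      RelM r ((tdata Q r).st (tgd (false, x)) ψ)
        (fun a b c => (if a = b then ((tht Q r ^ (2 * evs x) : Aˣ) : A) else 1) * g a b c)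
        (aeval (emb12 (Im Q r)) (tpoly Q r (false, x)) *ᵥ v)

/-- TT: a tangle with the flag `true`. -/
def TT_Stmt : Prop :=
  ∀ (A : Type) [CommRing A] [IsDomain A] [CharZero A] (Q : QP A) (r : ℕ), Even r → Q.Gen r →
    Q.Reg r → ∀ x : List ℤ, Odd x.length →
    ∀ (ψ : List (SL r) → A) (g : Bool → Bool → Bool → A) (v : Lb r × Lb r × Lb r → A),
      (∀ a b c : Lb r, a.par = true → v (a, b, c) = 0) → RelM r ψ g v →
      RelM r ((tdata Q r).st (tgd (true, x)) ψ)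
        (fun a b c => if b = a then 0 else
          ∑ o : Bool, (if b = o then ((tht Q r ^ (2 * evs x) : Aˣ) : A) else 1) * g o (!o) c)
        (dlt Q r • (aeval (emb12 (Im Q r)) (tpoly Q r (true, x)) *ᵥ v))

/-- HT: half twists. -/
def HT_Stmt : Prop :=
  ∀ (A : Type) [CommRing A] (Q : QP A) (r : ℕ), Even r → Q.Gen r →
    ∀ (e : ℤ) (ψ : List (SL r) → A) (g : Bool → Bool → Bool → A) (v : Lb r × Lb r × Lb r → A),
      RelM r ψ g v →
      RelM r ((tdata Q r).st (htd e) ψ)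
        (fun a b c => (if a = b then ((tht Q r ^ e : Aˣ) : A) else 1) *
          if Even e then g a b c else g b a c)
        (aeval (emb12 (Im Q r)) (FP Q r e) *ᵥ v)

/-- VALM: the value of the functor on the Montesinos diagrams. -/
def VALM_Stmt : Prop :=
  ∀ (A : Type) [CommRing A] [IsDomain A] [CharZero A] (Q : QP A) (r : ℕ), Even r → Q.Gen r →
    Q.Reg r → ∀ (ts : List (Bool × List ℤ)) (e : ℤ), PF ts e →
      (tdata Q r).J (s0 r) (mdiag ts e) = Ew Q r ts e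

/-! ### A2. Transfer to the dual numbers -/

/-- OTG: the ring of rational functions regular at `s = 1` and at `s = s0`. -/
def OTG_Stmt : Prop :=
  ∀ (r : ℕ) (s0 : ℂˣ), (QC s0).Gen r → ∃ (O : Type) (_ : CommRing O) (_ : IsDomain O) (Q : QP O)
    (φ : O →+* PowerSeries ℂ) (ψ : O →+* DualNumber ℂ),
    Q.Gen r ∧ Function.Injective φ ∧ Q.map φ = QPS ∧ Q.map ψ = QD s0

/-- NATM: base change. -/
def NATM_Stmt : Prop :=
  ∀ (A B : Type) [CommRing A] [CommRing B] (φ : A →+* B) (Q : QP A) (r : ℕ), Q.Gen r →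
    (∀ (ts : List (Bool × List ℤ)) (e : ℤ), φ (Ew Q r ts e) = Ew (Q.map φ) r ts e) ∧
    φ (dlt Q r ^ 2 * cval Q r (Q.basis r r)) =
      dlt (Q.map φ) r ^ 2 * cval (Q.map φ) r ((Q.map φ).basis r r)

/-! ### A3. The model at a root of unity -/

/-- TMC: the closure in the model. -/
def TMC_Stmt : Prop :=
  ∀ (n r : ℕ) [NeZero n] (ι : ℤ), n = 2 * r → Even r → IsCoprime ι (2 * n : ℤ) →
    ∀ X : (DualNumber ℂ)[X], cval (QD (sz n ι)) r X =
      TrivSqZeroExt.inl (1 / (2 * n : ℂ)) * ∑ u : ZMod (2 * n),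
        X.eval ((QD (sz n ι)).lam (r - cc n u)) * (1 - TrivSqZeroExt.inr (Th n ι 1 u)) ^ 2

/-- TMP: the polynomials of the tangles in the model. -/
def TMP_Stmt : Prop :=
  ∀ (n r : ℕ) [NeZero n] (ι : ℤ), n = 2 * r → Even r → IsCoprime ι (2 * n : ℤ) →
    ∀ t : Bool × List ℤ, (t.1 = false → Even t.2.length) → (t.1 = true → Odd t.2.length) →
    ∀ u : ZMod (2 * n), (tpoly (QD (sz n ι)) r t).eval ((QD (sz n ι)).lam (r - cc n u)) *
        (1 - TrivSqZeroExt.inr (Th n ι 1 u)) =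
      (if t.1 then 1 - TrivSqZeroExt.inr (Th n ι 1 0) else 1) * du n (vt n ι t) u

/-- TMF: the eigenvalues of the half twists over the dual numbers. -/
def TMF_Stmt : Prop :=
  ∀ (n r : ℕ) [NeZero n] (ι : ℤ), n = 2 * r → Even r → IsCoprime ι (2 * n : ℤ) →
    (∀ (w : ℕ) (e : ℤ), ((Fu (QD (sz n ι)) r (r - cc n ((2 * w : ℕ) : ZMod (2 * n))) ^ e :
        (DualNumber ℂ)ˣ) : DualNumber ℂ) =
      TrivSqZeroExt.inl (zt n ι ((2 * e * (w : ℤ) ^ 2 : ℤ) : ZMod (2 * n))) *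
        (1 + TrivSqZeroExt.inr ((e : ℂ) / 2 * bq n ((2 * w : ℕ) : ZMod (2 * n))))) ∧
    ∀ w : ℕ, Fu (QD (sz n ι)) r (r - cc n (((2 * w + 1 : ℕ) : ZMod (2 * n)) + (n : ℕ))) =
      -Fu (QD (sz n ι)) r (r - cc n ((2 * w + 1 : ℕ) : ZMod (2 * n)))

/-- TMS: periodicity and supports. -/
def TMS_Stmt : Prop :=
  ∀ (n : ℕ) [NeZero n] (ι : ℤ), Even n → IsCoprime ι (2 * n : ℤ) →
    (∀ u : ZMod (2 * n), Th n ι 1 (u + (n : ℕ)) = Th n ι 1 u) ∧
    (∀ (x : List ℤ) (u : ZMod (2 * n)), du n (vt n ι (false, x)) (u + (n : ℕ)) =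
      du n (vt n ι (false, x)) u) ∧
    ∀ (x : List ℤ) (w : ℕ), du n (vt n ι (true, x)) ((2 * w + 1 : ℕ) : ZMod (2 * n)) = 0

/-- TMA: the universal values over the dual numbers. -/
def TMA_Stmt : Prop :=
  ∀ (n r : ℕ) [NeZero n] (ι : ℤ), n = 2 * r → Even r → IsCoprime ι (2 * n : ℤ) →
    (∀ (ts : List (Bool × List ℤ)) (e : ℤ), PF ts e →
      Mval (QD (sz n ι)) r ts e = TrivSqZeroExt.inl (1 / (2 * n : ℂ)) *
        (1 - TrivSqZeroExt.inr (Th n ι 1 0)) ^ ntr ts * Mt n ι ts e) ∧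
    cval (QD (sz n ι)) r ((QD (sz n ι)).basis r r) =
      TrivSqZeroExt.inl (1 / (2 * n : ℂ)) * (1 - TrivSqZeroExt.inr (Th n ι 1 0)) ^ 2

/-! ### A4. The result of the algebraic part -/

/-- INT: equality of the logarithmic derivatives at all roots of unity, up to a constant. -/
def INT_Stmt : Prop :=
  ∀ (ts ts' : List (Bool × List ℤ)) (e e' : ℤ) (h : IsLongKnot (mdiag ts e))
    (h' : IsLongKnot (mdiag ts' e')), PF ts e → PF ts' e' →
    (∀ v : Knot → ℂ, IsFiniteType v →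
      v (ofDiag (mdiag ts e) h) = v (ofDiag (mdiag ts' e') h')) →
    ∀ s : ℕ, 2 ≤ s → ∃ K : ℂ, ∀ ι : ℤ, Odd ι →
      (Mt (2 ^ s) ι ts e).snd * (Mt (2 ^ s) ι ts' e').fst -
          (Mt (2 ^ s) ι ts' e').snd * (Mt (2 ^ s) ι ts e).fst =
        K * (Mt (2 ^ s) ι ts e).fst * (Mt (2 ^ s) ι ts' e').fst

end Pool.Agent.MT
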